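import Pool.Agent.H631.Defs

open Finset

namespace CE

noncomputable section

lemma mem_ibox (d L : ℕ) (X : Fin d → ℤ) : X ∈ ibox d L ↔ ∀ i, -(L:ℤ) ≤ X i ∧ X i < L := by
  unfold ibox
  simp [Fintype.mem_piFinset]

theorem sum_ibox {β : Type} [AddCommMonoid β] (d L : ℕ) [NeZero (2 * L)] (h : Tor d (2 * L) → β) :
    ∑ X ∈ ibox d L, h (fun i => (X i : ZMod (2 * L))) = ∑ x, h x := by
  have hL : 0 < L := by
    have := NeZero.ne (2 * L)
    omega
  apply Finset.sum_nbij (fun X : Fin d → ℤ => (fun i => (X i : ZMod (2 * L))))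
  · intro X _; exact Finset.mem_univ _
  · intro X hX Y hY hXY
    rw [Finset.mem_coe, mem_ibox] at hX hY
    funext i
    have h1 := congrFun hXY i
    simp only at h1
    rw [ZMod.intCast_eq_intCast_iff_dvd_sub] at h1
    obtain ⟨k, hk⟩ := h1
    have := hX i
    have := hY i
    push_cast at hk
    have hk0 : k = 0 := by
      by_contra hne
      rcases lt_or_gt_of_ne hne with hlt | hgt
      · have : k ≤ -1 := by omega
        have h3 : (2 * (L:ℤ)) * k ≤ (2 * (L:ℤ)) * (-1) :=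
          mul_le_mul_of_nonneg_left this (by positivity)
        omega
      · have : 1 ≤ k := by omega
        have h3 : (2 * (L:ℤ)) * 1 ≤ (2 * (L:ℤ)) * k :=
          mul_le_mul_of_nonneg_left this (by positivity)
        omega
    rw [hk0, mul_zero] at hk
    omega
  · intro x _
    refine ⟨fun i => if ((x i).val : ℤ) < L then ((x i).val : ℤ) else ((x i).val : ℤ) - 2 * L, ?_, ?_⟩
    · rw [Finset.mem_coe, mem_ibox]
      intro i
      have h1 := ZMod.val_lt (x i)
      split_ifs with h2 <;> omega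
    · funext i
      show (((if ((x i).val : ℤ) < L then ((x i).val : ℤ) else ((x i).val : ℤ) - 2 * L) : ℤ) : ZMod (2 * L)) = x i
      split_ifs with h2
      · simp
      · push_cast
        have : ((2:ZMod (2 * L)) * (L : ZMod (2 * L))) = 0 := by
          have := ZMod.natCast_self (2 * L)
          push_cast at this
          exact this
        rw [this]
        simp
  · intro X _; rfl

theorem sum_ibox_le (d L L' : ℕ) [NeZero (2 * L)] (hL : L' ≤ L) (h : Tor d (2 * L) → ℝ)
    (h0 : ∀ x, 0 ≤ h x) :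
    ∑ X ∈ ibox d L', h (fun i => (X i : ZMod (2 * L))) ≤ ∑ x, h x := by
  rw [← sum_ibox d L h]
  apply Finset.sum_le_sum_of_subset_of_nonneg
  · intro X hX
    rw [mem_ibox] at hX ⊢
    intro i
    have := hX i
    omega
  · intro X _ _; exact h0 _

/-- the l2 size of a difference -/
def NN (d M : ℕ) [NeZero M] (u : Tor d M → ℂ) (c : Tor d M) : ℝ :=
  ‖(WithLp.toLp 2 (fun x => u (x + c) - u x) : EuclideanSpace ℂ (Tor d M))‖

lemma NN_sq (d M : ℕ) [NeZero M] (u : Tor d M → ℂ) (c : Tor d M) :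
    NN d M u c ^ 2 = ∑ x : Tor d M, ‖u (x + c) - u x‖ ^ 2 := by
  unfold NN
  rw [EuclideanSpace.norm_sq_eq]

lemma NN_nonneg (d M : ℕ) [NeZero M] (u : Tor d M → ℂ) (c : Tor d M) : 0 ≤ NN d M u c :=
  norm_nonneg _

lemma NN_add (d M : ℕ) [NeZero M] (u : Tor d M → ℂ) (c c' : Tor d M) :
    NN d M u (c + c') ≤ NN d M u c + NN d M u c' := by
  have h1 : (WithLp.toLp 2 (fun x => u (x + (c + c')) - u x) : EuclideanSpace ℂ (Tor d M)) =
      WithLp.toLp 2 (fun x => u (x + c' + c) - u (x + c')) + WithLp.toLp 2 (fun x => u (x + c') - u x) := by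
    rw [← WithLp.toLp_add]
    congr 1
    funext x
    simp only [Pi.add_apply]
    rw [show x + (c + c') = x + c' + c by abel]
    ring
  have h2 : ‖(WithLp.toLp 2 (fun x => u (x + c' + c) - u (x + c')) : EuclideanSpace ℂ (Tor d M))‖ =
      NN d M u c := by
    unfold NN
    rw [EuclideanSpace.norm_eq, EuclideanSpace.norm_eq]
    congr 1
    exact Equiv.sum_comp (Equiv.addRight c') (fun x => ‖u (x + c) - u x‖ ^ 2)
  unfold NN at *
  rw [h1]
  refine (norm_add_le _ _).trans ?_
  rw [h2]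

lemma NN_zero (d M : ℕ) [NeZero M] (u : Tor d M → ℂ) : NN d M u 0 = 0 := by
  have : NN d M u 0 ^ 2 = 0 := by rw [NN_sq]; simp
  exact pow_eq_zero_iff (two_ne_zero) |>.mp this

lemma NN_neg (d M : ℕ) [NeZero M] (u : Tor d M → ℂ) (c : Tor d M) :
    NN d M u (-c) = NN d M u c := by
  have h : NN d M u (-c) ^ 2 = NN d M u c ^ 2 := by
    rw [NN_sq, NN_sq]
    rw [← Equiv.sum_comp (Equiv.addRight c) (fun x => ‖u (x + -c) - u x‖ ^ 2)]
    apply Finset.sum_congr rfl
    intro x _
    simp only [Equiv.coe_addRight, add_neg_cancel_right]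
    rw [norm_sub_rev]
  exact (sq_eq_sq₀ (NN_nonneg _ _ _ _) (NN_nonneg _ _ _ _)).mp h

lemma NN_nsmul (d M : ℕ) [NeZero M] (u : Tor d M → ℂ) (c : Tor d M) (k : ℕ) :
    NN d M u (k • c) ≤ k * NN d M u c := by
  induction k with
  | zero => simp [NN_zero]
  | succ k ih =>
    rw [succ_nsmul]
    refine (NN_add _ _ _ _ _).trans ?_
    push_cast
    linarith

lemma NN_zsmul (d M : ℕ) [NeZero M] (u : Tor d M → ℂ) (c : Tor d M) (k : ℤ) :
    NN d M u (k • c) ≤ |(k:ℝ)| * NN d M u c := by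
  rcases Int.eq_nat_or_neg k with ⟨m, rfl | rfl⟩
  · rw [natCast_zsmul]
    simpa using NN_nsmul d M u c m
  · rw [neg_zsmul, natCast_zsmul, NN_neg]
    simpa using NN_nsmul d M u c m

lemma NN_sum (d M : ℕ) [NeZero M] (u : Tor d M → ℂ) {ι : Type} (s : Finset ι) (v : ι → Tor d M) :
    NN d M u (∑ i ∈ s, v i) ≤ ∑ i ∈ s, NN d M u (v i) := by
  classical
  induction s using Finset.induction_on with
  | empty => simp [NN_zero]
  | insert a s ha ih =>
    rw [Finset.sum_insert ha, Finset.sum_insert ha]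
    exact (NN_add _ _ _ _ _).trans (by linarith)

theorem shift_est (d M : ℕ) [NeZero M] (u : Tor d M → ℂ) (c : Fin d → ℤ) (n : ℕ)
    (hc : ∀ i, |c i| ≤ n) :
    ∑ x : Tor d M, ‖u (x + fun i => (c i : ZMod M)) - u x‖ ^ 2 ≤ (n : ℝ) ^ 2 * d * en d M u := by
  rw [← NN_sq]
  have h1 : (fun i => (c i : ZMod M)) = ∑ i : Fin d, c i • (Pi.single i (1 : ZMod M) : Tor d M) := by
    funext j
    rw [Finset.sum_apply]
    rw [Finset.sum_eq_single j]
    · simp
    · intro b _ hb
      simp [Pi.single_eq_of_ne hb.symm]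
    · intro h; exact absurd (Finset.mem_univ j) h
  have h2 : NN d M u (fun i => (c i : ZMod M)) ≤ n * ∑ i : Fin d, NN d M u (Pi.single i 1) := by
    rw [h1]
    refine (NN_sum _ _ _ _ _).trans ?_
    rw [Finset.mul_sum]
    apply Finset.sum_le_sum
    intro i _
    refine (NN_zsmul _ _ _ _ _).trans ?_
    apply mul_le_mul_of_nonneg_right _ (NN_nonneg _ _ _ _)
    have := hc i
    exact_mod_cast this
  have h3 : (∑ i : Fin d, NN d M u (Pi.single i 1)) ^ 2 ≤
      d * ∑ i : Fin d, NN d M u (Pi.single i 1) ^ 2 := by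
    have := sq_sum_le_card_mul_sum_sq (s := (Finset.univ : Finset (Fin d)))
      (f := fun i => NN d M u (Pi.single i 1))
    simpa using this
  have h4 : ∑ i : Fin d, NN d M u (Pi.single i 1) ^ 2 = en d M u := by
    unfold en
    apply Finset.sum_congr rfl
    intro i _
    exact NN_sq _ _ _ _
  rw [h4] at h3
  calc NN d M u (fun i => (c i : ZMod M)) ^ 2
      ≤ (n * ∑ i : Fin d, NN d M u (Pi.single i 1)) ^ 2 :=
        pow_le_pow_left₀ (NN_nonneg _ _ _ _) h2 2
    _ = n ^ 2 * (∑ i : Fin d, NN d M u (Pi.single i 1)) ^ 2 := by ring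
    _ ≤ n ^ 2 * (d * en d M u) := mul_le_mul_of_nonneg_left h3 (by positivity)
    _ = _ := by ring

theorem block_est (d L n B : ℕ) [NeZero (2 * L)] (hn : 0 < n) (hB : n * B ≤ L)
    (u : Tor d (2 * L) → ℂ) :
    ∃ a : (Fin d → ℤ) → ℂ, ∑ X ∈ ibox d (n * B),
      ‖lft d (2 * L) u X - a (fun i => X i / (n : ℤ))‖ ^ 2 ≤
        2 ^ d * ((n : ℝ) ^ 2 * d * en d (2 * L) u) := by
  classical
  set bb : Finset (Fin d → ℤ) := Fintype.piFinset (fun _ : Fin d => Finset.Ico (0 : ℤ) (n : ℤ)) with hbb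
  have hbcard : bb.card = n ^ d := by
    rw [hbb, Fintype.card_piFinset]
    simp
  have hncard : (ibox d n).card = (2 * n) ^ d := by
    unfold ibox
    rw [Fintype.card_piFinset]
    simp only [Int.card_Ico, sub_neg_eq_add, Finset.prod_const, Finset.card_univ, Fintype.card_fin]
    congr 1
    omega
  have hnd : (0:ℝ) < (n:ℝ) ^ d := by positivity
  have hnz : (0:ℤ) < n := by exact_mod_cast hn
  refine ⟨fun A => ((n:ℂ) ^ d)⁻¹ * ∑ b ∈ bb, lft d (2 * L) u (fun i => n * A i + b i), ?_⟩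
  -- pointwise bound
  have hpt : ∀ X : Fin d → ℤ, ‖lft d (2 * L) u X - ((n:ℂ) ^ d)⁻¹ *
      ∑ b ∈ bb, lft d (2 * L) u (fun i => n * (X i / (n:ℤ)) + b i)‖ ^ 2 ≤
      ((n:ℝ) ^ d)⁻¹ * ∑ c ∈ ibox d n, ‖lft d (2 * L) u X - lft d (2 * L) u (X + c)‖ ^ 2 := by
    intro X
    have hnc : ((n:ℂ) ^ d) ≠ 0 := by
      have : (n:ℂ) ≠ 0 := by exact_mod_cast hn.ne'
      positivity
    have e1 : lft d (2 * L) u X - ((n:ℂ) ^ d)⁻¹ *
        ∑ b ∈ bb, lft d (2 * L) u (fun i => n * (X i / (n:ℤ)) + b i) =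
        ((n:ℂ) ^ d)⁻¹ * ∑ b ∈ bb, (lft d (2 * L) u X -
          lft d (2 * L) u (fun i => n * (X i / (n:ℤ)) + b i)) := by
      rw [Finset.sum_sub_distrib, Finset.sum_const, hbcard, nsmul_eq_mul]
      push_cast
      rw [mul_sub, ← mul_assoc, inv_mul_cancel₀ hnc, one_mul]
    rw [e1, norm_mul, norm_inv, norm_pow, Complex.norm_natCast, mul_pow]
    have h2 : ‖∑ b ∈ bb, (lft d (2 * L) u X -
          lft d (2 * L) u (fun i => n * (X i / (n:ℤ)) + b i))‖ ^ 2 ≤
        (n:ℝ) ^ d * ∑ b ∈ bb, ‖lft d (2 * L) u X -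
          lft d (2 * L) u (fun i => n * (X i / (n:ℤ)) + b i)‖ ^ 2 := by
      refine (pow_le_pow_left₀ (norm_nonneg _) (norm_sum_le _ _) 2).trans ?_
      have := sq_sum_le_card_mul_sum_sq (s := bb) (f := fun b => ‖lft d (2 * L) u X -
          lft d (2 * L) u (fun i => n * (X i / (n:ℤ)) + b i)‖)
      rw [hbcard] at this
      push_cast at this
      exact this
    have h3 : ∑ b ∈ bb, ‖lft d (2 * L) u X -
          lft d (2 * L) u (fun i => n * (X i / (n:ℤ)) + b i)‖ ^ 2 ≤
        ∑ c ∈ ibox d n, ‖lft d (2 * L) u X - lft d (2 * L) u (X + c)‖ ^ 2 := by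
      have himg : bb.image (fun b => fun i => b i - X i % (n:ℤ)) ⊆ ibox d n := by
        intro c hc
        rw [Finset.mem_image] at hc
        obtain ⟨b, hb, rfl⟩ := hc
        rw [hbb, Fintype.mem_piFinset] at hb
        rw [mem_ibox]
        intro i
        have h1 := Finset.mem_Ico.mp (hb i)
        have h2 := Int.emod_nonneg (X i) hnz.ne'
        have h3 := Int.emod_lt_of_pos (X i) hnz
        constructor <;> omega
      calc ∑ b ∈ bb, ‖lft d (2 * L) u X -
          lft d (2 * L) u (fun i => n * (X i / (n:ℤ)) + b i)‖ ^ 2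
          = ∑ c ∈ bb.image (fun b => fun i => b i - X i % (n:ℤ)),
              ‖lft d (2 * L) u X - lft d (2 * L) u (X + c)‖ ^ 2 := by
            rw [Finset.sum_image]
            · apply Finset.sum_congr rfl
              intro b _
              congr 4
              funext i
              simp only [Pi.add_apply]
              have := Int.mul_ediv_add_emod (X i) (n:ℤ)
              linarith
            · intro b _ b' _ hbb'
              funext i
              have := congrFun hbb' i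
              simp only at this
              linarith
        _ ≤ _ := Finset.sum_le_sum_of_subset_of_nonneg himg (fun _ _ _ => by positivity)
    calc ((n:ℝ) ^ d)⁻¹ ^ 2 * ‖∑ b ∈ bb, (lft d (2 * L) u X -
          lft d (2 * L) u (fun i => n * (X i / (n:ℤ)) + b i))‖ ^ 2
        ≤ ((n:ℝ) ^ d)⁻¹ ^ 2 * ((n:ℝ) ^ d * ∑ c ∈ ibox d n,
            ‖lft d (2 * L) u X - lft d (2 * L) u (X + c)‖ ^ 2) := by
          apply mul_le_mul_of_nonneg_left _ (by positivity)
          exact h2.trans (mul_le_mul_of_nonneg_left h3 hnd.le)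
      _ = _ := by
          field_simp
  calc ∑ X ∈ ibox d (n * B), ‖lft d (2 * L) u X - ((n:ℂ) ^ d)⁻¹ *
      ∑ b ∈ bb, lft d (2 * L) u (fun i => n * (X i / (n:ℤ)) + b i)‖ ^ 2
      ≤ ∑ X ∈ ibox d (n * B), ((n:ℝ) ^ d)⁻¹ * ∑ c ∈ ibox d n,
          ‖lft d (2 * L) u X - lft d (2 * L) u (X + c)‖ ^ 2 := Finset.sum_le_sum (fun X _ => hpt X)
    _ = ((n:ℝ) ^ d)⁻¹ * ∑ c ∈ ibox d n, ∑ X ∈ ibox d (n * B),
          ‖lft d (2 * L) u X - lft d (2 * L) u (X + c)‖ ^ 2 := by
        rw [← Finset.mul_sum, Finset.sum_comm]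
    _ ≤ ((n:ℝ) ^ d)⁻¹ * ∑ c ∈ ibox d n, ((n:ℝ) ^ 2 * d * en d (2 * L) u) := by
        apply mul_le_mul_of_nonneg_left _ (by positivity)
        apply Finset.sum_le_sum
        intro c hc
        rw [mem_ibox] at hc
        have h5 := sum_ibox_le d L (n * B) hB
          (fun x => ‖u (x + fun i => (c i : ZMod (2 * L))) - u x‖ ^ 2) (fun x => by positivity)
        refine le_trans (le_of_eq ?_) (h5.trans (shift_est d (2 * L) u c n (fun i => ?_)))
        · apply Finset.sum_congr rfl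
          intro X _
          rw [norm_sub_rev]
          congr 3
          unfold lft
          congr 1
          funext i
          simp
        · rw [abs_le]
          have := hc i
          omega
    _ = 2 ^ d * ((n : ℝ) ^ 2 * d * en d (2 * L) u) := by
        rw [Finset.sum_const, hncard, nsmul_eq_mul]
        push_cast
        rw [mul_pow]
        field_simp

end

end CE
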