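import Pool.Agent.H631.Defs

namespace CE

theorem tj_ge (j : ℕ) : 7 * Real.pi / 2 ≤ tj j := by
  unfold tj
  have hp := Real.pi_pos
  have : (0:ℝ) ≤ j := Nat.cast_nonneg j
  nlinarith [mul_nonneg hp.le this]

theorem one_sub_cos_ge {y : ℝ} (h0 : 0 ≤ y) (h1 : y ≤ 1/2) :
    8 * y ^ 2 ≤ 1 - Real.cos (2 * Real.pi * y) := by
  have hp := Real.pi_pos
  have h2 : Real.cos (2 * Real.pi * y) = 1 - 2 * Real.sin (Real.pi * y) ^ 2 := by
    have := Real.cos_two_mul (Real.pi * y)
    have h3 := Real.sin_sq_add_cos_sq (Real.pi * y)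
    have : Real.cos (2 * Real.pi * y) = 2 * Real.cos (Real.pi * y) ^ 2 - 1 := by
      rw [← this]; ring_nf
    rw [this]; linarith
  rw [h2]
  have h4 : 2 * y ≤ Real.sin (Real.pi * y) := by
    have := Real.mul_le_sin (x := Real.pi * y) (by positivity) (by nlinarith)
    have e : 2 / Real.pi * (Real.pi * y) = 2 * y := by field_simp
    rwa [e] at this
  nlinarith

theorem one_sub_cos_ge' {y : ℝ} (h0 : 1/2 ≤ y) (h1 : y ≤ 1) :
    8 * (1 - y) ^ 2 ≤ 1 - Real.cos (2 * Real.pi * y) := by
  have := one_sub_cos_ge (y := 1 - y) (by linarith) (by linarith)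
  have e : Real.cos (2 * Real.pi * (1 - y)) = Real.cos (2 * Real.pi * y) := by
    have : 2 * Real.pi * (1 - y) = 2 * Real.pi - 2 * Real.pi * y := by ring
    rw [this, Real.cos_two_pi_sub]
  rwa [e] at this

theorem abs_sin_sub_le {z : ℝ} (hz : 0 ≤ z) : |Real.sin z - z| ≤ z ^ 3 / 6 := by
  rw [abs_le]
  constructor
  · have := Real.sin_ge_sub_cube hz
    linarith
  · have := Real.sin_le hz
    have : 0 ≤ z ^ 3 / 6 := by positivity
    linarith

theorem sin_tj (j : ℕ) : Real.sin (tj j) = -1 := by
  unfold tj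
  have : 2 * Real.pi * ((j : ℝ) + 7/4) = (Real.pi + Real.pi / 2) + Real.pi * 2 + (j : ℕ) * (2 * Real.pi) := by
    ring
  rw [this, Real.sin_add_nat_mul_two_pi]
  have : Real.pi + Real.pi / 2 + Real.pi * 2 = Real.pi / 2 + Real.pi + 2 * Real.pi := by ring
  rw [this, Real.sin_add_two_pi, Real.sin_add_pi, Real.sin_pi_div_two]

/-- pointwise upper bound for `Ffun` (`K = log n / (2π)`) -/
theorem Ffun_le (n : ℕ) (hn : 1 ≤ n)
    (hanti : ∀ x : ℝ, 0 ≤ x → 0 ≤ ∑ j ∈ Finset.range n, gcoef n j * ((j : ℝ) + 7/4) *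
      Real.exp (-(2 * Real.pi * ((j : ℝ) + 7/4)) * x))
    (hpow : ∀ u : ℝ, 0 ≤ u → u ≤ 1 → gfun n u ≤ ((n : ℝ) * u) ^ (7/4 : ℝ))
    (htwo : ∀ u : ℝ, 0 ≤ u → u ≤ 1 → gfun n u ≤ 2) :
    ∃ C : ℝ, 0 ≤ C ∧ ∀ x y : ℝ, 0 ≤ x → 0 ≤ y → y ≤ 1 →
      Ffun n x y ≤ 3 * (if 1/2 ≤ y ∧ x ≤ 4 * (Real.log n / (2 * Real.pi)) then 1 else 0)
        + C * (Real.exp (-(2 * Real.pi * x)) * (1 - Real.cos (2 * Real.pi * y)))
        + 2 * Real.exp (-(Real.pi * (Real.log n / (2 * Real.pi)) / 2)) *
          (if 9/10 ≤ y then Real.exp (-(5 * Real.pi / 2 * x)) else 0) := by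
  have hp := Real.pi_pos
  set S0 : ℝ := ∑ j ∈ Finset.range n, |gcoef n j| with hS0
  set S1 : ℝ := ∑ j ∈ Finset.range n, |gcoef n j| * tj j with hS1
  set S3 : ℝ := ∑ j ∈ Finset.range n, |gcoef n j| * tj j ^ 3 with hS3
  have htj : ∀ j, 0 < tj j := fun j => lt_of_lt_of_le (by positivity) (tj_ge j)
  have hS0n : 0 ≤ S0 := Finset.sum_nonneg fun j _ => abs_nonneg _
  have hS1n : 0 ≤ S1 := Finset.sum_nonneg fun j _ => mul_nonneg (abs_nonneg _) (htj j).le
  have hS3n : 0 ≤ S3 := Finset.sum_nonneg fun j _ => mul_nonneg (abs_nonneg _) (pow_nonneg (htj j).le _)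
  set ε : ℝ := min (1/10) (1 / (1 + S1)) with hε
  have hεpos : 0 < ε := lt_min (by norm_num) (by positivity)
  have hε1 : ε ≤ 1/10 := min_le_left _ _
  have hε2 : ε * S1 ≤ 1 := by
    have : ε ≤ 1 / (1 + S1) := min_le_right _ _
    calc ε * S1 ≤ 1 / (1 + S1) * S1 := mul_le_mul_of_nonneg_right this hS1n
      _ = S1 / (1 + S1) := by ring
      _ ≤ 1 := by rw [div_le_one (by positivity)]; linarith
  set K : ℝ := Real.log n / (2 * Real.pi) with hK
  have hKn : 0 ≤ K := div_nonneg (Real.log_natCast_nonneg n) (by positivity)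
  refine ⟨S3 / 48 + S0 / (8 * ε ^ 2), by positivity, ?_⟩
  intro x y hx hy0 hy1
  have hexp : ∀ j, Real.exp (-(tj j * x)) ≤ Real.exp (-(2 * Real.pi * x)) := by
    intro j
    apply Real.exp_le_exp.mpr
    have := tj_ge j
    nlinarith
  have hexp2 : ∀ j, Real.exp (-(tj j * x)) ≤ Real.exp (-(7 * Real.pi / 2 * x)) := by
    intro j
    apply Real.exp_le_exp.mpr
    have := tj_ge j
    nlinarith
  have hcosn : 0 ≤ 1 - Real.cos (2 * Real.pi * y) := by
    have := Real.cos_le_one (2 * Real.pi * y)
    linarith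
  have hEn : 0 < Real.exp (-(2 * Real.pi * x)) := Real.exp_pos _
  have hind1 : (0:ℝ) ≤ 3 * (if 1/2 ≤ y ∧ x ≤ 4 * K then 1 else 0) := by
    split_ifs <;> norm_num
  have hind2 : 0 ≤ 2 * Real.exp (-(Real.pi * K / 2)) *
      (if 9/10 ≤ y then Real.exp (-(5 * Real.pi / 2 * x)) else 0) := by
    split_ifs
    · positivity
    · simp
  have hS0' : 0 ≤ S0 / (8 * ε ^ 2) * (Real.exp (-(2 * Real.pi * x)) * (1 - Real.cos (2 * Real.pi * y))) := by
    positivity
  have hS3' : 0 ≤ S3 / 48 * (Real.exp (-(2 * Real.pi * x)) * (1 - Real.cos (2 * Real.pi * y))) := by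
    positivity
  rcases le_total y (1/2) with hya | hya
  · -- case (a)
    have h1 : Ffun n x y ≤ Real.exp (-(2 * Real.pi * x)) * (S3 * y ^ 3 / 6) := by
      have e1 : Ffun n x y = - y * (2 * Real.pi) * (∑ j ∈ Finset.range n, gcoef n j * ((j : ℝ) + 7/4) *
          Real.exp (-(2 * Real.pi * ((j : ℝ) + 7/4)) * x))
          + ∑ j ∈ Finset.range n, gcoef n j * Real.exp (-(tj j * x)) * (tj j * y - Real.sin (tj j * y)) := by
        unfold Ffun
        rw [Finset.mul_sum, ← Finset.sum_add_distrib, ← Finset.sum_neg_distrib]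
        apply Finset.sum_congr rfl
        intro j _
        have : Real.exp (-(2 * Real.pi * ((j : ℝ) + 7/4)) * x) = Real.exp (-(tj j * x)) := by
          unfold tj; ring_nf
        rw [this]
        unfold tj
        ring
      rw [e1]
      have h2 : - y * (2 * Real.pi) * (∑ j ∈ Finset.range n, gcoef n j * ((j : ℝ) + 7/4) *
          Real.exp (-(2 * Real.pi * ((j : ℝ) + 7/4)) * x)) ≤ 0 := by
        have := hanti x hx
        have h3 : 0 ≤ y * (2 * Real.pi) := by positivity
        nlinarith [mul_nonneg h3 this]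
      have h3 : ∑ j ∈ Finset.range n, gcoef n j * Real.exp (-(tj j * x)) * (tj j * y - Real.sin (tj j * y))
          ≤ Real.exp (-(2 * Real.pi * x)) * (S3 * y ^ 3 / 6) := by
        have e2 : Real.exp (-(2 * Real.pi * x)) * (S3 * y ^ 3 / 6)
            = ∑ j ∈ Finset.range n, |gcoef n j| * Real.exp (-(2 * Real.pi * x)) * ((tj j * y) ^ 3 / 6) := by
          rw [hS3, Finset.sum_mul, Finset.sum_div, Finset.mul_sum]
          apply Finset.sum_congr rfl
          intro j _
          ring
        rw [e2]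
        apply Finset.sum_le_sum
        intro j _
        have hz : 0 ≤ tj j * y := mul_nonneg (htj j).le hy0
        have h4 := abs_sin_sub_le hz
        calc gcoef n j * Real.exp (-(tj j * x)) * (tj j * y - Real.sin (tj j * y))
            ≤ |gcoef n j * Real.exp (-(tj j * x)) * (tj j * y - Real.sin (tj j * y))| := le_abs_self _
          _ = |gcoef n j| * Real.exp (-(tj j * x)) * |Real.sin (tj j * y) - tj j * y| := by
              rw [abs_mul, abs_mul, Real.abs_exp, abs_sub_comm]
          _ ≤ |gcoef n j| * Real.exp (-(2 * Real.pi * x)) * ((tj j * y) ^ 3 / 6) := by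
              apply mul_le_mul _ h4 (abs_nonneg _) (by positivity)
              exact mul_le_mul_of_nonneg_left (hexp j) (abs_nonneg _)
      linarith
    have h5 := one_sub_cos_ge hy0 hya
    have h6 : Real.exp (-(2 * Real.pi * x)) * (S3 * y ^ 3 / 6) ≤
        S3 / 48 * (Real.exp (-(2 * Real.pi * x)) * (1 - Real.cos (2 * Real.pi * y))) := by
      have h7 : S3 * y ^ 3 / 6 ≤ S3 / 48 * (1 - Real.cos (2 * Real.pi * y)) := by
        have h8 : y ^ 3 ≤ y ^ 2 := by nlinarith [sq_nonneg y]
        have h9 : S3 * y ^ 3 ≤ S3 * y ^ 2 := mul_le_mul_of_nonneg_left h8 hS3n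
        have h10 : S3 * (8 * y ^ 2) ≤ S3 * (1 - Real.cos (2 * Real.pi * y)) :=
          mul_le_mul_of_nonneg_left h5 hS3n
        linarith
      calc Real.exp (-(2 * Real.pi * x)) * (S3 * y ^ 3 / 6)
          ≤ Real.exp (-(2 * Real.pi * x)) * (S3 / 48 * (1 - Real.cos (2 * Real.pi * y))) :=
            mul_le_mul_of_nonneg_left h7 hEn.le
        _ = _ := by ring
    have : (S3 / 48 + S0 / (8 * ε ^ 2)) * (Real.exp (-(2 * Real.pi * x)) * (1 - Real.cos (2 * Real.pi * y)))
      = S3 / 48 * (Real.exp (-(2 * Real.pi * x)) * (1 - Real.cos (2 * Real.pi * y)))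
        + S0 / (8 * ε ^ 2) * (Real.exp (-(2 * Real.pi * x)) * (1 - Real.cos (2 * Real.pi * y))) := by ring
    rw [this]
    linarith
  rcases le_total y (1 - ε) with hyb | hyb
  · -- case (b)
    have h1 : Ffun n x y ≤ S0 * Real.exp (-(2 * Real.pi * x)) := by
      unfold Ffun
      rw [← Finset.sum_neg_distrib, hS0, Finset.sum_mul]
      apply Finset.sum_le_sum
      intro j _
      calc -(gcoef n j * Real.exp (-(tj j * x)) * Real.sin (tj j * y))
          ≤ |gcoef n j * Real.exp (-(tj j * x)) * Real.sin (tj j * y)| := neg_le_abs _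
        _ = |gcoef n j| * Real.exp (-(tj j * x)) * |Real.sin (tj j * y)| := by
            rw [abs_mul, abs_mul, Real.abs_exp]
        _ ≤ |gcoef n j| * Real.exp (-(2 * Real.pi * x)) * 1 := by
            apply mul_le_mul _ (Real.abs_sin_le_one _) (abs_nonneg _) (by positivity)
            exact mul_le_mul_of_nonneg_left (hexp j) (abs_nonneg _)
        _ = _ := by ring
    have h5 := one_sub_cos_ge' hya hy1
    have h6 : S0 * Real.exp (-(2 * Real.pi * x)) ≤
        S0 / (8 * ε ^ 2) * (Real.exp (-(2 * Real.pi * x)) * (1 - Real.cos (2 * Real.pi * y))) := by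
      have h7 : 8 * ε ^ 2 ≤ 1 - Real.cos (2 * Real.pi * y) := by
        have : ε ^ 2 ≤ (1 - y) ^ 2 := by
          apply pow_le_pow_left₀ hεpos.le
          linarith
        linarith
      have h8 : S0 / (8 * ε ^ 2) * (Real.exp (-(2 * Real.pi * x)) * (1 - Real.cos (2 * Real.pi * y)))
          = S0 * Real.exp (-(2 * Real.pi * x)) * ((1 - Real.cos (2 * Real.pi * y)) / (8 * ε ^ 2)) := by
        field_simp
      rw [h8]
      have h9 : 1 ≤ (1 - Real.cos (2 * Real.pi * y)) / (8 * ε ^ 2) := by
        rw [one_le_div (by positivity)]; exact h7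
      have h10 : 0 ≤ S0 * Real.exp (-(2 * Real.pi * x)) := by positivity
      nlinarith
    have : (S3 / 48 + S0 / (8 * ε ^ 2)) * (Real.exp (-(2 * Real.pi * x)) * (1 - Real.cos (2 * Real.pi * y)))
      = S3 / 48 * (Real.exp (-(2 * Real.pi * x)) * (1 - Real.cos (2 * Real.pi * y)))
        + S0 / (8 * ε ^ 2) * (Real.exp (-(2 * Real.pi * x)) * (1 - Real.cos (2 * Real.pi * y))) := by ring
    rw [this]
    linarith
  · -- case (c)
    have hy9 : 9/10 ≤ y := by linarith
    have h1 : Ffun n x y ≤ gfun n (Real.exp (-(2 * Real.pi * x))) + Real.exp (-(7 * Real.pi / 2 * x)) := by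
      have e1 : gfun n (Real.exp (-(2 * Real.pi * x)))
          = ∑ j ∈ Finset.range n, gcoef n j * Real.exp (-(tj j * x)) := by
        unfold gfun
        apply Finset.sum_congr rfl
        intro j _
        rw [← Real.exp_mul]
        unfold tj
        ring_nf
      have e2 : Ffun n x y = ∑ j ∈ Finset.range n, gcoef n j * Real.exp (-(tj j * x))
          + ∑ j ∈ Finset.range n, gcoef n j * Real.exp (-(tj j * x)) * (Real.sin (tj j) - Real.sin (tj j * y)) := by
        unfold Ffun
        rw [← Finset.sum_add_distrib, ← Finset.sum_neg_distrib]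
        apply Finset.sum_congr rfl
        intro j _
        rw [sin_tj]
        ring
      rw [e2, e1]
      have h2 : ∑ j ∈ Finset.range n, gcoef n j * Real.exp (-(tj j * x)) * (Real.sin (tj j) - Real.sin (tj j * y))
          ≤ Real.exp (-(7 * Real.pi / 2 * x)) := by
        calc _ ≤ ∑ j ∈ Finset.range n, |gcoef n j| * tj j * (ε * Real.exp (-(7 * Real.pi / 2 * x))) := by
              apply Finset.sum_le_sum
              intro j _
              have h3 : |Real.sin (tj j) - Real.sin (tj j * y)| ≤ tj j * ε := by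
                have h4 : |Real.sin (tj j) - Real.sin (tj j * y)| ≤ |tj j - tj j * y| :=
                  Real.abs_sin_sub_sin_le _ _
                refine h4.trans ?_
                have h5 : tj j - tj j * y = tj j * (1 - y) := by ring
                rw [h5, abs_of_nonneg (mul_nonneg (htj j).le (by linarith))]
                exact mul_le_mul_of_nonneg_left (by linarith) (htj j).le
              calc gcoef n j * Real.exp (-(tj j * x)) * (Real.sin (tj j) - Real.sin (tj j * y))
                  ≤ |gcoef n j * Real.exp (-(tj j * x)) * (Real.sin (tj j) - Real.sin (tj j * y))| :=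
                    le_abs_self _
                _ = |gcoef n j| * Real.exp (-(tj j * x)) * |Real.sin (tj j) - Real.sin (tj j * y)| := by
                    rw [abs_mul, abs_mul, Real.abs_exp]
                _ ≤ |gcoef n j| * Real.exp (-(7 * Real.pi / 2 * x)) * (tj j * ε) := by
                    apply mul_le_mul _ h3 (abs_nonneg _) (by positivity)
                    exact mul_le_mul_of_nonneg_left (hexp2 j) (abs_nonneg _)
                _ = _ := by ring
          _ = S1 * (ε * Real.exp (-(7 * Real.pi / 2 * x))) := by rw [← Finset.sum_mul]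
          _ = (ε * S1) * Real.exp (-(7 * Real.pi / 2 * x)) := by ring
          _ ≤ 1 * Real.exp (-(7 * Real.pi / 2 * x)) :=
              mul_le_mul_of_nonneg_right hε2 (Real.exp_pos _).le
          _ = _ := one_mul _
      linarith
    have hE0 : 0 ≤ Real.exp (-(2 * Real.pi * x)) := (Real.exp_pos _).le
    have hE1 : Real.exp (-(2 * Real.pi * x)) ≤ 1 := by
      rw [Real.exp_le_one_iff]
      have : 0 ≤ 2 * Real.pi * x := by positivity
      linarith
    have hCn : 0 ≤ (S3 / 48 + S0 / (8 * ε ^ 2)) *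
        (Real.exp (-(2 * Real.pi * x)) * (1 - Real.cos (2 * Real.pi * y))) := by positivity
    by_cases hxK : x ≤ 4 * K
    · rw [if_pos ⟨hya, hxK⟩]
      have h2 := htwo _ hE0 hE1
      have h3 : Real.exp (-(7 * Real.pi / 2 * x)) ≤ 1 := by
        rw [Real.exp_le_one_iff]
        have : 0 ≤ 7 * Real.pi / 2 * x := by positivity
        linarith
      linarith
    · rw [if_neg (fun h => hxK h.2), if_pos hy9]
      push Not at hxK
      have h2 := hpow _ hE0 hE1
      have hnpos : (0:ℝ) < n := by exact_mod_cast hn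
      have h3 : ((n : ℝ) * Real.exp (-(2 * Real.pi * x))) ^ (7/4 : ℝ)
          = Real.exp (7 * Real.pi / 2 * (K - x)) := by
        have e3 : (n : ℝ) = Real.exp (2 * Real.pi * K) := by
          rw [hK, mul_div_cancel₀ _ (by positivity : (2 * Real.pi) ≠ 0), Real.exp_log hnpos]
        rw [e3, ← Real.exp_add, ← Real.exp_mul]
        congr 1
        ring
      rw [h3] at h2
      have h4 : Real.exp (7 * Real.pi / 2 * (K - x)) ≤
          Real.exp (-(Real.pi * K / 2)) * Real.exp (-(5 * Real.pi / 2 * x)) := by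
        rw [← Real.exp_add]
        apply Real.exp_le_exp.mpr
        nlinarith
      have h5 : Real.exp (-(7 * Real.pi / 2 * x)) ≤
          Real.exp (-(Real.pi * K / 2)) * Real.exp (-(5 * Real.pi / 2 * x)) := by
        rw [← Real.exp_add]
        apply Real.exp_le_exp.mpr
        nlinarith
      linarith

/-- pointwise bound behind the a-priori upper estimate -/
theorem upper_pt (x y : ℝ) (hx : 0 ≤ x) (hy0 : 0 ≤ y) (hy1 : y ≤ 1) :
    (if 9/10 ≤ y then Real.exp (-(5 * Real.pi / 2 * x)) else 0) ≤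
      2 * (Real.exp (-(5 * Real.pi / 2 * x)) * Real.sin (5 * Real.pi / 2 * y)
        + 2 * (Real.exp (-(2 * Real.pi * x)) * (1 - Real.cos (2 * Real.pi * y)))) := by
  have hp := Real.pi_pos
  have hE1 : 0 < Real.exp (-(5 * Real.pi / 2 * x)) := Real.exp_pos _
  have hE2 : 0 < Real.exp (-(2 * Real.pi * x)) := Real.exp_pos _
  have hE12 : Real.exp (-(5 * Real.pi / 2 * x)) ≤ Real.exp (-(2 * Real.pi * x)) := by
    apply Real.exp_le_exp.mpr
    nlinarith
  have hcosn : 0 ≤ 1 - Real.cos (2 * Real.pi * y) := by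
    have := Real.cos_le_one (2 * Real.pi * y)
    linarith
  have hpos : 0 ≤ Real.exp (-(2 * Real.pi * x)) * (1 - Real.cos (2 * Real.pi * y)) := by positivity
  split_ifs with h9
  · have h1 : 1/2 ≤ Real.sin (5 * Real.pi / 2 * y) := by
      have e : Real.sin (5 * Real.pi / 2 * y) = Real.cos (5 * Real.pi / 2 * (1 - y)) := by
        have : 5 * Real.pi / 2 * y = (Real.pi / 2 - 5 * Real.pi / 2 * (1 - y)) + 2 * Real.pi := by ring
        rw [this, Real.sin_add_two_pi, Real.sin_pi_div_two_sub]
      rw [e, ← Real.cos_pi_div_three]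
      apply Real.cos_le_cos_of_nonneg_of_le_pi
      · have : 0 ≤ 1 - y := by linarith
        positivity
      · linarith
      · nlinarith
    nlinarith
  · push Not at h9
    rcases le_total y (1/6) with ha | ha
    · have h1 : 0 ≤ Real.sin (5 * Real.pi / 2 * y) := by
        apply Real.sin_nonneg_of_nonneg_of_le_pi
        · positivity
        · nlinarith
      positivity
    rcases le_total y (5/6) with hb | hb
    · have h1 : Real.cos (2 * Real.pi * y) ≤ 1/2 := by
        rcases le_total y (1/2) with hc | hc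
        · rw [← Real.cos_pi_div_three]
          apply Real.cos_le_cos_of_nonneg_of_le_pi
          · positivity
          · nlinarith
          · nlinarith
        · have e : Real.cos (2 * Real.pi * y) = Real.cos (2 * Real.pi * (1 - y)) := by
            have : 2 * Real.pi * (1 - y) = 2 * Real.pi - 2 * Real.pi * y := by ring
            rw [this, Real.cos_two_pi_sub]
          rw [e, ← Real.cos_pi_div_three]
          apply Real.cos_le_cos_of_nonneg_of_le_pi
          · positivity
          · nlinarith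
          · nlinarith
      have h2 := Real.neg_one_le_sin (5 * Real.pi / 2 * y)
      nlinarith
    · have h1 : 0 ≤ Real.sin (5 * Real.pi / 2 * y) := by
        have : 5 * Real.pi / 2 * y = (5 * Real.pi / 2 * y - 2 * Real.pi) + 2 * Real.pi := by ring
        rw [this, Real.sin_add_two_pi]
        apply Real.sin_nonneg_of_nonneg_of_le_pi
        · nlinarith
        · nlinarith
      positivity

end CE
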