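import Pool.Agent.H631.Defs

open Finset Matrix

namespace CE

noncomputable section

theorem lap_apply (d M : ℕ) [NeZero M] (c : ℝ) (u : Tor d M → ℂ) (x : Tor d M) :
    ∑ y, (lapM d M c x y : ℂ) * u y =
      (c : ℂ) * ∑ i : Fin d, (2 * u x - u (x + Pi.single i 1) - u (x - Pi.single i 1)) := by
  have h1 : ∀ y, (lapM d M c x y : ℂ) * u y = ∑ i : Fin d, (c : ℂ) *
      ((if y = x then 2 * u y else 0) - (if y = x + Pi.single i 1 then u y else 0)
    - (if y = x - Pi.single i 1 then u y else 0)) := by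
    intro y
    unfold lapM
    push_cast
    rw [mul_assoc, Finset.sum_mul, Finset.mul_sum]
    apply Finset.sum_congr rfl
    intro i _
    congr 1
    split_ifs <;> push_cast <;> ring
  rw [Finset.sum_congr rfl (fun y _ => h1 y), Finset.sum_comm, Finset.mul_sum]
  apply Finset.sum_congr rfl
  intro i _
  rw [← Finset.mul_sum]
  congr 1
  rw [Finset.sum_sub_distrib, Finset.sum_sub_distrib]
  simp

theorem bilin (d M : ℕ) [NeZero M] (c : ℝ) (a w : Tor d M → ℂ) :
    ∑ x, (starRingEnd ℂ) (a x) * ∑ y, (lapM d M c x y : ℂ) * w y =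
      (c : ℂ) * ∑ i : Fin d, ∑ x, (starRingEnd ℂ) (a (x + Pi.single i 1) - a x) *
        (w (x + Pi.single i 1) - w x) := by
  have h1 : ∀ x, (starRingEnd ℂ) (a x) * ∑ y, (lapM d M c x y : ℂ) * w y =
      ∑ i : Fin d, (c : ℂ) * ((starRingEnd ℂ) (a x) * (w x - w (x + Pi.single i 1)) +
        (starRingEnd ℂ) (a x) * (w x - w (x - Pi.single i 1))) := by
    intro x
    rw [lap_apply, Finset.mul_sum, Finset.mul_sum]
    apply Finset.sum_congr rfl
    intro i _
    ring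
  rw [Finset.sum_congr rfl (fun x _ => h1 x), Finset.sum_comm, Finset.mul_sum]
  apply Finset.sum_congr rfl
  intro i _
  rw [← Finset.mul_sum]
  congr 1
  rw [Finset.sum_add_distrib]
  have h2 := Equiv.sum_comp (Equiv.addRight (Pi.single i 1 : Tor d M))
    (fun x => (starRingEnd ℂ) (a x) * (w x - w (x - Pi.single i 1)))
  simp only [Equiv.coe_addRight, add_sub_cancel_right] at h2
  rw [← h2, ← Finset.sum_add_distrib]
  apply Finset.sum_congr rfl
  intro x _
  rw [map_sub]; ring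

theorem energy_eq (d M : ℕ) [NeZero M] (c : ℝ) (u : Tor d M → ℂ) :
    ∑ x, (starRingEnd ℂ) (u x) * ∑ y, (lapM d M c x y : ℂ) * u y = ((c * en d M u : ℝ) : ℂ) := by
  rw [bilin]
  unfold en
  push_cast
  congr 1
  apply Finset.sum_congr rfl
  intro i _
  apply Finset.sum_congr rfl
  intro x _
  rw [← Complex.conj_mul']

theorem cs2 {d M : ℕ} [NeZero M] (f g : Fin d → Tor d M → ℝ) :
    ∑ i, ∑ x, f i x * g i x ≤ Real.sqrt (∑ i, ∑ x, f i x ^ 2) * Real.sqrt (∑ i, ∑ x, g i x ^ 2) := by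
  have := Real.sum_mul_le_sqrt_mul_sqrt (Finset.univ (α := Fin d × Tor d M))
    (fun p => f p.1 p.2) (fun p => g p.1 p.2)
  rwa [Fintype.sum_prod_type, Fintype.sum_prod_type, Fintype.sum_prod_type] at this

theorem cross_le (d M : ℕ) [NeZero M] (c : ℝ) (hc : 0 ≤ c) (u w : Tor d M → ℂ) :
    ‖∑ x, (starRingEnd ℂ) (u x) * ∑ y, (lapM d M c x y : ℂ) * w y‖ ≤
      c * (Real.sqrt (en d M u) * Real.sqrt (en d M w)) := by
  rw [bilin, norm_mul, Complex.norm_real, Real.norm_of_nonneg hc]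
  apply mul_le_mul_of_nonneg_left _ hc
  refine le_trans ?_ (cs2 (fun i x => ‖u (x + Pi.single i 1) - u x‖)
    (fun i x => ‖w (x + Pi.single i 1) - w x‖))
  refine (norm_sum_le _ _).trans (Finset.sum_le_sum fun i _ => ?_)
  refine (norm_sum_le _ _).trans (Finset.sum_le_sum fun x _ => ?_)
  rw [norm_mul, Complex.norm_conj]

theorem commutator (d M : ℕ) [NeZero M] (c : ℝ) (hc : 0 ≤ c) (χ : Tor d M → ℝ) (L : ℝ)
    (hL0 : 0 ≤ L) (h0 : ∀ x, 0 ≤ χ x) (h1 : ∀ x, χ x ≤ 1)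
    (hL : ∀ x, ∀ i : Fin d, |χ (x + Pi.single i 1) - χ x| ≤ L) (u : Tor d M → ℂ) :
    |(∑ x, ((χ x : ℂ) ^ 2 * (starRingEnd ℂ) (u x)) * ∑ y, (lapM d M c x y : ℂ) * u y).im| ≤
      2 * c * L * Real.sqrt d * (Real.sqrt (∑ x, ‖u x‖ ^ 2) * Real.sqrt (en d M u)) := by
  have hb := bilin d M c (fun x => (χ x : ℂ) ^ 2 * u x) u
  have e1 : ∀ x, (starRingEnd ℂ) ((χ x : ℂ) ^ 2 * u x) = (χ x : ℂ) ^ 2 * (starRingEnd ℂ) (u x) := by
    intro x
    rw [map_mul, map_pow, Complex.conj_ofReal]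
  simp only [map_sub, e1] at hb
  rw [hb, Complex.im_ofReal_mul, abs_mul, abs_of_nonneg hc,
    Complex.im_sum]
  have hterm : ∀ (i : Fin d) (x : Tor d M),
      |(((χ (x + Pi.single i 1) : ℂ) ^ 2 * (starRingEnd ℂ) (u (x + Pi.single i 1)) -
        (χ x : ℂ) ^ 2 * (starRingEnd ℂ) (u x)) * (u (x + Pi.single i 1) - u x)).im| ≤
      (2 * L) * (‖u x‖ * ‖u (x + Pi.single i 1) - u x‖) := by
    intro i x
    set y := x + Pi.single i 1 with hy
    have e2 : (((χ y : ℂ) ^ 2 * (starRingEnd ℂ) (u y) -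
        (χ x : ℂ) ^ 2 * (starRingEnd ℂ) (u x)) * (u y - u x)).im =
        ((χ y - χ x) * (χ y + χ x)) * ((starRingEnd ℂ) (u x) * (u y - u x)).im := by
      have h2 : ∀ r : ℝ, ((r : ℂ) ^ 2) = ((r ^ 2 : ℝ) : ℂ) := by intro r; push_cast; ring
      rw [h2, h2]
      simp only [Complex.mul_im, Complex.sub_re, Complex.sub_im, Complex.mul_re, Complex.ofReal_re,
        Complex.ofReal_im, Complex.conj_re, Complex.conj_im]
      ring
    rw [e2, abs_mul, abs_mul]
    have h3 : |χ y + χ x| ≤ 2 := by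
      rw [abs_of_nonneg (add_nonneg (h0 _) (h0 _))]
      have := h1 y; have := h1 x; linarith
    have h4 : |((starRingEnd ℂ) (u x) * (u y - u x)).im| ≤ ‖u x‖ * ‖u y - u x‖ := by
      refine (Complex.abs_im_le_norm _).trans ?_
      rw [norm_mul, Complex.norm_conj]
    have h5 : |χ y - χ x| * |χ y + χ x| ≤ 2 * L := by
      have := mul_le_mul (hL x i) h3 (abs_nonneg _) hL0
      linarith
    exact mul_le_mul h5 h4 (abs_nonneg _) (by linarith)
  have hsum : |∑ i : Fin d, (∑ x, ((χ (x + Pi.single i 1) : ℂ) ^ 2 *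
        (starRingEnd ℂ) (u (x + Pi.single i 1)) -
        (χ x : ℂ) ^ 2 * (starRingEnd ℂ) (u x)) * (u (x + Pi.single i 1) - u x)).im| ≤
      (2 * L) * (Real.sqrt d * (Real.sqrt (∑ x, ‖u x‖ ^ 2) * Real.sqrt (en d M u))) := by
    calc _ ≤ ∑ i : Fin d, ∑ x, (2 * L) * (‖u x‖ * ‖u (x + Pi.single i 1) - u x‖) := by
          refine (Finset.abs_sum_le_sum_abs _ _).trans (Finset.sum_le_sum fun i _ => ?_)
          rw [Complex.im_sum]
          refine (Finset.abs_sum_le_sum_abs _ _).trans (Finset.sum_le_sum fun x _ => ?_)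
          exact hterm i x
      _ = (2 * L) * ∑ i : Fin d, ∑ x, (‖u x‖ * ‖u (x + Pi.single i 1) - u x‖) := by
          rw [Finset.mul_sum]
          apply Finset.sum_congr rfl
          intro i _
          rw [Finset.mul_sum]
      _ ≤ (2 * L) * (Real.sqrt (∑ i : Fin d, ∑ x, ‖u x‖ ^ 2) * Real.sqrt (en d M u)) := by
          apply mul_le_mul_of_nonneg_left _ (by linarith)
          exact cs2 (fun _ x => ‖u x‖) (fun i x => ‖u (x + Pi.single i 1) - u x‖)
      _ = _ := by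
          rw [Finset.sum_const, card_univ, Fintype.card_fin, nsmul_eq_mul,
            Real.sqrt_mul (Nat.cast_nonneg d)]
          ring
  calc _ ≤ c * ((2 * L) * (Real.sqrt d * (Real.sqrt (∑ x, ‖u x‖ ^ 2) * Real.sqrt (en d M u)))) :=
        mul_le_mul_of_nonneg_left hsum hc
    _ = _ := by ring

end

end CE
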