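import Pool.Agent.H631.Defs

namespace CE

lemma gsum (n : ℕ) (hn : 1 ≤ n) (v W : ℝ) :
    ∑ j ∈ Finset.range n, gcoef n j * ((j : ℝ) + 7/4) * (v ^ j * W) =
      (n : ℝ) ^ (7/4 : ℝ) * W * (1 - v) ^ (n - 1) := by
  obtain ⟨m, rfl⟩ : ∃ m, n = m + 1 := ⟨n - 1, by omega⟩
  have h : (1 - v) ^ (m + 1 - 1) = ∑ j ∈ Finset.range (m + 1), (-1) ^ j * (m.choose j : ℝ) * v ^ j := by
    have e : (1 - v) = (-v) + 1 := by ring
    rw [e, Nat.add_sub_cancel, add_pow]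
    apply Finset.sum_congr rfl
    intro j _
    rw [one_pow, mul_one, neg_pow]
    ring
  rw [h, Finset.mul_sum]
  apply Finset.sum_congr rfl
  intro j _
  have hj : (j : ℝ) + 7/4 ≠ 0 := by positivity
  unfold gcoef
  rw [Nat.add_sub_cancel, div_mul_cancel₀ _ hj]
  ring

/-- derivative in `x` of `gfun n (exp (-2πx))` has a sign -/
theorem gfun_antitone_exp (n : ℕ) (hn : 1 ≤ n) (x : ℝ) (hx : 0 ≤ x) :
    0 ≤ ∑ j ∈ Finset.range n, gcoef n j * ((j : ℝ) + 7/4) *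
      Real.exp (-(2 * Real.pi * ((j : ℝ) + 7/4)) * x) := by
  have h : ∀ j ∈ Finset.range n, gcoef n j * ((j : ℝ) + 7/4) *
      Real.exp (-(2 * Real.pi * ((j : ℝ) + 7/4)) * x) = gcoef n j * ((j : ℝ) + 7/4) *
      (Real.exp (-(2 * Real.pi * x)) ^ j * Real.exp (-(2 * Real.pi * x) * (7/4))) := by
    intro j _
    rw [← Real.exp_nat_mul, ← Real.exp_add]
    congr 2
    ring
  rw [Finset.sum_congr rfl h, gsum n hn]
  have h1 : Real.exp (-(2 * Real.pi * x)) ≤ 1 := by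
    rw [Real.exp_le_one_iff]
    have := Real.pi_pos
    have : 0 ≤ 2 * Real.pi * x := by positivity
    linarith
  have h2 : 0 ≤ (1 - Real.exp (-(2 * Real.pi * x))) ^ (n - 1) := pow_nonneg (by linarith) _
  positivity

noncomputable def wd (n : ℕ) (u : ℝ) : ℝ :=
  ∑ j ∈ Finset.range n, gcoef n j * (((j : ℝ) + 7/4) * u ^ ((j : ℝ) + 7/4 - 1))

lemma gfun_hasDeriv (n : ℕ) (u : ℝ) : HasDerivAt (gfun n) (wd n u) u := by
  unfold gfun wd
  apply HasDerivAt.fun_sum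
  intro j _
  apply HasDerivAt.const_mul
  apply Real.hasDerivAt_rpow_const
  right
  have : (0 : ℝ) ≤ j := Nat.cast_nonneg j
  linarith

lemma wd_eq (n : ℕ) (hn : 1 ≤ n) (u : ℝ) (hu : 0 ≤ u) :
    wd n u = (n : ℝ) ^ (7/4 : ℝ) * u ^ (3/4 : ℝ) * (1 - u) ^ (n - 1) := by
  rw [← gsum n hn]
  unfold wd
  apply Finset.sum_congr rfl
  intro j _
  have e : (j : ℝ) + 7/4 - 1 = j + 3/4 := by ring
  rw [e, Real.rpow_add_of_nonneg hu (Nat.cast_nonneg j) (by norm_num), Real.rpow_natCast]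
  ring

lemma gfun_zero (n : ℕ) : gfun n 0 = 0 := by
  unfold gfun
  apply Finset.sum_eq_zero
  intro j _
  rw [Real.zero_rpow (by positivity), mul_zero]

lemma cmp (F G F' G' : ℝ → ℝ) (a b : ℝ) (hab : a ≤ b) (hF : ∀ t, HasDerivAt F (F' t) t)
    (hG : ∀ t, HasDerivAt G (G' t) t) (h : ∀ t ∈ Set.Ioo a b, F' t ≤ G' t) :
    F b - F a ≤ G b - G a := by
  have hd : ∀ t, HasDerivAt (fun t => G t - F t) (G' t - F' t) t := fun t => (hG t).sub (hF t)
  have hm : MonotoneOn (fun t => G t - F t) (Set.Icc a b) := by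
    apply monotoneOn_of_deriv_nonneg (convex_Icc a b)
    · exact fun t _ => (hd t).continuousAt.continuousWithinAt
    · exact fun t _ => (hd t).differentiableAt.differentiableWithinAt
    · intro t ht
      rw [interior_Icc] at ht
      rw [(hd t).deriv]
      linarith [h t ht]
  have := hm (Set.left_mem_Icc.2 hab) (Set.right_mem_Icc.2 hab) hab
  linarith

lemma pow_deriv (k : ℝ) (t : ℝ) : HasDerivAt (fun t : ℝ => k * t ^ (7/4 : ℝ))
    (k * (7/4 * t ^ (3/4 : ℝ))) t := by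
  apply HasDerivAt.const_mul
  have := Real.hasDerivAt_rpow_const (x := t) (p := 7/4) (Or.inr (by norm_num))
  have e : (7/4 : ℝ) - 1 = 3/4 := by norm_num
  rwa [e] at this

theorem gfun_le_pow (n : ℕ) (hn : 1 ≤ n) (u : ℝ) (h0 : 0 ≤ u) (h1 : u ≤ 1) :
    gfun n u ≤ ((n : ℝ) * u) ^ (7/4 : ℝ) := by
  have h := cmp (gfun n) (fun t => (n : ℝ) ^ (7/4 : ℝ) * t ^ (7/4 : ℝ)) (wd n)
    (fun t => (n : ℝ) ^ (7/4 : ℝ) * (7/4 * t ^ (3/4 : ℝ))) 0 u h0 (gfun_hasDeriv n)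
    (pow_deriv _) (by
      intro t ht
      rw [wd_eq n hn t ht.1.le]
      have hc : 0 ≤ (n : ℝ) ^ (7/4 : ℝ) := by positivity
      have ht' : 0 ≤ t ^ (3/4 : ℝ) := Real.rpow_nonneg ht.1.le _
      have hp : (1 - t) ^ (n - 1) ≤ 1 := pow_le_one₀ (by linarith [ht.2]) (by linarith [ht.1])
      have h2 : 0 ≤ (n : ℝ) ^ (7/4 : ℝ) * t ^ (3/4 : ℝ) := mul_nonneg hc ht'
      nlinarith)
  rw [gfun_zero] at h
  rw [Real.zero_rpow (by norm_num), mul_zero, sub_zero, sub_zero] at h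
  rw [Real.mul_rpow (Nat.cast_nonneg n) h0]
  exact h

lemma wd_nonneg (n : ℕ) (hn : 1 ≤ n) (t : ℝ) (h0 : 0 ≤ t) (h1 : t ≤ 1) : 0 ≤ wd n t := by
  rw [wd_eq n hn t h0]
  have ht' : 0 ≤ t ^ (3/4 : ℝ) := Real.rpow_nonneg h0 _
  have hp : 0 ≤ (1 - t) ^ (n - 1) := pow_nonneg (by linarith) _
  positivity

lemma gfun_mono (n : ℕ) (hn : 1 ≤ n) (a b : ℝ) (h0 : 0 ≤ a) (hab : a ≤ b) (h1 : b ≤ 1) :
    gfun n a ≤ gfun n b := by
  have h := cmp (fun _ => 0) (gfun n) (fun _ => 0) (wd n) a b hab (fun t => hasDerivAt_const t 0)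
    (gfun_hasDeriv n) (fun t ht => wd_nonneg n hn t (by linarith [ht.1]) (by linarith [ht.2]))
  simp only [sub_self] at h
  linarith

theorem gfun_nonneg (n : ℕ) (hn : 1 ≤ n) (u : ℝ) (h0 : 0 ≤ u) (h1 : u ≤ 1) : 0 ≤ gfun n u := by
  have := gfun_mono n hn 0 u le_rfl h0 h1
  rwa [gfun_zero] at this

theorem gfun_le_two (n : ℕ) (hn : 1 ≤ n) (u : ℝ) (h0 : 0 ≤ u) (h1 : u ≤ 1) :
    gfun n u ≤ 2 := by
  have hn0 : (0 : ℝ) < n := by exact_mod_cast hn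
  have hG : ∀ t : ℝ, HasDerivAt (fun t : ℝ => -(1 + n * t) * (1 - t) ^ n -
      (n : ℝ) / (n + 1) * (1 - t) ^ (n + 1)) (n * (1 + n * t) * (1 - t) ^ (n - 1)) t := by
    intro t
    have hb : HasDerivAt (fun t : ℝ => 1 - t) (-1) t := (hasDerivAt_id' t).const_sub 1
    have ha : HasDerivAt (fun t : ℝ => -(1 + n * t)) (-(n * 1)) t :=
      (((hasDerivAt_id' t).const_mul (n : ℝ)).const_add 1).fun_neg
    have h2 := (ha.fun_mul (hb.fun_pow n)).fun_sub ((hb.fun_pow (n + 1)).const_mul ((n : ℝ) / (n + 1)))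
    refine h2.congr_deriv ?_
    obtain ⟨m, rfl⟩ : ∃ m, n = m + 1 := ⟨n - 1, by omega⟩
    simp only [Nat.add_sub_cancel]
    push_cast
    have : (m : ℝ) + 1 + 1 ≠ 0 := by positivity
    field_simp
    ring
  have h := cmp (gfun n) _ (wd n) _ 0 u h0 (gfun_hasDeriv n) hG (by
      intro t ht
      rw [wd_eq n hn t ht.1.le]
      have hp : 0 ≤ (1 - t) ^ (n - 1) := pow_nonneg (by linarith [ht.2]) _
      apply mul_le_mul_of_nonneg_right _ hp
      have hy : 0 ≤ (n : ℝ) * t := mul_nonneg hn0.le ht.1.le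
      have e : (n : ℝ) ^ (7/4 : ℝ) * t ^ (3/4 : ℝ) = n * ((n : ℝ) * t) ^ (3/4 : ℝ) := by
        rw [Real.mul_rpow hn0.le ht.1.le, ← mul_assoc]
        congr 1
        rw [show (7/4 : ℝ) = 1 + 3/4 by norm_num, Real.rpow_add hn0, Real.rpow_one]
      rw [e]
      apply mul_le_mul_of_nonneg_left _ hn0.le
      rcases le_total ((n : ℝ) * t) 1 with hy1 | hy1
      · have := Real.rpow_le_one hy hy1 (by norm_num : (0 : ℝ) ≤ 3/4)
        linarith
      · have := Real.rpow_le_rpow_of_exponent_le hy1 (by norm_num : (3/4 : ℝ) ≤ 1)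
        rw [Real.rpow_one] at this
        linarith)
  rw [gfun_zero] at h
  simp only [sub_zero, mul_zero, add_zero, one_pow, mul_one] at h
  have h3 : 0 ≤ (1 + n * u) * (1 - u) ^ n := by
    have : 0 ≤ (1 - u) ^ n := pow_nonneg (by linarith) _
    positivity
  have h4 : 0 ≤ (n : ℝ) / (n + 1) * (1 - u) ^ (n + 1) := by
    have : 0 ≤ (1 - u) ^ (n + 1) := pow_nonneg (by linarith) _
    positivity
  have h5 : (n : ℝ) / (n + 1) ≤ 1 := by
    rw [div_le_one (by positivity)]; linarith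
  linarith

lemma pow_ge_exp (n : ℕ) (hn : 1 ≤ n) (t : ℝ) (h1 : t ≤ 1 / n) :
    Real.exp (-1) ≤ (1 - t) ^ (n - 1) := by
  obtain ⟨m, rfl⟩ : ∃ m, n = m + 1 := ⟨n - 1, by omega⟩
  rw [Nat.add_sub_cancel]
  rcases Nat.eq_zero_or_pos m with rfl | hm
  · simp
  · have hm0 : (0 : ℝ) < m := by exact_mod_cast hm
    have h2 : Real.exp (-(1 / m)) ≤ 1 - t := by
      have h3 := Real.add_one_le_exp (1 / (m : ℝ))
      have h4 : Real.exp (-(1 / m)) ≤ (1 / (m : ℝ) + 1)⁻¹ := by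
        rw [Real.exp_neg]
        exact inv_anti₀ (by positivity) h3
      have h5 : (1 / (m : ℝ) + 1)⁻¹ = 1 - 1 / (m + 1) := by field_simp; ring
      push_cast at h1
      linarith
    calc Real.exp (-1) = Real.exp (-(1 / m)) ^ m := by
          rw [← Real.exp_nat_mul]; congr 1; field_simp
      _ ≤ (1 - t) ^ m := pow_le_pow_left₀ (Real.exp_pos _).le h2 m

theorem gfun_ge (n : ℕ) (hn : 1 ≤ n) (u : ℝ) (h0 : 1 / (n : ℝ) ≤ u) (h1 : u ≤ 1) :
    1 / 10 ≤ gfun n u := by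
  have hn0 : (0 : ℝ) < n := by exact_mod_cast hn
  have hn1 : (0 : ℝ) ≤ 1 / n := by positivity
  refine le_trans ?_ (gfun_mono n hn (1 / n) u hn1 h0 h1)
  have h := cmp (fun t => (4/7 * Real.exp (-1) * (n : ℝ) ^ (7/4 : ℝ)) * t ^ (7/4 : ℝ)) (gfun n)
    (fun t => (4/7 * Real.exp (-1) * (n : ℝ) ^ (7/4 : ℝ)) * (7/4 * t ^ (3/4 : ℝ))) (wd n)
    0 (1 / n) hn1 (pow_deriv _) (gfun_hasDeriv n) (by
      intro t ht
      rw [wd_eq n hn t ht.1.le]
      have hc : 0 ≤ (n : ℝ) ^ (7/4 : ℝ) := by positivity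
      have ht' : 0 ≤ t ^ (3/4 : ℝ) := Real.rpow_nonneg ht.1.le _
      have hp := pow_ge_exp n hn t ht.2.le
      have h2 : 0 ≤ (n : ℝ) ^ (7/4 : ℝ) * t ^ (3/4 : ℝ) := mul_nonneg hc ht'
      have := mul_le_mul_of_nonneg_left hp h2
      calc _ = (n : ℝ) ^ (7/4 : ℝ) * t ^ (3/4 : ℝ) * Real.exp (-1) := by ring
        _ ≤ _ := this)
  rw [gfun_zero] at h
  rw [Real.zero_rpow (by norm_num), mul_zero, sub_zero, sub_zero, mul_assoc,
    ← Real.mul_rpow hn0.le hn1, mul_one_div_cancel hn0.ne', Real.one_rpow, mul_one] at h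
  have he : 1 / 5 ≤ Real.exp (-1) := by
    rw [Real.exp_neg, ← one_div]
    have := Real.exp_one_lt_d9
    apply one_div_le_one_div_of_le (Real.exp_pos _)
    linarith
  linarith

end CE
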