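import Pool.Agent.H631.Torus
import Pool.Agent.H631.Gfun
import Pool.Agent.H631.Calc

/-! The counting estimate on the discrete torus. -/

open Matrix Finset

namespace CE

variable {d : ℕ}

noncomputable def sC (d : ℕ) (t : ℝ) : ℝ := (2 / Real.sqrt (t / 2)) ^ d
noncomputable def eC (d : ℕ) (t : ℝ) : ℝ := d * Real.sqrt (2 * t)
noncomputable def c2 (d : ℕ) (t : ℝ) : ℝ := 2 * (Real.exp t * (sC d t * eC d t) * t)
noncomputable def C1 (d : ℕ) : ℝ :=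
  4 * Real.pi * Real.exp Real.pi ^ 2 * (sC d Real.pi * eC d Real.pi)

theorem sC_nonneg (t : ℝ) : 0 ≤ sC d t := by unfold sC; positivity
theorem eC_nonneg (t : ℝ) : 0 ≤ eC d t := by unfold eC; positivity
theorem c2_nonneg (t : ℝ) (ht : 0 ≤ t) : 0 ≤ c2 d t := by
  unfold c2; have := sC_nonneg (d := d) t; have := eC_nonneg (d := d) t; positivity
theorem C1_nonneg : 0 ≤ C1 d := by
  unfold C1; have := sC_nonneg (d := d) Real.pi; have := eC_nonneg (d := d) Real.pi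
  have := Real.pi_pos; positivity

noncomputable abbrev LM (d m : ℕ) (ħ : ℝ) : Matrix (Tor d (2 * (m * m))) (Tor d (2 * (m * m))) ℝ :=
  lapM d (2 * (m * m)) (ħ ^ 2 * (m : ℝ) ^ 2)

noncomputable abbrev HH (d m : ℕ) (ħ : ℝ) :
    Matrix (Tor d (2 * (m * m))) (Tor d (2 * (m * m))) ℂ :=
  Hmat (LM d m ħ) (indP (cubeQ d (2 * (m * m)) m))

open Classical in
noncomputable def Wf (d m : ℕ) [NeZero (2 * (m * m))] (ħ t : ℝ) : ℝ :=
  ∑ x : Tor d (2 * (m * m)), if x ∈ cubeQ d (2 * (m * m)) m then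
    NormedSpace.exp (-(t • LM d m ħ)) x x else 0

theorem prod_cancel (m : ℕ) (hm : 1 ≤ m) (s e ħ : ℝ) :
    (s * ((ħ⁻¹) ^ d * ((m : ℝ)⁻¹) ^ d)) * (e * ((m : ℝ) ^ d * ħ)) = (s * e) * ((ħ⁻¹) ^ d * ħ) := by
  have hm' : (m : ℝ) ≠ 0 := by positivity
  have : ((m : ℝ)⁻¹) ^ d * (m : ℝ) ^ d = 1 := by
    rw [← mul_pow, inv_mul_cancel₀ hm', one_pow]
  calc _ = (s * e) * ((ħ⁻¹) ^ d * ħ) * (((m : ℝ)⁻¹) ^ d * (m : ℝ) ^ d) := by ring
    _ = _ := by rw [this, mul_one]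

theorem T_count (hd : 1 ≤ d) (m : ℕ) (hm : 1 ≤ m) [NeZero (2 * (m * m))] (ħ : ℝ) (hħ : 0 < ħ)
    (hle : ħ ^ 2 * Real.pi ≤ 1) {ι : Type} [Fintype ι] {E : ι → ℂ} (h : SpecFam (HH d m ħ) E) :
    ∑ k, Real.exp (-(2 * Real.pi * (E k).re)) * (1 - Real.cos (2 * Real.pi * (E k).im)) ≤
      C1 d * ((ħ⁻¹) ^ d * ħ) := by
  have key := SpecFam.T_le (lapM_symm _) (lapM_off _ (by positivity)) (lapM_row _)
    (cubeQ d (2 * (m * m)) m) (eC d Real.pi * ((m : ℝ) ^ d * ħ))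
    (sC d Real.pi * ((ħ⁻¹) ^ d * ((m : ℝ)⁻¹) ^ d))
    (fun s hs hst => em_bound hd m hm ħ Real.pi hħ s hs hst)
    (fun x y => sm_bound m hm ħ Real.pi hħ Real.pi_pos hle Real.pi (by linarith [Real.pi_pos]) x y) h
  rw [prod_cancel m hm] at key
  unfold C1
  linarith

theorem im_count (hd : 1 ≤ d) (m : ℕ) (hm : 1 ≤ m) [NeZero (2 * (m * m))] (ħ : ℝ) (hħ : 0 < ħ)
    (t : ℝ) (ht : 0 < t) (hle : ħ ^ 2 * t ≤ 1) {ι : Type} [Fintype ι] {E : ι → ℂ}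
    (h : SpecFam (HH d m ħ) E) :
    |(-∑ k, Real.exp (-(t * (E k).re)) * Real.sin (t * (E k).im)) + Real.sin t * Wf d m ħ t| ≤
      c2 d t * ((ħ⁻¹) ^ d * ħ) := by
  have key := im_trace (LM d m ħ) (lapM_symm _) (lapM_off _ (by positivity))
    (cubeQ d (2 * (m * m)) m) t (eC d t * ((m : ℝ) ^ d * ħ))
    (sC d t * ((ħ⁻¹) ^ d * ((m : ℝ)⁻¹) ^ d)) ht.le
    (by have := sC_nonneg (d := d) t; positivity)
    (fun s hs hst => em_bound hd m hm ħ t hħ s hs hst)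
    (fun s hs _ x y => sm_bound m hm ħ t hħ ht hle s hs x y)
  rw [prod_cancel m hm, h.im_tr t] at key
  refine key.trans (le_of_eq ?_)
  unfold c2
  ring

theorem W_le (m : ℕ) (hm : 1 ≤ m) [NeZero (2 * (m * m))] (ħ : ℝ) (hħ : 0 < ħ)
    (t : ℝ) (ht : 0 < t) (hle : ħ ^ 2 * t ≤ 1) : Wf d m ħ t ≤ sC d t * (ħ⁻¹) ^ d := by
  classical
  unfold Wf
  rw [← Finset.sum_filter]
  calc _ ≤ ∑ x ∈ Finset.univ.filter (fun x : Tor d (2 * (m * m)) => x ∈ cubeQ d (2 * (m * m)) m),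
        sC d t * ((ħ⁻¹) ^ d * ((m : ℝ)⁻¹) ^ d) :=
        Finset.sum_le_sum fun x _ => sm_bound m hm ħ t hħ ht hle t (by linarith) x x
    _ = _ := by
      rw [Finset.sum_const, card_cubeQ m (by nlinarith), nsmul_eq_mul]
      have hm' : (m : ℝ) ≠ 0 := by positivity
      have : ((m : ℝ)⁻¹) ^ d * (m : ℝ) ^ d = 1 := by
        rw [← mul_pow, inv_mul_cancel₀ hm', one_pow]
      push_cast
      calc _ = (sC d t * (ħ⁻¹) ^ d) * (((m : ℝ)⁻¹) ^ d * (m : ℝ) ^ d) := by ring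
        _ = _ := by rw [this, mul_one]

theorem sin_5pi : Real.sin (5 * Real.pi / 2) = 1 := by
  rw [show 5 * Real.pi / 2 = Real.pi / 2 + 2 * Real.pi by ring, Real.sin_add_two_pi,
    Real.sin_pi_div_two]

/-- a-priori upper bound -/
theorem up_count (hd : 1 ≤ d) (m : ℕ) (hm : 1 ≤ m) [NeZero (2 * (m * m))] (ħ : ℝ) (hħ : 0 < ħ)
    (hle : ħ ^ 2 * (5 * Real.pi / 2) ≤ 1) {ι : Type} [Fintype ι] {E : ι → ℂ}
    (h : SpecFam (HH d m ħ) E) (hE : ∀ k, 0 ≤ (E k).re ∧ 0 ≤ (E k).im ∧ (E k).im ≤ 1) :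
    ∑ k, (if 9/10 ≤ (E k).im then Real.exp (-(5 * Real.pi / 2 * (E k).re)) else 0) ≤
      2 * (sC d (5 * Real.pi / 2) * (ħ⁻¹) ^ d +
        (c2 d (5 * Real.pi / 2) + 2 * C1 d) * ((ħ⁻¹) ^ d * ħ)) := by
  have hpi := Real.pi_pos
  have hle' : ħ ^ 2 * Real.pi ≤ 1 := by nlinarith [sq_nonneg ħ]
  have h1 := T_count hd m hm ħ hħ hle' h
  have h2 := im_count hd m hm ħ hħ (5 * Real.pi / 2) (by positivity) hle h
  have h3 := W_le (d := d) m hm ħ hħ (5 * Real.pi / 2) (by positivity) hle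
  rw [sin_5pi, one_mul] at h2
  have h4 := (abs_le.1 h2).1
  calc _ ≤ ∑ k, 2 * (Real.exp (-(5 * Real.pi / 2 * (E k).re)) * Real.sin (5 * Real.pi / 2 * (E k).im)
        + 2 * (Real.exp (-(2 * Real.pi * (E k).re)) * (1 - Real.cos (2 * Real.pi * (E k).im)))) :=
        Finset.sum_le_sum fun k _ => upper_pt _ _ (hE k).1 (hE k).2.1 (hE k).2.2
    _ = 2 * (∑ k, Real.exp (-(5 * Real.pi / 2 * (E k).re)) * Real.sin (5 * Real.pi / 2 * (E k).im)
        + 2 * ∑ k, Real.exp (-(2 * Real.pi * (E k).re)) * (1 - Real.cos (2 * Real.pi * (E k).im))) := by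
        rw [← Finset.mul_sum, Finset.sum_add_distrib, ← Finset.mul_sum]
    _ ≤ _ := by linarith

theorem sin_tj' (j : ℕ) : Real.sin (tj j) = -1 := by
  unfold tj
  rw [show 2 * Real.pi * ((j : ℝ) + 7/4) = (-(Real.pi / 2)) + ((j + 2 : ℕ) : ℝ) * (2 * Real.pi) by
    push_cast; ring, Real.sin_add_nat_mul_two_pi, Real.sin_neg, Real.sin_pi_div_two]

theorem tj_pos (j : ℕ) : 0 < tj j := by unfold tj; have := Real.pi_pos; positivity

/-- lower bound for the smoothed count of the free generator -/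
theorem W_lower (hd : 1 ≤ d) (n : ℕ) (hn : 1 ≤ n) (m : ℕ) (hm : 1 ≤ m) [NeZero (2 * (m * m))]
    (ħ : ℝ) (hħ : 0 < ħ) (K : ℝ) (hK : K = Real.log n / (2 * Real.pi)) (hK0 : 0 < K)
    (hr : Real.sqrt (K / (4 * d * (ħ ^ 2 * (m : ℝ) ^ 2))) / Real.pi ≤ 1 / 2) :
    1 / 10 * ((Real.sqrt (K / (4 * d)) / Real.pi) ^ d * (ħ⁻¹) ^ d) ≤
      ∑ j ∈ Finset.range n, gcoef n j * Wf d m ħ (tj j) := by
  have hm' : (0 : ℝ) < m := by positivity
  have hpi := Real.pi_pos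
  have hn' : (0 : ℝ) < n := by positivity
  set M := 2 * (m * m) with hM
  have hMpos : (0 : ℝ) < M := by rw [hM]; positivity
  have e1 : ∀ j, Wf d m ħ (tj j) = (m : ℝ) ^ d / (M : ℝ) ^ d *
      ∑ k : Tor d M, Real.exp (-(tj j * lamb d M (ħ ^ 2 * (m : ℝ) ^ 2) k)) := by
    intro j
    exact W_eq m (by nlinarith) _ _
  have e2 : ∑ j ∈ Finset.range n, gcoef n j * Wf d m ħ (tj j) = (m : ℝ) ^ d / (M : ℝ) ^ d *
      ∑ k : Tor d M, gfun n (Real.exp (-(2 * Real.pi * lamb d M (ħ ^ 2 * (m : ℝ) ^ 2) k))) := by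
    simp_rw [e1]
    unfold gfun
    rw [Finset.sum_comm, Finset.mul_sum]
    refine Finset.sum_congr rfl fun j _ => ?_
    have e3 : ∀ k : Tor d M, gcoef n j *
        Real.exp (-(2 * Real.pi * lamb d M (ħ ^ 2 * (m : ℝ) ^ 2) k)) ^ ((j : ℝ) + 7/4) =
        gcoef n j * Real.exp (-(tj j * lamb d M (ħ ^ 2 * (m : ℝ) ^ 2) k)) := by
      intro k
      rw [← Real.exp_mul]
      congr 2
      unfold tj
      ring
    simp_rw [e3]
    rw [← Finset.mul_sum]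
    ring
  have h1 := card_small d M hd (ħ ^ 2 * (m : ℝ) ^ 2) (by positivity) K hK0 hr
  have h2 : (1 / 10 : ℝ) * ((Finset.univ.filter (fun k : Tor d M =>
      lamb d M (ħ ^ 2 * (m : ℝ) ^ 2) k ≤ K)).card : ℝ) ≤
      ∑ k : Tor d M, gfun n (Real.exp (-(2 * Real.pi * lamb d M (ħ ^ 2 * (m : ℝ) ^ 2) k))) := by
    rw [← nsmul_eq_mul', ← Finset.sum_const, Finset.sum_filter]
    refine Finset.sum_le_sum fun k _ => ?_
    have hl : 0 ≤ lamb d M (ħ ^ 2 * (m : ℝ) ^ 2) k := by unfold lamb; positivity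
    have hu : Real.exp (-(2 * Real.pi * lamb d M (ħ ^ 2 * (m : ℝ) ^ 2) k)) ≤ 1 := by
      rw [Real.exp_le_one_iff]; nlinarith
    split_ifs with hk
    · refine gfun_ge n hn _ ?_ hu
      rw [one_div, ← Real.exp_log hn', ← Real.exp_neg, Real.exp_le_exp, neg_le_neg_iff]
      rw [hK] at hk
      rw [le_div_iff₀ (by positivity)] at hk
      linarith
    · exact gfun_nonneg n hn _ (Real.exp_pos _).le hu
  have h3 : Real.sqrt (K / (4 * d * (ħ ^ 2 * (m : ℝ) ^ 2))) =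
      Real.sqrt (K / (4 * d)) * (ħ * m)⁻¹ := by
    rw [show K / (4 * d * (ħ ^ 2 * (m : ℝ) ^ 2)) = K / (4 * d) * ((ħ * m)⁻¹) ^ 2 by
      field_simp, Real.sqrt_mul (by positivity), Real.sqrt_sq (by positivity)]
  have h4 : (Real.sqrt (K / (4 * d)) / Real.pi) ^ d * (ħ⁻¹) ^ d =
      (m : ℝ) ^ d / (M : ℝ) ^ d *
        ((Real.sqrt (K / (4 * d * (ħ ^ 2 * (m : ℝ) ^ 2))) / Real.pi) ^ d * (M : ℝ) ^ d) := by
    rw [h3]
    rw [show (m : ℝ) ^ d / (M : ℝ) ^ d * ((Real.sqrt (K / (4 * d)) * (ħ * m)⁻¹ / Real.pi) ^ d *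
      (M : ℝ) ^ d) = (m : ℝ) ^ d * (Real.sqrt (K / (4 * d)) * (ħ * m)⁻¹ / Real.pi) ^ d by
        field_simp]
    rw [← mul_pow, ← mul_pow]
    congr 1
    field_simp
  rw [e2, h4]
  have h5 : 0 ≤ (m : ℝ) ^ d / (M : ℝ) ^ d := by positivity
  calc _ = (m : ℝ) ^ d / (M : ℝ) ^ d * (1 / 10 *
        ((Real.sqrt (K / (4 * d * (ħ ^ 2 * (m : ℝ) ^ 2))) / Real.pi) ^ d * (M : ℝ) ^ d)) := by ring
    _ ≤ (m : ℝ) ^ d / (M : ℝ) ^ d * (1 / 10 * ((Finset.univ.filter (fun k : Tor d M =>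
      lamb d M (ħ ^ 2 * (m : ℝ) ^ 2) k ≤ K)).card : ℝ)) := by
        refine mul_le_mul_of_nonneg_left (mul_le_mul_of_nonneg_left h1 (by norm_num)) h5
    _ ≤ _ := mul_le_mul_of_nonneg_left h2 h5

theorem tj_mono {i j : ℕ} (h : i ≤ j) : tj i ≤ tj j := by
  unfold tj
  have : (i : ℝ) ≤ j := by exact_mod_cast h
  have := Real.pi_pos
  gcongr

/-- the combined inequality -/
theorem count_ineq (hd : 1 ≤ d) (n : ℕ) (hn : 2 ≤ n) : ∃ C : ℝ, 0 ≤ C ∧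
    ∀ (m : ℕ) [NeZero (2 * (m * m))], 1 ≤ m → ∀ ħ : ℝ, 0 < ħ → ħ ^ 2 * tj n ≤ 1 →
      Real.sqrt (Real.log n / (2 * Real.pi) / (4 * d * (ħ ^ 2 * (m : ℝ) ^ 2))) / Real.pi ≤ 1 / 2 →
      ∀ {ι : Type} [Fintype ι] (E : ι → ℂ), SpecFam (HH d m ħ) E →
      (∀ k, 0 ≤ (E k).re ∧ 0 ≤ (E k).im ∧ (E k).im ≤ 1) →
      1 / 10 * ((Real.sqrt (Real.log n / (2 * Real.pi) / (4 * d)) / Real.pi) ^ d * (ħ⁻¹) ^ d) ≤
        3 * ((Finset.univ.filter (fun k : ι => 1/2 ≤ (E k).im ∧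
          (E k).re ≤ 4 * (Real.log n / (2 * Real.pi)))).card : ℝ)
        + 4 * Real.exp (-(Real.pi * (Real.log n / (2 * Real.pi)) / 2)) *
          (sC d (5 * Real.pi / 2) * (ħ⁻¹) ^ d) + C * ((ħ⁻¹) ^ d * ħ) := by
  obtain ⟨C, hC, hF⟩ := Ffun_le n (by omega) (fun x hx => gfun_antitone_exp n (by omega) x hx)
    (fun u h0 h1 => gfun_le_pow n (by omega) u h0 h1) (fun u h0 h1 => gfun_le_two n (by omega) u h0 h1)
  have hpi := Real.pi_pos
  have hc2 := c2_nonneg (d := d) (5 * Real.pi / 2) (by positivity)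
  have hC1 := C1_nonneg (d := d)
  have hG : 0 ≤ ∑ j ∈ Finset.range n, |gcoef n j| * c2 d (tj j) :=
    Finset.sum_nonneg fun j _ => mul_nonneg (abs_nonneg _) (c2_nonneg _ (tj_pos j).le)
  refine ⟨C * C1 d + 4 * (c2 d (5 * Real.pi / 2) + 2 * C1 d) +
    ∑ j ∈ Finset.range n, |gcoef n j| * c2 d (tj j), by positivity, ?_⟩
  intro m _ hm ħ hħ hle hr ι _ E hE hEb
  set K := Real.log n / (2 * Real.pi) with hK
  have hn' : (1 : ℝ) < n := by exact_mod_cast hn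
  have hK0 : 0 < K := by rw [hK]; exact div_pos (Real.log_pos hn') (by positivity)
  have htn : 5 * Real.pi / 2 ≤ tj n := by
    unfold tj
    nlinarith
  have hle1 : ħ ^ 2 * Real.pi ≤ 1 := by nlinarith [sq_nonneg ħ]
  have hle2 : ħ ^ 2 * (5 * Real.pi / 2) ≤ 1 := by nlinarith [sq_nonneg ħ]
  have hlej : ∀ j ∈ Finset.range n, ħ ^ 2 * tj j ≤ 1 := by
    intro j hj
    have := tj_mono (Finset.mem_range.1 hj).le
    nlinarith [sq_nonneg ħ]
  have hT := T_count hd m hm ħ hħ hle1 hE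
  have hU := up_count hd m hm ħ hħ hle2 hE hEb
  have hW := W_lower hd n (by omega) m hm ħ hħ K hK hK0 hr
  set X := (ħ⁻¹) ^ d with hX
  -- from `W` to `F`
  have h1 : ∑ j ∈ Finset.range n, gcoef n j * Wf d m ħ (tj j) ≤
      ∑ k, Ffun n (E k).re (E k).im + (∑ j ∈ Finset.range n, |gcoef n j| * c2 d (tj j)) * (X * ħ) := by
    have e1 : ∑ k, Ffun n (E k).re (E k).im = ∑ j ∈ Finset.range n, gcoef n j *
        (-∑ k, Real.exp (-(tj j * (E k).re)) * Real.sin (tj j * (E k).im)) := by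
      unfold Ffun
      rw [Finset.sum_neg_distrib, Finset.sum_comm, ← Finset.sum_neg_distrib]
      refine Finset.sum_congr rfl fun j _ => ?_
      rw [mul_neg, Finset.mul_sum]
      congr 1
      exact Finset.sum_congr rfl fun k _ => by ring
    rw [e1, Finset.sum_mul, ← Finset.sum_add_distrib]
    refine Finset.sum_le_sum fun j hj => ?_
    have h2 := im_count hd m hm ħ hħ (tj j) (tj_pos j) (hlej j hj) hE
    rw [sin_tj'] at h2
    set I := -∑ k, Real.exp (-(tj j * (E k).re)) * Real.sin (tj j * (E k).im) with hI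
    have h3 : gcoef n j * (Wf d m ħ (tj j) - I) ≤ |gcoef n j| * (c2 d (tj j) * (X * ħ)) := by
      refine (le_abs_self _).trans ?_
      rw [abs_mul]
      refine mul_le_mul_of_nonneg_left ?_ (abs_nonneg _)
      rw [show Wf d m ħ (tj j) - I = -(I + -1 * Wf d m ħ (tj j)) by ring, abs_neg]
      exact h2
    nlinarith
  have h4 : ∑ k, Ffun n (E k).re (E k).im ≤
      3 * ((Finset.univ.filter (fun k : ι => 1/2 ≤ (E k).im ∧ (E k).re ≤ 4 * K)).card : ℝ)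
      + C * ∑ k, Real.exp (-(2 * Real.pi * (E k).re)) * (1 - Real.cos (2 * Real.pi * (E k).im))
      + 2 * Real.exp (-(Real.pi * K / 2)) *
        ∑ k, (if 9/10 ≤ (E k).im then Real.exp (-(5 * Real.pi / 2 * (E k).re)) else 0) := by
    have e2 : ((Finset.univ.filter (fun k : ι => 1/2 ≤ (E k).im ∧ (E k).re ≤ 4 * K)).card : ℝ) =
        ∑ k, (if 1/2 ≤ (E k).im ∧ (E k).re ≤ 4 * K then (1:ℝ) else 0) := by
      rw [Finset.sum_ite, Finset.sum_const_zero, add_zero, Finset.sum_const, nsmul_eq_mul, mul_one]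
    rw [e2, Finset.mul_sum, Finset.mul_sum, Finset.mul_sum, ← Finset.sum_add_distrib,
      ← Finset.sum_add_distrib]
    exact Finset.sum_le_sum fun k _ => hF _ _ (hEb k).1 (hEb k).2.1 (hEb k).2.2
  have hexp1 : Real.exp (-(Real.pi * K / 2)) ≤ 1 := by
    rw [Real.exp_le_one_iff]; nlinarith
  have hexp0 := Real.exp_pos (-(Real.pi * K / 2))
  have hXħ : 0 ≤ X * ħ := by positivity
  have h5 : C * ∑ k, Real.exp (-(2 * Real.pi * (E k).re)) * (1 - Real.cos (2 * Real.pi * (E k).im)) ≤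
      C * (C1 d * (X * ħ)) := mul_le_mul_of_nonneg_left hT hC
  have h6 : 2 * Real.exp (-(Real.pi * K / 2)) *
        ∑ k, (if 9/10 ≤ (E k).im then Real.exp (-(5 * Real.pi / 2 * (E k).re)) else 0) ≤
      2 * Real.exp (-(Real.pi * K / 2)) * (2 * (sC d (5 * Real.pi / 2) * X +
        (c2 d (5 * Real.pi / 2) + 2 * C1 d) * (X * ħ))) :=
    mul_le_mul_of_nonneg_left hU (by positivity)
  have h7 : Real.exp (-(Real.pi * K / 2)) * ((c2 d (5 * Real.pi / 2) + 2 * C1 d) * (X * ħ)) ≤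
      1 * ((c2 d (5 * Real.pi / 2) + 2 * C1 d) * (X * ħ)) :=
    mul_le_mul_of_nonneg_right hexp1 (by positivity)
  nlinarith [h1, h4, h5, h6, h7, hW]

end CE
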