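import Pool.Agent.H631.Count

/-! The counting estimate, final form. -/

open Matrix Finset Filter Topology

namespace CE

variable {d : ℕ}

theorem kappa_eq (hd : 1 ≤ d) (n : ℕ) (hn : 2 ≤ n) :
    (Real.sqrt (Real.log n / (2 * Real.pi) / (4 * d)) / Real.pi) ^ d =
      ((Real.sqrt (8 * Real.pi * d) * Real.pi)⁻¹) ^ d * (Real.log n) ^ ((d : ℝ) / 2) := by
  have hpi := Real.pi_pos
  have hl : 0 ≤ Real.log n := Real.log_natCast_nonneg n
  have hd' : (0 : ℝ) < d := by exact_mod_cast hd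
  have h1 : Real.sqrt (Real.log n / (2 * Real.pi) / (4 * d)) =
      Real.sqrt (Real.log n) / Real.sqrt (8 * Real.pi * d) := by
    rw [← Real.sqrt_div hl]
    congr 1
    field_simp
    ring
  have h2 : (Real.log n) ^ ((d : ℝ) / 2) = (Real.sqrt (Real.log n)) ^ d := by
    rw [Real.sqrt_eq_rpow, ← Real.rpow_natCast, ← Real.rpow_mul hl]
    congr 1
    ring
  rw [h1, h2, ← mul_pow]
  congr 1
  rw [mul_inv]
  ring

theorem count_fam (hd : 1 ≤ d) : ∃ c : ℝ, 0 < c ∧ ∃ n₀ : ℕ, ∀ n : ℕ, n₀ ≤ n →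
    ∃ h₀ : ℝ, 0 < h₀ ∧ ∀ ħ : ℝ, 0 < ħ → ħ < h₀ → ∃ m₀ : ℕ, ∀ (m : ℕ) [NeZero (2 * (m * m))],
      m₀ ≤ m → ∀ {ι : Type} [Fintype ι] (E : ι → ℂ), SpecFam (HH d m ħ) E →
      (∀ k, 0 ≤ (E k).re ∧ 0 ≤ (E k).im ∧ (E k).im ≤ 1) →
      c * (Real.log n) ^ ((d : ℝ) / 2) * (ħ⁻¹) ^ d ≤
        ((Finset.univ.filter (fun k : ι => 1/2 ≤ (E k).im ∧
          (E k).re ≤ 4 * (Real.log n / (2 * Real.pi)))).card : ℝ) := by
  have hpi := Real.pi_pos
  have hd' : (0 : ℝ) < d := by exact_mod_cast hd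
  set b : ℝ := (Real.sqrt (8 * Real.pi * d) * Real.pi)⁻¹ with hb
  have hb0 : 0 < b := by rw [hb]; positivity
  have hbd : 0 < b ^ d := by positivity
  have hs0 := sC_nonneg (d := d) (5 * Real.pi / 2)
  -- choice of `n₀`
  have hlim : Tendsto (fun n : ℕ => 4 * Real.exp (-(Real.pi * (Real.log n / (2 * Real.pi)) / 2)) *
      sC d (5 * Real.pi / 2)) atTop (𝓝 (4 * 0 * sC d (5 * Real.pi / 2))) := by
    refine Tendsto.mul_const _ (Tendsto.const_mul _ ?_)
    refine Real.tendsto_exp_neg_atTop_nhds_zero.comp ?_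
    have h1 : Tendsto (fun n : ℕ => Real.log n) atTop atTop :=
      Real.tendsto_log_atTop.comp tendsto_natCast_atTop_atTop
    have h2 := h1.const_mul_atTop (show (0:ℝ) < 1/4 by norm_num)
    refine h2.congr fun n => ?_
    field_simp
    ring
  rw [mul_zero, zero_mul] at hlim
  have hev := (hlim.eventually_lt_const (show (0:ℝ) < b ^ d / 40 by positivity)).and
    (((Real.tendsto_log_atTop.comp tendsto_natCast_atTop_atTop).eventually_ge_atTop 1).and
      (eventually_ge_atTop 2))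
  obtain ⟨n₀, hn₀⟩ := eventually_atTop.1 hev
  refine ⟨b ^ d / 60, by positivity, n₀, fun n hn => ?_⟩
  obtain ⟨hn1, hn2, hn3⟩ := hn₀ n hn
  simp only [Function.comp_apply] at hn2
  obtain ⟨C, hC, hcount⟩ := count_ineq hd n hn3
  have hLp : (1 : ℝ) ≤ (Real.log n) ^ ((d : ℝ) / 2) := Real.one_le_rpow hn2 (by positivity)
  have htn : 1 ≤ tj n := by
    unfold tj
    have : (0 : ℝ) ≤ n := by positivity
    nlinarith [Real.pi_gt_three]
  refine ⟨min (1 / tj n) (b ^ d / (40 * (C + 1))), by positivity, fun ħ hħ hlt => ?_⟩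
  have hlt1 : ħ < 1 / tj n := hlt.trans_le (min_le_left _ _)
  have hlt2 : ħ < b ^ d / (40 * (C + 1)) := hlt.trans_le (min_le_right _ _)
  have h1 : ħ ^ 2 * tj n ≤ 1 := by
    rw [lt_div_iff₀ (by linarith)] at hlt1
    have : ħ ≤ 1 := by nlinarith
    nlinarith
  have h2 : C * ħ ≤ b ^ d / 40 := by
    rw [lt_div_iff₀ (by positivity)] at hlt2
    nlinarith
  obtain ⟨m₀, hm₀⟩ := exists_nat_gt
    (Real.sqrt (Real.log n / (2 * Real.pi) / (4 * d)) * 2 / (Real.pi * ħ))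
  refine ⟨m₀ + 1, fun m _ hm ι _ E hE hEb => ?_⟩
  have hm1 : 1 ≤ m := by omega
  have hmr : (m₀ : ℝ) < m := by exact_mod_cast hm
  have hm0 : (0 : ℝ) < m := by exact_mod_cast hm1
  have hr : Real.sqrt (Real.log n / (2 * Real.pi) / (4 * d * (ħ ^ 2 * (m : ℝ) ^ 2))) / Real.pi
      ≤ 1 / 2 := by
    rw [show Real.log n / (2 * Real.pi) / (4 * d * (ħ ^ 2 * (m : ℝ) ^ 2)) =
      Real.log n / (2 * Real.pi) / (4 * d) / (ħ * m) ^ 2 by
        rw [div_div _ (4 * (d : ℝ))]; ring, Real.sqrt_div' _ (by positivity), Real.sqrt_sq (by positivity)]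
    rw [div_div, div_le_iff₀ (by positivity)]
    have h3 := hm₀.trans hmr
    rw [div_lt_iff₀ (by positivity)] at h3
    nlinarith
  have key := hcount m hm1 ħ hħ h1 hr E hE hEb
  rw [kappa_eq hd n hn3] at key
  set X := (ħ⁻¹) ^ d with hX
  have hX0 : 0 < X := by positivity
  set L := (Real.log n) ^ ((d : ℝ) / 2) with hL
  set c := ((Finset.univ.filter (fun k : ι => 1/2 ≤ (E k).im ∧
          (E k).re ≤ 4 * (Real.log n / (2 * Real.pi)))).card : ℝ) with hc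
  have h4 : C * (X * ħ) ≤ b ^ d / 40 * X := by
    calc C * (X * ħ) = (C * ħ) * X := by ring
      _ ≤ _ := mul_le_mul_of_nonneg_right h2 hX0.le
  have h5 : 4 * Real.exp (-(Real.pi * (Real.log n / (2 * Real.pi)) / 2)) *
      (sC d (5 * Real.pi / 2) * X) ≤ b ^ d / 40 * X := by
    calc _ = (4 * Real.exp (-(Real.pi * (Real.log n / (2 * Real.pi)) / 2)) *
      sC d (5 * Real.pi / 2)) * X := by ring
      _ ≤ _ := mul_le_mul_of_nonneg_right hn1.le hX0.le
  have h6 : b ^ d * X ≤ b ^ d * L * X := by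
    have : 0 ≤ b ^ d * X := by positivity
    nlinarith
  have h7 : 1 / 10 * (b ^ d * L * X) ≤ 3 * c + b ^ d / 40 * X + b ^ d / 40 * X := by linarith
  nlinarith

end CE
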