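import Mathlib

/-! Shared definitions for the proof about eigenvalue sums of `-ħ²Δ + i 1_cube`. -/

open Matrix

namespace CE

/-- integer vectors in `[-L, L)^d` -/
noncomputable def ibox (d L : ℕ) : Finset (Fin d → ℤ) :=
  Fintype.piFinset (fun _ : Fin d => Finset.Ico (-(L : ℤ)) (L : ℤ))

/-- discrete torus -/
abbrev Tor (d M : ℕ) := Fin d → ZMod M

/-- `c` times minus the graph Laplacian of the discrete torus -/
def lapM (d M : ℕ) (c : ℝ) : Matrix (Tor d M) (Tor d M) ℝ :=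
  fun x y => c * ∑ i : Fin d, ((if y = x then 2 else 0) - (if y = x + Pi.single i 1 then 1 else 0)
    - (if y = x - Pi.single i 1 then 1 else 0))

/-- its eigenvalues -/
noncomputable def lamb (d M : ℕ) (c : ℝ) (k : Tor d M) : ℝ :=
  ∑ i : Fin d, 4 * c * (Real.sin (Real.pi * ((k i).val : ℝ) / M)) ^ 2

/-- the discrete cube -/
def cubeQ (d M m : ℕ) : Set (Tor d M) := {x | ∀ i, (x i).val < m}

/-- periodic lift -/
def lft (d M : ℕ) (u : Tor d M → ℂ) : (Fin d → ℤ) → ℂ := fun X => u (fun i => (X i : ZMod M))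

/-- the Dirichlet energy -/
noncomputable def en (d M : ℕ) [NeZero M] (u : Tor d M → ℂ) : ℝ :=
  ∑ i : Fin d, ∑ x : Tor d M, ‖u (x + Pi.single i 1) - u x‖ ^ 2

open Classical in
/-- the discrete operator -/
noncomputable def Hop (d M m : ℕ) [NeZero M] (ħ : ℝ) (u : Tor d M → ℂ) : Tor d M → ℂ := fun x =>
  (∑ y, (lapM d M (ħ ^ 2 * (m : ℝ) ^ 2) x y : ℂ) * u y)
    + (if x ∈ cubeQ d M m then Complex.I else 0) * u x

/-- coefficients of the test function -/
noncomputable def gcoef (n j : ℕ) : ℝ :=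
  (n : ℝ) ^ (7/4 : ℝ) * ((-1) ^ j * ((n - 1).choose j : ℝ)) / (j + 7/4)

noncomputable def gfun (n : ℕ) (u : ℝ) : ℝ :=
  ∑ j ∈ Finset.range n, gcoef n j * u ^ ((j : ℝ) + 7/4)

/-- the exponents (times) -/
noncomputable def tj (j : ℕ) : ℝ := 2 * Real.pi * ((j : ℝ) + 7/4)

/-- the imaginary part of `∑ gcoef n j * exp (-tj j * (x + iy))` -/
noncomputable def Ffun (n : ℕ) (x y : ℝ) : ℝ :=
  -∑ j ∈ Finset.range n, gcoef n j * Real.exp (-(tj j * x)) * Real.sin (tj j * y)

/-- the generator perturbed by an imaginary potential -/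
noncomputable def Hmat {G : Type} [DecidableEq G] (A : Matrix G G ℝ) (P : G → ℝ) :
    Matrix G G ℂ :=
  A.map (fun a => (a : ℂ)) + Matrix.diagonal (fun x => (P x : ℂ) * Complex.I)

end CE
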