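import Pool.Agent.H631.Count2
import Pool.Agent.H631.Comm

/-! The discrete data: ordered Schur vectors of the lattice operator. -/

open Matrix Finset Filter Topology

namespace CE

variable {d : ℕ}

structure DiscData (d m N : ℕ) [NeZero (2 * (m * m))] (ħ K : ℝ)
    (u : Fin N → Tor d (2 * (m * m)) → ℂ) (t : Fin N → Fin N → ℂ) : Prop where
  orth : ∀ i j, ∑ x, (starRingEnd ℂ) (u i x) * u j x = if i = j then 1 else 0
  rel : ∀ k x, Hop d (2 * (m * m)) m ħ (u k) x =
    ∑ l ∈ Finset.univ.filter (fun l => l ≤ k), t l k * u l x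
  re0 : ∀ k, 0 ≤ (t k k).re
  re1 : ∀ k, (t k k).re ≤ 4 * K
  im0 : ∀ k, 1 / 2 ≤ (t k k).im
  im1 : ∀ k, (t k k).im ≤ 1

theorem Hmat_apply (m : ℕ) [NeZero (2 * (m * m))] (ħ : ℝ) (u : Tor d (2 * (m * m)) → ℂ)
    (x : Tor d (2 * (m * m))) :
    ((HH d m ħ) *ᵥ u) x = Hop d (2 * (m * m)) m ħ u x := by
  classical
  unfold HH Hmat Hop
  rw [Matrix.add_mulVec, Pi.add_apply, Matrix.mulVec_diagonal]
  congr 1
  unfold indP
  split_ifs <;> simp

/-- the quadratic form -/
theorem Hop_inner (m : ℕ) [NeZero (2 * (m * m))] (ħ : ℝ) (u : Tor d (2 * (m * m)) → ℂ) :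
    ∑ x, (starRingEnd ℂ) (u x) * Hop d (2 * (m * m)) m ħ u x =
      ((ħ ^ 2 * (m : ℝ) ^ 2 * en d (2 * (m * m)) u : ℝ) : ℂ) +
      ((∑ x, indP (cubeQ d (2 * (m * m)) m) x * ‖u x‖ ^ 2 : ℝ) : ℂ) * Complex.I := by
  classical
  rw [← energy_eq, ← sub_eq_iff_eq_add', ← Finset.sum_sub_distrib]
  push_cast
  rw [Finset.sum_mul]
  refine Finset.sum_congr rfl fun x _ => ?_
  unfold Hop indP
  rw [← Complex.conj_mul']
  split_ifs <;> push_cast <;> ring

theorem Hop_re (m : ℕ) [NeZero (2 * (m * m))] (ħ : ℝ) (u : Tor d (2 * (m * m)) → ℂ) :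
    (∑ x, (starRingEnd ℂ) (u x) * Hop d (2 * (m * m)) m ħ u x).re =
      ħ ^ 2 * (m : ℝ) ^ 2 * en d (2 * (m * m)) u := by
  rw [Hop_inner, Complex.add_re, Complex.ofReal_re, Complex.re_ofReal_mul, Complex.I_re, mul_zero,
    add_zero]

theorem Hop_im (m : ℕ) [NeZero (2 * (m * m))] (ħ : ℝ) (u : Tor d (2 * (m * m)) → ℂ) :
    (∑ x, (starRingEnd ℂ) (u x) * Hop d (2 * (m * m)) m ħ u x).im =
      ∑ x, indP (cubeQ d (2 * (m * m)) m) x * ‖u x‖ ^ 2 := by
  rw [Hop_inner, Complex.add_im, Complex.ofReal_im, Complex.im_ofReal_mul, Complex.I_im, mul_one,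
    zero_add]

theorem en_nonneg' (M : ℕ) [NeZero M] (u : Tor d M → ℂ) : 0 ≤ en d M u := by
  unfold en; positivity

theorem indP_nonneg {G : Type} (Q : Set G) (x : G) : 0 ≤ indP Q x := by
  unfold indP; split_ifs <;> simp

theorem indP_le_one {G : Type} (Q : Set G) (x : G) : indP Q x ≤ 1 := by
  unfold indP; split_ifs <;> simp

/-- existence of the discrete data from a lower bound on the number of eigenvalues -/
theorem disc_exists (m N : ℕ) [NeZero (2 * (m * m))] (ħ K : ℝ)
    (h : ∀ {ι : Type} [Fintype ι] (E : ι → ℂ), SpecFam (HH d m ħ) E →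
      (∀ k, 0 ≤ (E k).re ∧ 0 ≤ (E k).im ∧ (E k).im ≤ 1) →
      (N : ℝ) ≤ ((Finset.univ.filter (fun k : ι => 1/2 ≤ (E k).im ∧ (E k).re ≤ 4 * K)).card : ℝ)) :
    ∃ (u : Fin N → Tor d (2 * (m * m)) → ℂ) (t : Fin N → Fin N → ℂ), DiscData d m N ħ K u t := by
  classical
  obtain ⟨n, Ns, b, ho, hn, htri, hord, htr, hfro⟩ := schur_pack (HH d m ħ)
    (fun z => 1/2 ≤ z.im ∧ z.re ≤ 4 * K)
  set E : Fin n → ℂ := fun k => inner ℂ (b k) (Matrix.toEuclideanLin (HH d m ħ) (b k)) with hE
  have hinner : ∀ j k, inner ℂ (b j) (Matrix.toEuclideanLin (HH d m ħ) (b k)) =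
      ∑ x, (starRingEnd ℂ) (b j x) * Hop d (2 * (m * m)) m ħ (b k) x := by
    intro j k
    rw [PiLp.inner_apply]
    refine Finset.sum_congr rfl fun x _ => ?_
    rw [← Hmat_apply]
    exact mul_comm _ _
  have hnorm : ∀ k, ∑ x, ‖b k x‖ ^ 2 = 1 := by
    intro k
    rw [← EuclideanSpace.norm_sq_eq, ho.1 k, one_pow]
  have hEb : ∀ k, 0 ≤ (E k).re ∧ 0 ≤ (E k).im ∧ (E k).im ≤ 1 := by
    intro k
    simp only [hE]
    rw [hinner, Hop_re, Hop_im]
    refine ⟨mul_nonneg (by positivity) (en_nonneg' _ _),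
      Finset.sum_nonneg fun x _ => mul_nonneg (indP_nonneg _ _) (by positivity), ?_⟩
    rw [← hnorm k]
    exact Finset.sum_le_sum fun x _ => mul_le_of_le_one_left (by positivity) (indP_le_one _ _)
  have hcard := h E ⟨htr, hfro⟩ hEb
  have hcard' : N ≤ (Finset.univ.filter (fun k : Fin n => k.val < Ns)).card := by
    have : (Finset.univ.filter (fun k : Fin n => 1/2 ≤ (E k).im ∧ (E k).re ≤ 4 * K)) =
        Finset.univ.filter (fun k : Fin n => k.val < Ns) := by
      ext k
      simp only [Finset.mem_filter, Finset.mem_univ, true_and]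
      exact (hord k).symm
    rw [this] at hcard
    exact_mod_cast hcard
  have hNn : N ≤ n := by
    refine hcard'.trans ((Finset.card_le_univ _).trans (by simp))
  have hNs : N ≤ Ns := by
    refine hcard'.trans ?_
    calc _ ≤ (Finset.range Ns).card := by
          refine Finset.card_le_card_of_injOn (fun k => k.val) (fun k hk => ?_) (fun a _ b _ h => Fin.ext h)
          simpa using hk
      _ = Ns := Finset.card_range Ns
  let c : Fin N → Fin n := Fin.castLE hNn
  refine ⟨fun i => b (c i), fun l k => inner ℂ (b (c l)) (Matrix.toEuclideanLin (HH d m ħ) (b (c k))),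
    ?_, ?_, ?_, ?_, ?_, ?_⟩
  · intro i j
    have := orthonormal_iff_ite.1 ho (c i) (c j)
    rw [PiLp.inner_apply] at this
    have hc : (c i = c j) ↔ i = j := (Fin.castLE_injective hNn).eq_iff
    simp only [hc] at this
    rw [← this]
    exact Finset.sum_congr rfl fun x _ => mul_comm _ _
  · intro k x
    -- expansion in the orthonormal basis
    have hb : Submodule.span ℂ (Set.range b) = ⊤ := by
      have hli := ho.linearIndependent
      refine hli.span_eq_top_of_card_eq_finrank' ?_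
      simp [hn]
    let B : OrthonormalBasis (Fin n) ℂ (EuclideanSpace ℂ (Tor d (2 * (m * m)))) :=
      OrthonormalBasis.mk ho (le_of_eq hb.symm)
    have hB : ∀ j, B j = b j := fun j => by simp [B]
    have hexp := B.sum_repr' (Matrix.toEuclideanLin (HH d m ħ) (b (c k)))
    have hx := congrArg (fun v : EuclideanSpace ℂ (Tor d (2 * (m * m))) => v x) hexp
    simp only [hB] at hx
    have h1 : (Matrix.toEuclideanLin (HH d m ħ) (b (c k))) x = Hop d (2 * (m * m)) m ħ (b (c k)) x := by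
      rw [← Hmat_apply]; rfl
    rw [← h1, ← hx]
    have h2 : (∑ j, (inner ℂ (b j) (Matrix.toEuclideanLin (HH d m ħ) (b (c k))) : ℂ) • b j :
        EuclideanSpace ℂ (Tor d (2 * (m * m)))) x =
        ∑ j, (inner ℂ (b j) (Matrix.toEuclideanLin (HH d m ħ) (b (c k))) : ℂ) * b j x := by
      simp
    rw [h2]
    have h3 : ∑ j, (inner ℂ (b j) (Matrix.toEuclideanLin (HH d m ħ) (b (c k))) : ℂ) * b j x =
        ∑ j ∈ (Finset.univ.filter (fun l : Fin N => l ≤ k)).image c,
          (inner ℂ (b j) (Matrix.toEuclideanLin (HH d m ħ) (b (c k))) : ℂ) * b j x := by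
      symm
      refine Finset.sum_subset (Finset.subset_univ _) fun j _ hj => ?_
      have : c k < j := by
        by_contra hlt
        rw [not_lt] at hlt
        apply hj
        rw [Finset.mem_image]
        refine ⟨⟨j.val, lt_of_le_of_lt hlt k.2⟩, ?_, Fin.ext rfl⟩
        rw [Finset.mem_filter]
        exact ⟨Finset.mem_univ _, hlt⟩
      rw [htri j (c k) this, zero_mul]
    rw [h3, Finset.sum_image (fun a _ b _ h => Fin.castLE_injective hNn h)]
  · exact fun k => (hEb (c k)).1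
  · intro k
    have : ((c k).val < Ns) := lt_of_lt_of_le k.2 hNs
    exact ((hord (c k)).1 this).2
  · intro k
    have : ((c k).val < Ns) := lt_of_lt_of_le k.2 hNs
    exact ((hord (c k)).1 this).1
  · exact fun k => (hEb (c k)).2.2

end CE
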