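import Mathlib

open MeasureTheory Filter Topology ENNReal
open scoped Laplacian

namespace CE

noncomputable section

/-- Euclidean space of dimension `d`. -/
abbrev EE (d : ℕ) := EuclideanSpace ℝ (Fin d)

/-- The Hilbert space `L²(ℝ^d)` of complex valued functions. -/
abbrev L2 (d : ℕ) := Lp ℂ 2 (volume : Measure (EE d))

/-- The graph of the Schrodinger operator `H = -ħ²Δ + V` in `L²(ℝ^d)` for a bounded potential `V`:
`u` is in the domain and `H u = g` iff `-ħ²Δu + Vu = g` in the sense of distributions. -/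
def SchrRel {d : ℕ} (ħ : ℝ) (V : EE d → ℂ) (u g : L2 d) : Prop :=
  ∀ φ : EE d → ℂ, ContDiff ℝ (⊤ : ℕ∞) φ → HasCompactSupport φ →
    ∫ x, u x * (-((ħ : ℂ) ^ 2) * (Δ φ) x + V x * φ x) = ∫ x, g x * φ x

/-- The root space (generalised eigenspace) of a linear relation `R` at `E`: all `v` which start a
chain `v = f 0, f 1, ..., f n = 0` with `(R - E) f j = f (j + 1)`. -/
def rootSp {X : Type} [AddCommGroup X] [Module ℂ X] (R : X → X → Prop) (E : ℂ) : Submodule ℂ X :=
  Submodule.span ℂ {v | ∃ (n : ℕ) (f : ℕ → X), f 0 = v ∧ f n = 0 ∧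
    ∀ j, j < n → R (f j) (E • f j + f (j + 1))}

/-- The algebraic multiplicity of `E` as an eigenvalue of `-ħ²Δ + V` (zero if `E` is not an
eigenvalue): the dimension of the root space. -/
def algMult {d : ℕ} (ħ : ℝ) (V : EE d → ℂ) (E : ℂ) : ℕ∞ :=
  Cardinal.toENat (Module.rank ℂ (rootSp (SchrRel ħ V) E))

/-- The half line `[0, ∞)` in the complex plane. -/
def halfLine : Set ℂ := {z | 0 ≤ z.re ∧ z.im = 0}

open Classical in
/-- `S_{γ,σ}(V, ħ)`: the sum of `|E|^{-σ} dist(E,[0,∞))^{γ+σ}` over all eigenvalues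
`E ∈ ℂ ∖ [0,∞)` of `-ħ²Δ + V`, counted with algebraic multiplicity. -/
def eigSum {d : ℕ} (γ σ ħ : ℝ) (V : EE d → ℂ) : ℝ≥0∞ :=
  ∑' E : ℂ, if E ∈ halfLine then 0 else
    (algMult ħ V E : ℝ≥0∞) *
      ENNReal.ofReal (‖E‖ ^ (-σ) * (Metric.infDist E halfLine) ^ (γ + σ))

/-- the potential `i` times the indicator of the cube `[0,1)^d` -/
def Vpot (d : ℕ) : EE d → ℂ :=
  Set.indicator {x : EE d | ∀ i, 0 ≤ x i ∧ x i < 1} (fun _ => Complex.I)

end

end CE
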