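import Pool.Agent.H631.Defs
import Pool.Agent.H631.Stmt

open MeasureTheory

namespace CE

noncomputable section

/-- integer part of `m x` -/
def fl (d m : ℕ) (x : EE d) : Fin d → ℤ := fun i => ⌊(m : ℝ) * x i⌋

/-- the box `[-R, R)^d` -/
def bx (d R : ℕ) : Set (EE d) := {x | ∀ i, -(R : ℝ) ≤ x i ∧ x i < R}

/-- the cell of `X` -/
def cell (d m : ℕ) (X : Fin d → ℤ) : Set (EE d) := {x | fl d m x = X}

theorem cell_eq (d m : ℕ) (hm : 0 < m) (X : Fin d → ℤ) :
    cell d m X = (@WithLp.ofLp 2 (Fin d → ℝ)) ⁻¹'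
      (Set.pi Set.univ fun i => Set.Ico ((X i : ℝ) / m) (((X i : ℝ) + 1) / m)) := by
  have hm' : (0 : ℝ) < m := by exact_mod_cast hm
  ext x
  simp only [cell, Set.mem_ofPred_eq, Set.mem_preimage, Set.mem_pi, Set.mem_univ,
    true_imp_iff, Set.mem_Ico]
  constructor
  · intro h i
    have hi : ⌊(m : ℝ) * x i⌋ = X i := congrFun h i
    rw [Int.floor_eq_iff] at hi
    rw [div_le_iff₀ hm', lt_div_iff₀ hm']
    constructor
    · rw [mul_comm]; exact hi.1
    · rw [mul_comm]; exact hi.2
  · intro h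
    funext i
    show ⌊(m : ℝ) * x i⌋ = X i
    rw [Int.floor_eq_iff]
    have hi := h i
    rw [div_le_iff₀ hm', lt_div_iff₀ hm'] at hi
    constructor
    · rw [mul_comm]; exact hi.1
    · rw [mul_comm]; exact hi.2

theorem cell_meas (d m : ℕ) (hm : 0 < m) (X : Fin d → ℤ) : MeasurableSet (cell d m X) := by
  rw [cell_eq d m hm X]
  exact (PiLp.volume_preserving_ofLp (Fin d)).measurable
    (MeasurableSet.univ_pi fun i => measurableSet_Ico)

theorem cell_vol (d m : ℕ) (hm : 0 < m) (X : Fin d → ℤ) :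
    (volume : Measure (EE d)) (cell d m X) = ENNReal.ofReal (1 / (m : ℝ)) ^ d := by
  rw [cell_eq d m hm X, (PiLp.volume_preserving_ofLp (Fin d)).measure_preimage
    (MeasurableSet.univ_pi fun i => measurableSet_Ico).nullMeasurableSet, Real.volume_pi_Ico]
  have : ∀ i : Fin d, ((X i : ℝ) + 1) / m - (X i : ℝ) / m = 1 / m := by
    intro i; ring
  simp only [this, Finset.prod_const, Finset.card_univ, Fintype.card_fin]

theorem cell_fin (d m : ℕ) (hm : 0 < m) (X : Fin d → ℤ) :
    (volume : Measure (EE d)) (cell d m X) ≠ ⊤ := by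
  rw [cell_vol d m hm X]
  exact ENNReal.pow_ne_top ENNReal.ofReal_ne_top

theorem cell_volr (d m : ℕ) (hm : 0 < m) (X : Fin d → ℤ) :
    (volume : Measure (EE d)).real (cell d m X) = ((m : ℝ) ^ d)⁻¹ := by
  rw [Measure.real, cell_vol d m hm X, ENNReal.toReal_pow, ENNReal.toReal_ofReal (by positivity),
    one_div, inv_pow]

theorem mem_bx_iff (d m R : ℕ) (hm : 0 < m) (x : EE d) :
    x ∈ bx d R ↔ fl d m x ∈ ibox d (R * m) := by
  have hm' : (0 : ℝ) < m := by exact_mod_cast hm
  simp only [bx, ibox, fl, Fintype.mem_piFinset, Finset.mem_Ico, Set.mem_ofPred_eq]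
  refine forall_congr' fun i => ?_
  rw [Int.le_floor, Int.floor_lt]
  push_cast
  constructor
  · rintro ⟨h1, h2⟩
    constructor <;> nlinarith
  · rintro ⟨h1, h2⟩
    constructor
    · by_contra h
      push Not at h
      nlinarith
    · by_contra h
      push Not at h
      nlinarith

theorem bx_meas (d R : ℕ) : MeasurableSet (bx d R) := by
  have : bx d R = (@WithLp.ofLp 2 (Fin d → ℝ)) ⁻¹'
      (Set.pi Set.univ fun i => Set.Ico (-(R : ℝ)) (R : ℝ)) := by
    ext x
    simp only [bx, Set.mem_ofPred_eq, Set.mem_preimage, Set.mem_pi, Set.mem_univ,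
      true_imp_iff, Set.mem_Ico]
  rw [this]
  exact (PiLp.volume_preserving_ofLp (Fin d)).measurable
    (MeasurableSet.univ_pi fun i => measurableSet_Ico)

theorem ind_eq (d m R : ℕ) (hm : 0 < m) (h : (Fin d → ℤ) → ℂ) :
    (bx d R).indicator (fun x => h (fl d m x)) =
      fun x => ∑ X ∈ ibox d (R * m), (cell d m X).indicator (fun _ => h X) x := by
  funext x
  by_cases hx : x ∈ bx d R
  · rw [Set.indicator_of_mem hx]
    have hx' := (mem_bx_iff d m R hm x).1 hx
    rw [Finset.sum_eq_single (fl d m x)]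
    · rw [Set.indicator_of_mem]
      rfl
    · intro Y _ hY
      rw [Set.indicator_of_notMem]
      intro h'
      exact hY h'.symm
    · intro h'; exact absurd hx' h'
  · rw [Set.indicator_of_notMem hx]
    symm
    apply Finset.sum_eq_zero
    intro Y hY
    rw [Set.indicator_of_notMem]
    intro h'
    apply hx
    rw [mem_bx_iff d m R hm x]
    have : fl d m x = Y := h'
    rw [this]; exact hY

theorem cell_integrable (d m R : ℕ) (hm : 0 < m) (h : (Fin d → ℤ) → ℂ) :
    IntegrableOn (fun x => h (fl d m x)) (bx d R) (volume : Measure (EE d)) := by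
  rw [← integrable_indicator_iff (bx_meas d R), ind_eq d m R hm h]
  apply integrable_finsetSum
  intro X _
  rw [integrable_indicator_iff (cell_meas d m hm X)]
  exact integrableOn_const (cell_fin d m hm X)

theorem cell_integral (d m R : ℕ) (hm : 0 < m) (h : (Fin d → ℤ) → ℂ) :
    ∫ x in bx d R, h (fl d m x) = ((m : ℂ) ^ d)⁻¹ * ∑ X ∈ ibox d (R * m), h X := by
  rw [← integral_indicator (bx_meas d R), ind_eq d m R hm h]
  rw [integral_finsetSum]
  · rw [Finset.mul_sum]
    refine Finset.sum_congr rfl fun X _ => ?_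
    rw [integral_indicator (cell_meas d m hm X), setIntegral_const, cell_volr d m hm X]
    rw [Complex.real_smul]
    push_cast
    rfl
  · intro X _
    rw [integrable_indicator_iff (cell_meas d m hm X)]
    exact integrableOn_const (cell_fin d m hm X)

/-- the step function attached to a function of integer vectors -/
def embF (d m R : ℕ) (g : (Fin d → ℤ) → ℂ) : EE d → ℂ :=
  (bx d R).indicator (fun x => ((Real.sqrt ((m : ℝ) ^ d) : ℝ) : ℂ) * g (fl d m x))

theorem embF_memLp (d m R : ℕ) (hm : 0 < m) (g : (Fin d → ℤ) → ℂ) :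
    MemLp (embF d m R g) 2 (volume : Measure (EE d)) := by
  unfold embF
  rw [ind_eq d m R hm (fun X => ((Real.sqrt ((m : ℝ) ^ d) : ℝ) : ℂ) * g X)]
  apply memLp_finsetSum
  intro X _
  exact memLp_indicator_const 2 (cell_meas d m hm X) _ (Or.inr (cell_fin d m hm X))

/-- the same as an element of `L²` -/
def emb (d m R : ℕ) (hm : 0 < m) (g : (Fin d → ℤ) → ℂ) :
    Lp ℂ 2 (volume : Measure (EE d)) := (embF_memLp d m R hm g).toLp (embF d m R g)

theorem emb_inner (d m R : ℕ) (hm : 0 < m) (g g' : (Fin d → ℤ) → ℂ) :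
    inner ℂ (emb d m R hm g) (emb d m R hm g') =
      ∑ X ∈ ibox d (R * m), (starRingEnd ℂ) (g X) * g' X := by
  have hm' : (0 : ℝ) < m := by exact_mod_cast hm
  rw [L2.inner_def]
  have h1 : (fun x => inner ℂ ((emb d m R hm g : EE d → ℂ) x) ((emb d m R hm g' : EE d → ℂ) x))
      =ᵐ[volume] (bx d R).indicator (fun x => (fun X => ((m : ℂ) ^ d) *
        ((starRingEnd ℂ) (g X) * g' X)) (fl d m x)) := by
    filter_upwards [(embF_memLp d m R hm g).coeFn_toLp, (embF_memLp d m R hm g').coeFn_toLp]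
      with x hx hx'
    simp only [emb]
    rw [hx, hx']
    unfold embF
    by_cases hb : x ∈ bx d R
    · rw [Set.indicator_of_mem hb, Set.indicator_of_mem hb, Set.indicator_of_mem hb]
      rw [RCLike.inner_apply, map_mul, Complex.conj_ofReal]
      have : ((Real.sqrt ((m : ℝ) ^ d) : ℝ) : ℂ) * ((Real.sqrt ((m : ℝ) ^ d) : ℝ) : ℂ)
          = (m : ℂ) ^ d := by
        rw [← Complex.ofReal_mul, Real.mul_self_sqrt (by positivity)]
        push_cast; rfl
      rw [← this]; ring
    · rw [Set.indicator_of_notMem hb, Set.indicator_of_notMem hb, Set.indicator_of_notMem hb]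
      simp
  rw [integral_congr_ae h1, integral_indicator (bx_meas d R),
    cell_integral d m R hm (fun X => ((m : ℂ) ^ d) * ((starRingEnd ℂ) (g X) * g' X)),
    ← Finset.mul_sum, ← mul_assoc, inv_mul_cancel₀, one_mul]
  exact pow_ne_zero _ (by exact_mod_cast hm.ne')

theorem emb_norm_sq (d m R : ℕ) (hm : 0 < m) (g : (Fin d → ℤ) → ℂ) :
    ‖emb d m R hm g‖ ^ 2 = ∑ X ∈ ibox d (R * m), ‖g X‖ ^ 2 := by
  have h := emb_inner d m R hm g g
  rw [inner_self_eq_norm_sq_to_K] at h
  have h2 : ∀ X, (starRingEnd ℂ) (g X) * g X = ((‖g X‖ ^ 2 : ℝ) : ℂ) := by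
    intro X
    rw [mul_comm, Complex.mul_conj, Complex.normSq_eq_norm_sq]
  simp only [h2] at h
  rw [← Complex.ofReal_sum] at h
  have h3 : ((‖emb d m R hm g‖ ^ 2 : ℝ) : ℂ) = ((∑ X ∈ ibox d (R * m), ‖g X‖ ^ 2 : ℝ) : ℂ) := by
    rw [← h]; push_cast; rfl
  exact_mod_cast h3

theorem emb_congr (d m m' R R' : ℕ) (hm : 0 < m) (hm' : 0 < m') (g g' : (Fin d → ℤ) → ℂ)
    (h : embF d m R g = embF d m' R' g') : emb d m R hm g = emb d m' R' hm' g' := by
  unfold emb
  rw [MemLp.toLp_eq_toLp_iff]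
  rw [h]

theorem emb_add (d m R : ℕ) (hm : 0 < m) (g g' : (Fin d → ℤ) → ℂ) :
    emb d m R hm (g + g') = emb d m R hm g + emb d m R hm g' := by
  unfold emb
  rw [← MemLp.toLp_add, MemLp.toLp_eq_toLp_iff]
  refine Filter.Eventually.of_forall fun x => ?_
  simp only [Pi.add_apply]
  unfold embF
  by_cases hb : x ∈ bx d R
  · rw [Set.indicator_of_mem hb, Set.indicator_of_mem hb, Set.indicator_of_mem hb]
    rw [Pi.add_apply]; ring
  · rw [Set.indicator_of_notMem hb, Set.indicator_of_notMem hb, Set.indicator_of_notMem hb]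
    simp

theorem emb_smul (d m R : ℕ) (hm : 0 < m) (c : ℂ) (g : (Fin d → ℤ) → ℂ) :
    emb d m R hm (c • g) = c • emb d m R hm g := by
  unfold emb
  rw [← MemLp.toLp_const_smul, MemLp.toLp_eq_toLp_iff]
  refine Filter.Eventually.of_forall fun x => ?_
  simp only [Pi.smul_apply]
  unfold embF
  by_cases hb : x ∈ bx d R
  · rw [Set.indicator_of_mem hb, Set.indicator_of_mem hb]
    rw [Pi.smul_apply, smul_eq_mul, smul_eq_mul]; ring
  · rw [Set.indicator_of_notMem hb, Set.indicator_of_notMem hb]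
    simp

/-- `emb` as a linear map -/
def embL (d m R : ℕ) (hm : 0 < m) :
    ((Fin d → ℤ) → ℂ) →ₗ[ℂ] Lp ℂ 2 (volume : Measure (EE d)) where
  toFun := emb d m R hm
  map_add' := emb_add d m R hm
  map_smul' := fun c g => emb_smul d m R hm c g

/-- extension by zero -/
def extL (d L : ℕ) : (↥(ibox d L) → ℂ) →ₗ[ℂ] ((Fin d → ℤ) → ℂ) where
  toFun := fun f X => if h : X ∈ ibox d L then f ⟨X, h⟩ else 0
  map_add' := by
    intro f g
    funext X
    by_cases h : X ∈ ibox d L <;> simp [h]
  map_smul' := by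
    intro c f
    funext X
    by_cases h : X ∈ ibox d L <;> simp [h]

/-- the range of the embedding is finite-dimensional -/
theorem emb_range (d m R : ℕ) (hm : 0 < m) :
    ∃ W : Submodule ℂ (Lp ℂ 2 (volume : Measure (EE d))), FiniteDimensional ℂ W ∧
      ∀ g : (Fin d → ℤ) → ℂ, emb d m R hm g ∈ W := by
  refine ⟨LinearMap.range ((embL d m R hm).comp (extL d (R * m))), inferInstance, fun g => ?_⟩
  refine ⟨fun X => g X.1, ?_⟩
  change emb d m R hm _ = _
  apply emb_congr
  funext x
  unfold embF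
  by_cases hb : x ∈ bx d R
  · rw [Set.indicator_of_mem hb, Set.indicator_of_mem hb]
    have := (mem_bx_iff d m R hm x).1 hb
    simp only [extL, LinearMap.coe_mk, AddHom.coe_mk, this, dif_pos]
  · rw [Set.indicator_of_notMem hb, Set.indicator_of_notMem hb]

/-- a coarse step function is a fine step function -/
theorem emb_refine (d n m' m R ρ : ℕ) (hn : 0 < n) (hm' : 0 < m') (hm : 0 < m) (hmn : m = n * m')
    (hρ : ρ ≤ R) (g : (Fin d → ℤ) → ℂ) :
    emb d m' ρ hm' g = emb d m R hm (fun X =>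
      if X ∈ ibox d (ρ * m) then
        (((Real.sqrt ((n : ℝ) ^ d))⁻¹ : ℝ) : ℂ) * g (fun i => X i / (n : ℤ)) else 0) := by
  have hn' : (0 : ℝ) < n := by exact_mod_cast hn
  apply emb_congr
  funext x
  unfold embF
  by_cases hb : x ∈ bx d ρ
  · have hb' : x ∈ bx d R := by
      intro i
      have h1 : (ρ : ℝ) ≤ R := by exact_mod_cast hρ
      have h2 := hb i
      constructor <;> linarith [h2.1, h2.2]
    rw [Set.indicator_of_mem hb, Set.indicator_of_mem hb']
    beta_reduce
    rw [if_pos ((mem_bx_iff d m ρ hm x).1 hb)]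
    have hfl : (fun i => fl d m x i / (n : ℤ)) = fl d m' x := by
      funext i
      simp only [fl]
      rw [← Int.floor_div_natCast]
      congr 1
      rw [hmn]
      push_cast
      field_simp
    rw [hfl, ← mul_assoc]
    congr 1
    rw [← Complex.ofReal_mul]
    congr 1
    rw [hmn]
    push_cast
    rw [mul_pow, Real.sqrt_mul (by positivity)]
    have : Real.sqrt ((n : ℝ) ^ d) ≠ 0 := (Real.sqrt_pos.2 (by positivity)).ne'
    field_simp
  · rw [Set.indicator_of_notMem hb]
    by_cases hb' : x ∈ bx d R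
    · rw [Set.indicator_of_mem hb']
      beta_reduce
      rw [if_neg, mul_zero]
      intro h
      exact hb ((mem_bx_iff d m ρ hm x).2 h)
    · rw [Set.indicator_of_notMem hb']

end

end CE
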