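import Pool.Agent.H631.Defs

open Matrix Finset

namespace CE

section expo

variable {n : Type*} [Fintype n] [DecidableEq n]

open scoped Matrix.Norms.Operator in
lemma he_hasSum (A : Matrix n n ℝ) (x z : n) :
    HasSum (fun k : ℕ => ((k.factorial : ℝ)⁻¹) * (A ^ k) x z) (NormedSpace.exp A x z) := by
  have h := NormedSpace.exp_series_hasSum_exp' (𝕂 := ℝ) A
  have h1 := (Pi.hasSum.1 h) x
  have h2 := (Pi.hasSum.1 h1) z
  have e : (fun k : ℕ => ((k.factorial : ℝ)⁻¹) * (A ^ k) x z) =
      fun k : ℕ => ((k.factorial : ℝ)⁻¹ • A ^ k) x z := by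
    funext k; rfl
  rw [e]
  exact h2

lemma he_pow_nonneg {A : Matrix n n ℝ} (hA : ∀ x z, 0 ≤ A x z) (k : ℕ) : ∀ x z, 0 ≤ (A ^ k) x z := by
  induction k with
  | zero =>
    intro x z
    rw [pow_zero, Matrix.one_apply]
    split_ifs <;> norm_num
  | succ k ih =>
    intro x z
    rw [pow_succ, Matrix.mul_apply]
    exact Finset.sum_nonneg fun y _ => mul_nonneg (ih _ _) (hA _ _)

lemma he_exp_nonneg {A : Matrix n n ℝ} (hA : ∀ x z, 0 ≤ A x z) (x z : n) :
    0 ≤ NormedSpace.exp A x z := by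
  have h := he_hasSum A x z
  rw [← h.tsum_eq]
  exact tsum_nonneg fun k => mul_nonneg (by positivity) (he_pow_nonneg hA k x z)

open scoped Matrix.Norms.Operator in
lemma he_exp_smul_one (t : ℝ) :
    NormedSpace.exp (t • (1 : Matrix n n ℝ)) = Real.exp t • (1 : Matrix n n ℝ) := by
  have h := NormedSpace.algebraMap_exp_comm (𝕂 := ℝ) (𝔸 := Matrix n n ℝ) t
  rw [Algebra.algebraMap_eq_smul_one, Algebra.algebraMap_eq_smul_one] at h
  rw [Real.exp_eq_exp_ℝ]
  exact h.symm

open scoped Matrix.Norms.Operator in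
lemma he_deriv (L : Matrix n n ℝ) (v : n → ℝ) (x : n) (s : ℝ) :
    HasDerivAt (fun s : ℝ => ∑ z, NormedSpace.exp (s • L) x z * v z)
      (∑ z, NormedSpace.exp (s • L) x z * ∑ y, L z y * v y) s := by
  have h := hasDerivAt_exp_smul_const L s
  let φ : Matrix n n ℝ →ₗ[ℝ] ℝ :=
    { toFun := fun M => ∑ z, M x z * v z
      map_add' := fun M M' => by
        simp only [Matrix.add_apply, add_mul, Finset.sum_add_distrib]
      map_smul' := fun c M => by
        simp only [Matrix.smul_apply, smul_eq_mul, mul_assoc, Finset.mul_sum, RingHom.id_apply] }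
  have h2 := (LinearMap.toContinuousLinearMap φ).hasFDerivAt.comp_hasDerivAt s h
  have e : (LinearMap.toContinuousLinearMap φ) (NormedSpace.exp (s • L) * L) =
      ∑ z, NormedSpace.exp (s • L) x z * ∑ y, L z y * v y := by
    simp only [LinearMap.coe_toContinuousLinearMap', φ, LinearMap.coe_mk, AddHom.coe_mk,
      Matrix.mul_apply, Finset.sum_mul, Finset.mul_sum]
    rw [Finset.sum_comm]
    refine Finset.sum_congr rfl fun a _ => Finset.sum_congr rfl fun b _ => by ring
  exact h2.congr_deriv e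

/-- if `L v ≤ C` and the semigroup is positive and stochastic, the expectation grows at most linearly -/
lemma he_growth (L : Matrix n n ℝ) (hpos : ∀ s : ℝ, 0 ≤ s → ∀ x z, 0 ≤ NormedSpace.exp (s • L) x z)
    (hrow : ∀ x, ∑ y, L x y = 0) (v : n → ℝ) (C : ℝ) (hC : ∀ x, ∑ y, L x y * v y ≤ C) (x : n)
    (s : ℝ) (hs : 0 ≤ s) :
    (∑ z, NormedSpace.exp (s • L) x z = 1) ∧
      ∑ z, NormedSpace.exp (s • L) x z * v z ≤ v x + C * s := by
  have h1 : ∀ s : ℝ, ∑ z, NormedSpace.exp (s • L) x z = 1 := by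
    have hd : ∀ s : ℝ, HasDerivAt (fun s : ℝ => ∑ z, NormedSpace.exp (s • L) x z * (1 : ℝ)) 0 s := by
      intro s
      have := he_deriv L (fun _ => (1 : ℝ)) x s
      simpa [hrow] using this
    have hdiff : Differentiable ℝ (fun s : ℝ => ∑ z, NormedSpace.exp (s • L) x z * (1 : ℝ)) :=
      fun s => (hd s).differentiableAt
    intro s
    have hc := is_const_of_deriv_eq_zero hdiff (fun s => (hd s).deriv) s 0
    simp only [mul_one, zero_smul, NormedSpace.exp_zero, Matrix.one_apply] at hc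
    rw [hc]
    simp
  refine ⟨h1 s, ?_⟩
  let F : ℝ → ℝ := fun s => ∑ z, NormedSpace.exp (s • L) x z * v z - C * s
  have hF : ∀ s, HasDerivAt F (∑ z, NormedSpace.exp (s • L) x z * (∑ y, L z y * v y) - C) s := by
    intro s
    have a1 := he_deriv L v x s
    have a2 : HasDerivAt (fun s : ℝ => C * s) C s := by
      simpa using (hasDerivAt_id s).const_mul C
    exact a1.sub a2
  have hanti : AntitoneOn F (Set.Ici 0) := by
    apply antitoneOn_of_deriv_nonpos (convex_Ici 0)
    · exact fun s _ => (hF s).continuousAt.continuousWithinAt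
    · exact fun s _ => (hF s).differentiableAt.differentiableWithinAt
    · intro s hs
      rw [interior_Ici] at hs
      rw [(hF s).deriv]
      have h3 : ∑ z, NormedSpace.exp (s • L) x z * (∑ y, L z y * v y) ≤
          ∑ z, NormedSpace.exp (s • L) x z * C :=
        Finset.sum_le_sum fun z _ => mul_le_mul_of_nonneg_left (hC z) (hpos s (le_of_lt hs) x z)
      rw [← Finset.sum_mul, h1 s, one_mul] at h3
      linarith
  have h4 := hanti (Set.mem_Ici.2 le_rfl) (Set.mem_Ici.2 hs) hs
  have h5 : F 0 = v x := by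
    simp only [F, zero_smul, NormedSpace.exp_zero, Matrix.one_apply, mul_zero, sub_zero]
    simp
  rw [h5] at h4
  simp only [F] at h4
  linarith

end expo

section torus

set_option linter.unusedSectionVars false

variable {d M : ℕ} [NeZero M]

/-- neighbours matrix -/
def heB (d M : ℕ) (c : ℝ) : Matrix (Tor d M) (Tor d M) ℝ :=
  fun x y => c * ∑ i : Fin d, ((if y = x + Pi.single i 1 then 1 else 0)
    + (if y = x - Pi.single i 1 then 1 else 0))

lemma he_decomp (c s : ℝ) :
    -(s • lapM d M c) = (-(2 * d * c * s)) • (1 : Matrix (Tor d M) (Tor d M) ℝ) + s • heB d M c := by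
  ext x y
  simp only [Matrix.neg_apply, Matrix.smul_apply, Matrix.add_apply, Matrix.one_apply, lapM, heB,
    smul_eq_mul, Finset.sum_sub_distrib, Finset.sum_add_distrib, Finset.sum_const, Finset.card_univ,
    Fintype.card_fin, nsmul_eq_mul, eq_comm (a := y) (b := x)]
  split_ifs <;> ring

lemma he_pos (c : ℝ) (hc : 0 ≤ c) (s : ℝ) (hs : 0 ≤ s) (x z : Tor d M) :
    0 ≤ NormedSpace.exp (-(s • lapM d M c)) x z := by
  rw [he_decomp, Matrix.exp_add_of_commute _ _ ((Commute.one_left _).smul_left _), he_exp_smul_one,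
    smul_mul_assoc, one_mul, Matrix.smul_apply, smul_eq_mul]
  refine mul_nonneg (Real.exp_pos _).le (he_exp_nonneg ?_ x z)
  intro x z
  simp only [Matrix.smul_apply, heB, smul_eq_mul]
  refine mul_nonneg hs (mul_nonneg hc (Finset.sum_nonneg fun i _ => ?_))
  split_ifs <;> norm_num

lemma he_trans (c s : ℝ) (x z : Tor d M) :
    NormedSpace.exp (-(s • lapM d M c)) x z = NormedSpace.exp (-(s • lapM d M c)) 0 (z - x) := by
  have h1 : ∀ a x z : Tor d M, (-(s • lapM d M c)) (x + a) (z + a) = (-(s • lapM d M c)) x z := by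
    intro a x z
    simp only [Matrix.neg_apply, Matrix.smul_apply, lapM, smul_eq_mul]
    have e1 : (z + a = x + a) = (z = x) := by simp
    have e2 : ∀ i : Fin d, (z + a = x + a + Pi.single i 1) = (z = x + Pi.single i 1) := by
      intro i
      rw [add_right_comm]; simp
    have e3 : ∀ i : Fin d, (z + a = x + a - Pi.single i 1) = (z = x - Pi.single i 1) := by
      intro i
      rw [add_sub_right_comm]; simp
    simp only [e1, e2, e3]
  have h2 : ∀ (k : ℕ) (a x z : Tor d M), ((-(s • lapM d M c)) ^ k) (x + a) (z + a) =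
      ((-(s • lapM d M c)) ^ k) x z := by
    intro k
    induction k with
    | zero =>
      intro a x z
      simp only [pow_zero, Matrix.one_apply]
      simp
    | succ k ih =>
      intro a x z
      rw [pow_succ, Matrix.mul_apply, Matrix.mul_apply]
      rw [← Equiv.sum_comp (Equiv.addRight a)]
      refine Finset.sum_congr rfl fun y _ => ?_
      simp only [Equiv.coe_addRight]
      rw [ih, h1]
  have h3 := he_hasSum (-(s • lapM d M c)) x z
  have h4 := he_hasSum (-(s • lapM d M c)) 0 (z - x)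
  have h5 : (fun k : ℕ => ((k.factorial : ℝ)⁻¹) * ((-(s • lapM d M c)) ^ k) x z) =
      fun k : ℕ => ((k.factorial : ℝ)⁻¹) * ((-(s • lapM d M c)) ^ k) 0 (z - x) := by
    funext k
    have := h2 k x 0 (z - x)
    rw [zero_add, sub_add_cancel] at this
    rw [this]
  rw [h5] at h3
  exact h3.unique h4

/-- distance to zero on the cycle -/
def heA (b : ZMod M) : ℕ := (ZMod.valMinAbs b).natAbs

lemma heA_le (b : ZMod M) (t : ℤ) (ht : (t : ZMod M) = b) : heA b ≤ t.natAbs := by
  refine ZMod.natAbs_min_of_le_div_two M _ _ ?_ (ZMod.natAbs_valMinAbs_le b)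
  rw [ZMod.coe_valMinAbs, ht]

lemma heA_sq (a : ZMod M) : ((heA (a + 1) : ℝ)) ^ 2 + (heA (a - 1) : ℝ) ^ 2 - 2 * (heA a : ℝ) ^ 2 ≤ 2 := by
  obtain ⟨k, hk⟩ : ∃ k : ℤ, k = ZMod.valMinAbs a := ⟨_, rfl⟩
  have hka : (k : ZMod M) = a := by rw [hk]; exact ZMod.coe_valMinAbs a
  have h1 := heA_le (a + 1) (k + 1) (by push_cast; rw [hka])
  have h2 := heA_le (a - 1) (k - 1) (by push_cast; rw [hka])
  have h3 : ((heA a : ℝ)) ^ 2 = (k : ℝ) ^ 2 := by
    unfold heA
    rw [← hk, Nat.cast_natAbs, Int.cast_abs, sq_abs]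
  have h4 : ((heA (a + 1) : ℝ)) ^ 2 ≤ ((k : ℝ) + 1) ^ 2 := by
    have : ((heA (a + 1) : ℝ)) ≤ |(k : ℝ) + 1| := by
      have h : ((heA (a + 1) : ℝ)) ≤ ((k + 1).natAbs : ℝ) := by exact_mod_cast h1
      rwa [Nat.cast_natAbs, Int.cast_abs, Int.cast_add, Int.cast_one] at h
    rw [← sq_abs ((k : ℝ) + 1)]
    gcongr
  have h5 : ((heA (a - 1) : ℝ)) ^ 2 ≤ ((k : ℝ) - 1) ^ 2 := by
    have : ((heA (a - 1) : ℝ)) ≤ |(k : ℝ) - 1| := by
      have h : ((heA (a - 1) : ℝ)) ≤ ((k - 1).natAbs : ℝ) := by exact_mod_cast h2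
      rwa [Nat.cast_natAbs, Int.cast_abs, Int.cast_sub, Int.cast_one] at h
    rw [← sq_abs ((k : ℝ) - 1)]
    gcongr
  rw [h3]
  nlinarith

lemma he_sumL (c : ℝ) (x : Tor d M) (v : Tor d M → ℝ) :
    ∑ y, (-lapM d M c) x y * v y =
      c * ∑ i : Fin d, (v (x + Pi.single i 1) + v (x - Pi.single i 1) - 2 * v x) := by
  simp only [Matrix.neg_apply, lapM]
  have : ∀ y, -(c * ∑ i : Fin d, ((if y = x then (2 : ℝ) else 0) -
      (if y = x + Pi.single i 1 then 1 else 0) - (if y = x - Pi.single i 1 then 1 else 0))) * v y =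
      ∑ i : Fin d, c * ((if y = x + Pi.single i 1 then v y else 0) +
        (if y = x - Pi.single i 1 then v y else 0) - 2 * (if y = x then v y else 0)) := by
    intro y
    rw [← Finset.mul_sum, ← mul_neg, mul_assoc, ← Finset.sum_neg_distrib, Finset.sum_mul]
    congr 1
    refine Finset.sum_congr rfl fun i _ => ?_
    split_ifs <;> ring
  rw [Finset.sum_congr rfl fun y _ => this y, Finset.sum_comm, Finset.mul_sum]
  refine Finset.sum_congr rfl fun i _ => ?_
  rw [← Finset.mul_sum, Finset.sum_sub_distrib, Finset.sum_add_distrib, ← Finset.mul_sum]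
  simp

lemma he_row (c : ℝ) (x : Tor d M) : ∑ y, (-lapM d M c) x y = 0 := by
  have := he_sumL c x (fun _ => 1)
  simp only [mul_one] at this
  rw [this]
  norm_num

lemma he_Lrho (c : ℝ) (hc : 0 ≤ c) (i : Fin d) (x : Tor d M) :
    ∑ y, (-lapM d M c) x y * ((heA (y i) : ℝ)) ^ 2 ≤ 2 * c := by
  rw [he_sumL c x (fun y => ((heA (y i) : ℝ)) ^ 2)]
  have h1 : ∑ j : Fin d, (((heA ((x + Pi.single j 1 : Tor d M) i) : ℝ)) ^ 2 +
      ((heA ((x - Pi.single j 1 : Tor d M) i) : ℝ)) ^ 2 - 2 * ((heA (x i) : ℝ)) ^ 2) ≤ 2 := by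
    rw [Finset.sum_eq_single i]
    · simp only [Pi.add_apply, Pi.sub_apply, Pi.single_eq_same]
      exact heA_sq (x i)
    · intro j _ hj
      simp only [Pi.add_apply, Pi.sub_apply]
      rw [Pi.single_eq_of_ne (Ne.symm hj), add_zero, sub_zero]
      ring
    · intro h; exact absurd (Finset.mem_univ i) h
  calc c * _ ≤ c * 2 := mul_le_mul_of_nonneg_left h1 hc
    _ = 2 * c := by ring

lemma he_card1 (m : ℕ) (b : ZMod M) :
    (Finset.univ.filter fun a : ZMod M => a.val < m ∧ m ≤ (a + b).val).card ≤ heA b := by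
  rcases le_or_gt 0 (ZMod.valMinAbs b) with h | h
  · have hA : (heA b : ℤ) = ZMod.valMinAbs b := Int.natAbs_of_nonneg h
    have hb : b.val = heA b := by
      have h2 := ZMod.valMinAbs_nonneg_iff b |>.1 h
      have h3 := ZMod.valMinAbs_def_pos b
      rw [if_pos (by omega)] at h3
      omega
    have : (Finset.univ.filter fun a : ZMod M => a.val < m ∧ m ≤ (a + b).val).image ZMod.val ⊆
        Finset.Ico (m - heA b) m := by
      intro t ht
      rw [Finset.mem_image] at ht
      obtain ⟨a, ha, rfl⟩ := ht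
      rw [Finset.mem_filter] at ha
      have h1 := ZMod.val_add_le a b
      rw [Finset.mem_Ico]
      omega
    have h2 := Finset.card_le_card this
    rw [Finset.card_image_of_injective _ (ZMod.val_injective M), Nat.card_Ico] at h2
    omega
  · have hA : (heA b : ℤ) = -ZMod.valMinAbs b := Int.ofNat_natAbs_of_nonpos h.le
    have h3 := ZMod.valMinAbs_def_pos b
    have hlt := ZMod.val_lt b
    split_ifs at h3 with h4
    · omega
    have hb0 : b ≠ 0 := by
      rintro rfl
      rw [ZMod.valMinAbs_zero] at h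
      exact lt_irrefl _ h
    have hneg : (-b).val = heA b := by
      rw [ZMod.neg_val, if_neg hb0]; omega
    have : (Finset.univ.filter fun a : ZMod M => a.val < m ∧ m ≤ (a + b).val).image ZMod.val ⊆
        Finset.range (heA b) := by
      intro t ht
      rw [Finset.mem_image] at ht
      obtain ⟨a, ha, rfl⟩ := ht
      rw [Finset.mem_filter] at ha
      rw [Finset.mem_range]
      by_contra hc
      push Not at hc
      have h1 := ZMod.val_sub (a := a) (b := -b) (by omega)
      rw [sub_neg_eq_add] at h1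
      omega
    have h2 := Finset.card_le_card this
    rwa [Finset.card_image_of_injective _ (ZMod.val_injective M), Finset.card_range] at h2

open Classical in
lemma he_card (m : ℕ) (g : Tor d M) :
    (Finset.univ.filter fun x : Tor d M => x ∈ cubeQ d M m ∧ x + g ∉ cubeQ d M m).card ≤
      ∑ i : Fin d, heA (g i) * m ^ (d - 1) := by
  have hcube : (Finset.univ.filter fun a : ZMod M => a.val < m).card ≤ m := by
    have : (Finset.univ.filter fun a : ZMod M => a.val < m).image ZMod.val ⊆ Finset.range m := by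
      intro t ht
      rw [Finset.mem_image] at ht
      obtain ⟨a, ha, rfl⟩ := ht
      rw [Finset.mem_filter] at ha
      rw [Finset.mem_range]
      exact ha.2
    have h2 := Finset.card_le_card this
    rwa [Finset.card_image_of_injective _ (ZMod.val_injective M), Finset.card_range] at h2
  have hsub : (Finset.univ.filter fun x : Tor d M => x ∈ cubeQ d M m ∧ x + g ∉ cubeQ d M m) ⊆
      Finset.univ.biUnion fun i : Fin d => Fintype.piFinset fun j : Fin d =>
        if j = i then Finset.univ.filter fun a : ZMod M => a.val < m ∧ m ≤ (a + g i).val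
        else Finset.univ.filter fun a : ZMod M => a.val < m := by
    intro x hx
    rw [Finset.mem_filter] at hx
    obtain ⟨-, hx1, hx2⟩ := hx
    have hx1' : ∀ i, (x i).val < m := hx1
    have hx2' : ¬ ∀ i, ((x + g) i).val < m := hx2
    push Not at hx2'
    obtain ⟨i, hi⟩ := hx2'
    rw [Finset.mem_biUnion]
    refine ⟨i, Finset.mem_univ _, ?_⟩
    rw [Fintype.mem_piFinset]
    intro j
    split_ifs with h
    · subst h
      rw [Finset.mem_filter]
      exact ⟨Finset.mem_univ _, hx1' j, hi⟩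
    · rw [Finset.mem_filter]
      exact ⟨Finset.mem_univ _, hx1' j⟩
  refine (Finset.card_le_card hsub).trans (Finset.card_biUnion_le.trans ?_)
  refine Finset.sum_le_sum fun i _ => ?_
  rw [Fintype.card_piFinset, ← Finset.mul_prod_erase _ _ (Finset.mem_univ i), if_pos rfl]
  refine Nat.mul_le_mul (he_card1 m (g i)) ?_
  calc ∏ j ∈ Finset.univ.erase i, (if j = i then Finset.univ.filter fun a : ZMod M =>
        a.val < m ∧ m ≤ (a + g i).val else Finset.univ.filter fun a : ZMod M => a.val < m).card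
      ≤ ∏ j ∈ (Finset.univ : Finset (Fin d)).erase i, m := by
        refine Finset.prod_le_prod' fun j hj => ?_
        rw [if_neg (Finset.ne_of_mem_erase hj)]
        exact hcube
    _ = m ^ (d - 1) := by
        rw [Finset.prod_const, Finset.card_erase_of_mem (Finset.mem_univ i), Finset.card_univ,
          Fintype.card_fin]

end torus

open Classical in
/-- the heat flow out of the cube -/
theorem heat_exit (d M m : ℕ) [NeZero M] (hm : m ≤ M) (c : ℝ) (hc : 0 ≤ c) (s : ℝ) (hs : 0 ≤ s) :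
    (∑ x : Tor d M, ∑ z : Tor d M, if x ∈ cubeQ d M m ∧ z ∉ cubeQ d M m then
      NormedSpace.exp (-(s • lapM d M c)) x z else 0) ≤
      d * (m : ℝ) ^ (d - 1) * Real.sqrt (2 * c * s) := by
  have hL : ∀ s : ℝ, -(s • lapM d M c) = s • (-lapM d M c) := fun s => by rw [smul_neg]
  obtain ⟨q, hq⟩ : ∃ q : Tor d M → ℝ, q = fun g => NormedSpace.exp (-(s • lapM d M c)) 0 g :=
    ⟨_, rfl⟩
  have hq0 : ∀ g, 0 ≤ q g := fun g => by rw [hq]; exact he_pos c hc s hs 0 g
  have hgrow : ∀ i : Fin d, (∑ g, q g = 1) ∧ ∑ g, q g * ((heA (g i) : ℝ)) ^ 2 ≤ 2 * c * s := by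
    intro i
    have h1 := he_growth (-lapM d M c) (fun s hs x z => by rw [← hL]; exact he_pos c hc s hs x z)
      (he_row c) (fun y => ((heA (y i) : ℝ)) ^ 2) (2 * c) (he_Lrho c hc i) 0 s hs
    rw [← hL] at h1
    have h2 : heA ((0 : Tor d M) i) = 0 := by
      unfold heA; rw [Pi.zero_apply, ZMod.valMinAbs_zero]; rfl
    rw [h2] at h1
    rw [hq]
    simpa using h1
  have hCS : ∀ i : Fin d, ∑ g, q g * (heA (g i) : ℝ) ≤ Real.sqrt (2 * c * s) := by
    intro i
    apply Real.le_sqrt_of_sq_le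
    have h1 := Finset.sum_mul_sq_le_sq_mul_sq (Finset.univ : Finset (Tor d M))
      (fun g => Real.sqrt (q g)) (fun g => Real.sqrt (q g) * (heA (g i) : ℝ))
    have e1 : ∀ g, Real.sqrt (q g) * (Real.sqrt (q g) * (heA (g i) : ℝ)) = q g * (heA (g i) : ℝ) := by
      intro g
      rw [← mul_assoc, Real.mul_self_sqrt (hq0 g)]
    have e2 : ∀ g, Real.sqrt (q g) ^ 2 = q g := fun g => Real.sq_sqrt (hq0 g)
    have e3 : ∀ g, (Real.sqrt (q g) * (heA (g i) : ℝ)) ^ 2 = q g * ((heA (g i) : ℝ)) ^ 2 := by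
      intro g
      rw [mul_pow, e2]
    simp only [e1, e2, e3] at h1
    rw [(hgrow i).1, one_mul] at h1
    exact h1.trans (hgrow i).2
  -- rearrange
  have h1 : (∑ x : Tor d M, ∑ z : Tor d M, if x ∈ cubeQ d M m ∧ z ∉ cubeQ d M m then
      NormedSpace.exp (-(s • lapM d M c)) x z else 0) =
      ∑ g : Tor d M, q g *
        ((Finset.univ.filter fun x : Tor d M => x ∈ cubeQ d M m ∧ x + g ∉ cubeQ d M m).card : ℝ) := by
    have h2 : ∀ x : Tor d M, (∑ z : Tor d M, if x ∈ cubeQ d M m ∧ z ∉ cubeQ d M m then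
        NormedSpace.exp (-(s • lapM d M c)) x z else 0) =
        ∑ g : Tor d M, if x ∈ cubeQ d M m ∧ x + g ∉ cubeQ d M m then q g else 0 := by
      intro x
      have hsh : ∀ F : Tor d M → ℝ, ∑ z, F z = ∑ g, F (x + g) := fun F =>
        (Equiv.sum_comp (Equiv.addLeft x) F).symm
      rw [hsh (fun z => if x ∈ cubeQ d M m ∧ z ∉ cubeQ d M m then
        NormedSpace.exp (-(s • lapM d M c)) x z else 0)]
      refine Finset.sum_congr rfl fun g _ => ?_
      try dsimp only
      rw [he_trans, add_sub_cancel_left, hq]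
    rw [Finset.sum_congr rfl fun x _ => h2 x, Finset.sum_comm]
    refine Finset.sum_congr rfl fun g _ => ?_
    rw [← Finset.sum_filter, Finset.sum_const, nsmul_eq_mul, mul_comm]
  rw [h1]
  calc ∑ g : Tor d M, q g *
        ((Finset.univ.filter fun x : Tor d M => x ∈ cubeQ d M m ∧ x + g ∉ cubeQ d M m).card : ℝ)
      ≤ ∑ g : Tor d M, q g * ∑ i : Fin d, (heA (g i) : ℝ) * (m : ℝ) ^ (d - 1) := by
        refine Finset.sum_le_sum fun g _ => mul_le_mul_of_nonneg_left ?_ (hq0 g)
        have := he_card m g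
        exact_mod_cast this
    _ = ∑ i : Fin d, (m : ℝ) ^ (d - 1) * ∑ g, q g * (heA (g i) : ℝ) := by
        simp only [Finset.mul_sum]
        rw [Finset.sum_comm]
        refine Finset.sum_congr rfl fun i _ => Finset.sum_congr rfl fun g _ => by ring
    _ ≤ ∑ i : Fin d, (m : ℝ) ^ (d - 1) * Real.sqrt (2 * c * s) :=
        Finset.sum_le_sum fun i _ => mul_le_mul_of_nonneg_left (hCS i) (by positivity)
    _ = d * (m : ℝ) ^ (d - 1) * Real.sqrt (2 * c * s) := by
        rw [Finset.sum_const, Finset.card_univ, Fintype.card_fin, nsmul_eq_mul]; ring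

end CE
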