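import Pool.Agent.H631.Stmt

open Filter Topology ENNReal

namespace CE

lemma abel_pt (a : ℕ → ℝ) (ind : ℕ → Prop) [DecidablePred ind] (G : ℝ) (hG : 0 ≤ G)
    (ha : ∀ i, ind i → a i ≤ G) (hmono : ∀ i, ind i → ind (i + 1)) (ha0 : ∀ i, 0 ≤ a i)
    (r : ℕ) :
    ∑ i ∈ Finset.range r, (if ind i then a i - a (i + 1) else 0) ≤ G := by
  have key : ∀ r, (∑ i ∈ Finset.range r, (if ind i then a i - a (i + 1) else 0)) +
      (if ind r then a r else 0) ≤ G ∧
      (¬ ind r → (∑ i ∈ Finset.range r, (if ind i then a i - a (i + 1) else 0)) = 0) := by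
    intro r
    induction r with
    | zero =>
      constructor
      · by_cases h : ind 0
        · simpa [h] using ha 0 h
        · simpa [h] using hG
      · intro _; simp
    | succ r ih =>
      obtain ⟨ih1, ih2⟩ := ih
      rw [Finset.sum_range_succ]
      by_cases h : ind r
      · have h' := hmono r h
        simp only [h, h', if_true] at ih1 ⊢
        constructor
        · linarith
        · intro hc; exact absurd trivial hc
      · have e := ih2 h
        rw [e]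
        simp only [h, if_false, add_zero, zero_add]
        constructor
        · by_cases h' : ind (r + 1)
          · simpa [h'] using ha _ h'
          · simpa [h'] using hG
        · intro _; trivial
  have h1 := (key r).1
  have h2 : 0 ≤ (if ind r then a r else 0) := by
    split_ifs
    · exact ha0 r
    · exact le_rfl
  linarith

lemma weight_lb (d : ℕ) (γ σ : ℝ) (hγ : 0 < γ) (hσ0 : 0 ≤ σ) (hσ : σ ≤ (d : ℝ) / 2) (E : ℂ)
    (h1 : 0 ≤ E.re) (h2 : 1 / 2 ≤ E.im) (h3 : E.im ≤ 1) :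
    (1 / 2 : ℝ) ^ (γ + σ) * (E.re + 1) ^ (-((d : ℝ) / 2)) ≤
      ‖E‖ ^ (-σ) * (Metric.infDist E halfLine) ^ (γ + σ) := by
  have hn : ‖E‖ ≤ E.re + 1 := by
    have := Complex.norm_le_abs_re_add_abs_im E
    rw [abs_of_nonneg h1, abs_of_nonneg (by linarith : (0:ℝ) ≤ E.im)] at this
    linarith
  have hn0 : 0 < ‖E‖ := by
    have := Complex.abs_im_le_norm E
    rw [abs_of_nonneg (by linarith : (0:ℝ) ≤ E.im)] at this
    linarith
  have e1 : (E.re + 1) ^ (-((d : ℝ) / 2)) ≤ ‖E‖ ^ (-σ) := by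
    calc (E.re + 1) ^ (-((d : ℝ) / 2)) ≤ (E.re + 1) ^ (-σ) :=
          Real.rpow_le_rpow_of_exponent_le (by linarith) (by linarith)
      _ ≤ ‖E‖ ^ (-σ) := Real.rpow_le_rpow_of_nonpos hn0 hn (by linarith)
  have hd : 1 / 2 ≤ Metric.infDist E halfLine := by
    rw [Metric.le_infDist ⟨0, by simp [halfLine]⟩]
    rintro z ⟨_, hz⟩
    have := Complex.abs_im_le_norm (E - z)
    rw [Complex.sub_im, hz, sub_zero, abs_of_nonneg (by linarith : (0:ℝ) ≤ E.im),
      ← dist_eq_norm] at this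
    linarith
  have e2 : (1 / 2 : ℝ) ^ (γ + σ) ≤ (Metric.infDist E halfLine) ^ (γ + σ) :=
    Real.rpow_le_rpow (by norm_num) hd (by linarith)
  calc (1 / 2 : ℝ) ^ (γ + σ) * (E.re + 1) ^ (-((d : ℝ) / 2))
      ≤ (Metric.infDist E halfLine) ^ (γ + σ) * ‖E‖ ^ (-σ) :=
        mul_le_mul e2 e1 (by positivity) (by positivity)
    _ = _ := by ring

lemma not_half (E : ℂ) (h2 : 1 / 2 ≤ E.im) : E ∉ halfLine := by
  rintro ⟨_, h⟩
  linarith

open Classical in
/-- weighted sums over the eigenvalues from counting estimates -/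
theorem final_sum (d : ℕ) (hd : 1 ≤ d) (mult : ℝ → ℂ → ℕ∞) (c : ℝ) (hc : 0 < c) (n₀ : ℕ)
    (h : ∀ n : ℕ, n₀ ≤ n → ∃ h₀ : ℝ, 0 < h₀ ∧ ∀ ħ : ℝ, 0 < ħ → ħ < h₀ → ∀ N : ℕ,
      (N : ℝ) ≤ c * (Real.log n) ^ ((d : ℝ) / 2) * (ħ⁻¹) ^ d →
      ∃ S : Finset ℂ, (∀ E ∈ S, 0 ≤ E.re ∧ E.re ≤ Real.log n ∧ 1/2 ≤ E.im ∧ E.im ≤ 1) ∧
        (N : ℕ∞) ≤ ∑ E ∈ S, mult ħ E)
    (γ σ : ℝ) (hγ : 0 < γ) (hσ0 : 0 ≤ σ) (hσ : σ ≤ (d : ℝ) / 2) :
    Tendsto (fun ħ : ℝ => ENNReal.ofReal (ħ ^ d) * ∑' E : ℂ,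
      if E ∈ halfLine then 0 else
        (mult ħ E : ℝ≥0∞) * ENNReal.ofReal (‖E‖ ^ (-σ) * (Metric.infDist E halfLine) ^ (γ + σ)))
      (𝓝[>] 0) (𝓝 ⊤) := by
  rw [ENNReal.tendsto_nhds_top_iff_nat]
  intro m
  -- the levels
  set nn : ℕ → ℕ := fun i => 2 ^ ((n₀ + 1) * 16 ^ i) with hnn
  set L : ℕ → ℝ := fun i => Real.log (nn i) with hL
  have hLe : ∀ i, L i = ((n₀ : ℝ) + 1) * 16 ^ i * Real.log 2 := by
    intro i
    rw [hL, hnn]
    simp only
    rw [Nat.cast_pow, Real.log_pow]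
    push_cast; ring
  have hlog2 : (1 / 2 : ℝ) < Real.log 2 := by
    have := Real.log_two_gt_d9; linarith
  have hL0 : ∀ i, 1 / 2 < L i := by
    intro i
    rw [hLe]
    have h1 : (1 : ℝ) ≤ 16 ^ i := one_le_pow₀ (by norm_num)
    have h2 : (1 : ℝ) ≤ (n₀ : ℝ) + 1 := by
      have : (0 : ℝ) ≤ n₀ := Nat.cast_nonneg _
      linarith
    have h3 : (1 : ℝ) ≤ ((n₀ : ℝ) + 1) * 16 ^ i := by nlinarith
    nlinarith
  have hLs : ∀ i, L (i + 1) = 16 * L i := by
    intro i; rw [hLe, hLe, pow_succ]; ring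
  have hn : ∀ i, n₀ ≤ nn i := by
    intro i
    have h1 : n₀ + 1 ≤ (n₀ + 1) * 16 ^ i := Nat.le_mul_of_pos_right _ (by positivity)
    have h2 : (n₀ + 1) * 16 ^ i < 2 ^ ((n₀ + 1) * 16 ^ i) := Nat.lt_two_pow_self
    simp only [hnn]
    omega
  -- weights
  set w0 : ℝ := (1 / 2 : ℝ) ^ (γ + σ) with hw0
  have hw0p : 0 < w0 := by positivity
  set s : ℝ := (d : ℝ) / 2 with hs
  have hd1 : (1 : ℝ) ≤ d := by exact_mod_cast hd
  have hs2 : 1 / 2 ≤ s := by rw [hs]; linarith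
  set a : ℕ → ℝ := fun i => (L i + 1) ^ (-s) with ha
  have ha0 : ∀ i, 0 < a i := fun i => Real.rpow_pos_of_pos (by linarith [hL0 i]) _
  have hhalf : ∀ i, a (i + 1) ≤ a i / 2 := by
    intro i
    have h0 := hL0 i
    have h1 : 4 * (L i + 1) ≤ L (i + 1) + 1 := by rw [hLs]; linarith
    calc a (i + 1) ≤ (4 * (L i + 1)) ^ (-s) :=
          Real.rpow_le_rpow_of_nonpos (by linarith) h1 (by linarith)
      _ = 4 ^ (-s) * a i := by
          rw [Real.mul_rpow (by norm_num) (by linarith)]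
      _ ≤ (1 / 2) * a i := by
          apply mul_le_mul_of_nonneg_right _ (ha0 i).le
          calc (4 : ℝ) ^ (-s) ≤ 4 ^ (-(1 / 2 : ℝ)) :=
                Real.rpow_le_rpow_of_exponent_le (by norm_num) (by linarith)
            _ = 1 / 2 := by
                rw [Real.rpow_neg (by norm_num), ← Real.sqrt_eq_rpow,
                  show (4 : ℝ) = 2 ^ 2 by norm_num, Real.sqrt_sq (by norm_num)]
                norm_num
      _ = a i / 2 := by ring
  set q : ℝ := (1 / 4 : ℝ) ^ s with hq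
  have hqp : 0 < q := by positivity
  have hLa : ∀ i, q ≤ L i ^ s * a i := by
    intro i
    have h0 := hL0 i
    have e : L i ^ s * a i = (L i / (L i + 1)) ^ s := by
      rw [ha]
      simp only
      rw [Real.rpow_neg (by linarith), Real.div_rpow (by linarith) (by linarith)]
      rfl
    rw [e]
    apply Real.rpow_le_rpow (by norm_num) _ (by linarith)
    rw [div_le_div_iff₀ (by norm_num) (by linarith)]
    linarith
  -- number of levels
  obtain ⟨r, hr⟩ := exists_nat_gt ((m : ℝ) / (w0 * (c / 4) * q))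
  rw [div_lt_iff₀ (by positivity)] at hr
  -- eventually
  have hev1 : ∀ i ∈ Finset.range r, ∀ᶠ ħ : ℝ in 𝓝[>] 0, ħ ^ d ≤ (c / 2) * L i ^ s := by
    intro i _
    have h1 : Tendsto (fun ħ : ℝ => ħ ^ d) (𝓝[>] 0) (𝓝 0) := by
      have : Tendsto (fun ħ : ℝ => ħ ^ d) (𝓝 0) (𝓝 (0 ^ d)) := (continuous_pow d).tendsto 0
      rw [zero_pow (by omega)] at this
      exact this.mono_left nhdsWithin_le_nhds
    have h2 : 0 < (c / 2) * L i ^ s := by
      have := Real.rpow_pos_of_pos (by linarith [hL0 i] : 0 < L i) s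
      positivity
    exact (h1.eventually_lt_const h2).mono fun _ h => h.le
  have hev2 : ∀ i ∈ Finset.range r, ∀ᶠ ħ : ℝ in 𝓝[>] 0, ∀ N : ℕ,
      (N : ℝ) ≤ c * (L i) ^ s * (ħ⁻¹) ^ d →
      ∃ S : Finset ℂ, (∀ E ∈ S, 0 ≤ E.re ∧ E.re ≤ L i ∧ 1/2 ≤ E.im ∧ E.im ≤ 1) ∧
        (N : ℕ∞) ≤ ∑ E ∈ S, mult ħ E := by
    intro i _
    obtain ⟨h0, h0p, hh⟩ := h (nn i) (hn i)
    filter_upwards [Ioo_mem_nhdsGT h0p] with ħ hħ N hN
    exact hh ħ hħ.1 hħ.2 N hN
  rw [← Filter.eventually_all_finset] at hev1 hev2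
  filter_upwards [hev1, hev2, self_mem_nhdsWithin] with ħ h1 h2 hħ
  have hħ : 0 < ħ := hħ
  have hħd : 0 < ħ ^ d := by positivity
  -- choose the sets
  have h3 : ∀ i, ∃ S : Finset ℂ, i ∈ Finset.range r →
      (∀ E ∈ S, 0 ≤ E.re ∧ E.re ≤ L i ∧ 1/2 ≤ E.im ∧ E.im ≤ 1) ∧
        ((⌊c * (L i) ^ s * (ħ⁻¹) ^ d⌋₊ : ℕ) : ℕ∞) ≤ ∑ E ∈ S, mult ħ E := by
    intro i
    by_cases hi : i ∈ Finset.range r
    · have hLp := Real.rpow_pos_of_pos (by linarith [hL0 i] : 0 < L i) s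
      obtain ⟨S, hS1, hS2⟩ := h2 i hi ⌊c * (L i) ^ s * (ħ⁻¹) ^ d⌋₊
        (Nat.floor_le (by positivity))
      exact ⟨S, fun _ => ⟨hS1, hS2⟩⟩
    · exact ⟨∅, fun hc => absurd hc hi⟩
  choose S hS using h3
  set T : Finset ℂ := (Finset.range r).biUnion S with hT
  -- pointwise lower bound
  have hpt : ∀ E ∈ T, (∑ i ∈ Finset.range r, if E ∈ S i then
      ENNReal.ofReal (w0 * (a i - a (i + 1))) * (mult ħ E : ℝ≥0∞) else 0) ≤
      if E ∈ halfLine then 0 else
        (mult ħ E : ℝ≥0∞) * ENNReal.ofReal (‖E‖ ^ (-σ) * (Metric.infDist E halfLine) ^ (γ + σ)) := by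
    intro E hE
    rw [hT, Finset.mem_biUnion] at hE
    obtain ⟨j, hj, hEj⟩ := hE
    obtain ⟨g1, g2, g3, g4⟩ := (hS j hj).1 E hEj
    rw [if_neg (not_half E g3)]
    have e1 : (∑ i ∈ Finset.range r, if E ∈ S i then
        ENNReal.ofReal (w0 * (a i - a (i + 1))) * (mult ħ E : ℝ≥0∞) else 0) =
        (mult ħ E : ℝ≥0∞) * ENNReal.ofReal (w0 * ∑ i ∈ Finset.range r,
          if E ∈ S i then (a i - a (i + 1)) else 0) := by
      rw [Finset.mul_sum, ENNReal.ofReal_sum_of_nonneg, Finset.mul_sum]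
      · apply Finset.sum_congr rfl
        intro i _
        split_ifs
        · rw [mul_comm]
        · simp
      · intro i _
        split_ifs
        · have := hhalf i
          have := ha0 i
          apply mul_nonneg hw0p.le
          linarith
        · simp
    rw [e1]
    apply mul_le_mul_right
    apply ENNReal.ofReal_le_ofReal
    refine le_trans ?_ (weight_lb d γ σ hγ hσ0 hσ E g1 g3 g4)
    apply mul_le_mul_of_nonneg_left _ hw0p.le
    have e2 : (∑ i ∈ Finset.range r, if E ∈ S i then (a i - a (i + 1)) else 0) ≤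
        ∑ i ∈ Finset.range r, if E.re ≤ L i then (a i - a (i + 1)) else 0 := by
      apply Finset.sum_le_sum
      intro i hi
      by_cases hE : E ∈ S i
      · rw [if_pos hE, if_pos ((hS i hi).1 E hE).2.1]
      · rw [if_neg hE]
        split_ifs
        · have := hhalf i
          have := ha0 i
          linarith
        · exact le_rfl
    refine e2.trans (abel_pt a (fun i => E.re ≤ L i) _ (by positivity) ?_ ?_
      (fun i => (ha0 i).le) r)
    · intro i hi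
      exact Real.rpow_le_rpow_of_nonpos (by linarith) (by linarith) (by linarith)
    · intro i hi
      have h0 := hL0 i
      have : L (i + 1) = 16 * L i := hLs i
      have hi' : E.re ≤ L i := hi
      show E.re ≤ L (i + 1)
      linarith
  -- sum over T
  have hsum : ∑ i ∈ Finset.range r, ENNReal.ofReal (w0 * (a i - a (i + 1))) *
      ((⌊c * (L i) ^ s * (ħ⁻¹) ^ d⌋₊ : ℕ) : ℝ≥0∞) ≤
      ∑' E : ℂ, if E ∈ halfLine then 0 else
        (mult ħ E : ℝ≥0∞) * ENNReal.ofReal (‖E‖ ^ (-σ) * (Metric.infDist E halfLine) ^ (γ + σ)) := by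
    refine le_trans ?_ (ENNReal.sum_le_tsum T)
    refine le_trans ?_ (Finset.sum_le_sum hpt)
    rw [Finset.sum_comm]
    apply Finset.sum_le_sum
    intro i hi
    rw [← Finset.sum_filter]
    have e : T.filter (fun E => E ∈ S i) = S i := by
      ext E
      rw [Finset.mem_filter, hT, Finset.mem_biUnion]
      exact ⟨fun h => h.2, fun h => ⟨⟨i, hi, h⟩, h⟩⟩
    rw [e, ← Finset.mul_sum]
    apply mul_le_mul_right
    have h4 := (hS i hi).2
    have h5 := ENat.toENNReal_le.2 h4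
    have h6 : ((∑ E ∈ S i, mult ħ E : ℕ∞) : ℝ≥0∞) = ∑ E ∈ S i, (mult ħ E : ℝ≥0∞) :=
      map_sum ENat.toENNRealRingHom _ _
    rw [h6, ENat.toENNReal_coe] at h5
    exact h5
  -- final estimate
  have hterm : ∀ i ∈ Finset.range r, w0 * (c / 4) * q ≤
      ħ ^ d * (w0 * (a i - a (i + 1)) * (⌊c * (L i) ^ s * (ħ⁻¹) ^ d⌋₊ : ℕ)) := by
    intro i hi
    have hLp := Real.rpow_pos_of_pos (by linarith [hL0 i] : 0 < L i) s
    have k1 := Nat.lt_floor_add_one (c * (L i) ^ s * (ħ⁻¹) ^ d)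
    set N : ℝ := ((⌊c * (L i) ^ s * (ħ⁻¹) ^ d⌋₊ : ℕ) : ℝ) with hN
    have k2 : c * L i ^ s ≤ ħ ^ d * N + ħ ^ d := by
      have : c * L i ^ s = ħ ^ d * (c * (L i) ^ s * (ħ⁻¹) ^ d) := by
        rw [inv_pow]; field_simp
      rw [this, ← mul_add_one]
      exact mul_le_mul_of_nonneg_left k1.le hħd.le
    have k3 := h1 i hi
    have k4 : (c / 2) * L i ^ s ≤ ħ ^ d * N := by linarith
    have k5 : a i / 2 ≤ a i - a (i + 1) := by linarith [hhalf i]
    have k6 := hLa i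
    have k7 : 0 ≤ (c / 2) * L i ^ s := by positivity
    have k8 := (ha0 i)
    calc w0 * (c / 4) * q ≤ w0 * (c / 4) * (L i ^ s * a i) :=
          mul_le_mul_of_nonneg_left k6 (by positivity)
      _ = w0 * ((a i / 2) * ((c / 2) * L i ^ s)) := by ring
      _ ≤ w0 * ((a i - a (i + 1)) * (ħ ^ d * N)) := by
          apply mul_le_mul_of_nonneg_left _ hw0p.le
          exact mul_le_mul k5 k4 k7 (by linarith)
      _ = _ := by ring
  calc (m : ℝ≥0∞) = ENNReal.ofReal (m : ℝ) := by simp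
    _ < ENNReal.ofReal (r * (w0 * (c / 4) * q)) := by
        rw [ENNReal.ofReal_lt_ofReal_iff_of_nonneg (by positivity)]; exact hr
    _ ≤ ENNReal.ofReal (∑ i ∈ Finset.range r,
          ħ ^ d * (w0 * (a i - a (i + 1)) * (⌊c * (L i) ^ s * (ħ⁻¹) ^ d⌋₊ : ℕ))) := by
        apply ENNReal.ofReal_le_ofReal
        have := Finset.sum_le_sum hterm
        rwa [Finset.sum_const, Finset.card_range, nsmul_eq_mul] at this
    _ = ENNReal.ofReal (ħ ^ d) * ∑ i ∈ Finset.range r,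
          ENNReal.ofReal (w0 * (a i - a (i + 1))) *
            ((⌊c * (L i) ^ s * (ħ⁻¹) ^ d⌋₊ : ℕ) : ℝ≥0∞) := by
        rw [← Finset.mul_sum, ENNReal.ofReal_mul hħd.le, ENNReal.ofReal_sum_of_nonneg]
        · congr 1
          apply Finset.sum_congr rfl
          intro i _
          have := hhalf i
          have := ha0 i
          rw [ENNReal.ofReal_mul (mul_nonneg hw0p.le (by linarith)), ENNReal.ofReal_natCast]
        · intro i _
          have := hhalf i
          have := ha0 i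
          exact mul_nonneg (mul_nonneg hw0p.le (by linarith)) (Nat.cast_nonneg _)
    _ ≤ _ := mul_le_mul_right hsum _

end CE
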