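import Pool.Agent.H631.Defs

open Matrix Finset

namespace CE

/-- the characters of the torus -/
noncomputable def chi {d M : ℕ} [NeZero M] (k x : Tor d M) : ℂ :=
  ZMod.stdAddChar (∑ i, k i * x i)

theorem chi_add {d M : ℕ} [NeZero M] (k x y : Tor d M) : chi k (x + y) = chi k x * chi k y := by
  unfold chi
  rw [← AddChar.map_add_eq_mul]
  congr 1
  rw [← Finset.sum_add_distrib]
  apply Finset.sum_congr rfl
  intro i _
  simp [mul_add]

theorem chi_norm {d M : ℕ} [NeZero M] (k x : Tor d M) : ‖chi k x‖ = 1 := by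
  unfold chi
  rw [ZMod.stdAddChar_apply]
  exact Circle.norm_coe _

theorem chi_zero {d M : ℕ} [NeZero M] (k : Tor d M) : chi k 0 = 1 := by
  simp [chi]

theorem chi_neg {d M : ℕ} [NeZero M] (k x : Tor d M) : chi k (-x) = (chi k x)⁻¹ := by
  have h := chi_add k x (-x)
  rw [add_neg_cancel, chi_zero] at h
  exact eq_inv_of_mul_eq_one_right h.symm

theorem chi_sum (d M : ℕ) [NeZero M] (z : Tor d M) :
    ∑ k : Tor d M, chi k z = if z = 0 then (M : ℂ) ^ d else 0 := by
  classical
  let ψ : AddChar (Tor d M) ℂ :=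
    { toFun := fun k => chi k z
      map_zero_eq_one' := by simp [chi]
      map_add_eq_mul' := by
        intro a b
        unfold chi
        rw [← AddChar.map_add_eq_mul]
        congr 1
        rw [← Finset.sum_add_distrib]
        apply Finset.sum_congr rfl
        intro i _
        simp [add_mul] }
  have h := AddChar.sum_eq_ite ψ
  have h1 : ∀ k, ψ k = chi k z := fun k => rfl
  simp only [h1] at h
  rw [h]
  by_cases hz : z = 0
  · subst hz
    have : ψ = 0 := by
      ext k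
      rw [h1]
      simp [chi]
    rw [if_pos this, if_pos rfl]
    simp
  · have : ψ ≠ 0 := by
      intro h0
      apply hz
      funext i
      have h2 : ψ (Pi.single i 1) = 1 := by rw [h0]; simp
      rw [h1, chi] at h2
      have h3 : (∑ j, (Pi.single i 1 : Tor d M) j * z j) = z i := by
        rw [Finset.sum_eq_single i]
        · simp
        · intro j _ hj
          simp [Pi.single_eq_of_ne hj]
        · simp
      rw [h3] at h2
      have h4 : ZMod.stdAddChar (z i) = ZMod.stdAddChar (0 : ZMod M) := by rw [h2]; simp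
      exact ZMod.injective_stdAddChar h4
    rw [if_neg this, if_neg hz]

noncomputable def UU (d M : ℕ) [NeZero M] : Matrix (Tor d M) (Tor d M) ℂ :=
  Matrix.of fun x k => chi k x

noncomputable def VV (d M : ℕ) [NeZero M] : Matrix (Tor d M) (Tor d M) ℂ :=
  Matrix.of fun k y => chi k (-y) / (M : ℂ) ^ d

theorem UU_mul_VV (d M : ℕ) [NeZero M] : UU d M * VV d M = 1 := by
  ext x y
  rw [Matrix.mul_apply, Matrix.one_apply]
  have hM : (M : ℂ) ^ d ≠ 0 := pow_ne_zero _ (by exact_mod_cast NeZero.ne M)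
  have h1 : ∀ k, UU d M x k * VV d M k y = chi k (x - y) / (M : ℂ) ^ d := by
    intro k
    simp only [UU, VV, Matrix.of_apply]
    rw [sub_eq_add_neg, chi_add]
    ring
  simp only [h1]
  rw [← Finset.sum_div, chi_sum]
  by_cases h : x = y
  · subst h
    simp [hM]
  · rw [if_neg h, if_neg (sub_ne_zero.2 h)]
    simp

theorem eig (M : ℕ) [NeZero M] (k : ZMod M) :
    2 - (ZMod.stdAddChar k : ℂ) - (ZMod.stdAddChar k)⁻¹ =
      ((4 * (Real.sin (Real.pi * (k.val : ℝ) / M)) ^ 2 : ℝ) : ℂ) := by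
  rw [ZMod.stdAddChar_apply, ZMod.toCircle_apply, ← Complex.exp_neg]
  set θ : ℂ := (Real.pi : ℂ) * (k.val : ℂ) / M with hθ
  have h1 : 2 * (Real.pi : ℂ) * Complex.I * (k.val : ℂ) / M = (2 * θ) * Complex.I := by
    rw [hθ]; ring
  have h2 : Complex.exp (2 * θ * Complex.I) + Complex.exp (-(2 * θ * Complex.I)) =
      2 * Complex.cos (2 * θ) := by
    rw [Complex.cos]
    ring_nf
  rw [h1]
  have h3 : (2 : ℂ) - Complex.exp (2 * θ * Complex.I) - Complex.exp (-(2 * θ * Complex.I)) =
      2 - 2 * Complex.cos (2 * θ) := by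
    rw [← h2]; ring
  rw [h3, Complex.cos_two_mul, Complex.cos_sq']
  push_cast
  rw [hθ]
  ring

theorem lapM_mul_UU (d M : ℕ) [NeZero M] (c : ℝ) :
    (lapM d M c).map (fun r : ℝ => (r : ℂ)) * UU d M =
      UU d M * Matrix.diagonal (fun k => ((lamb d M c k : ℝ) : ℂ)) := by
  classical
  ext x k
  rw [Matrix.mul_apply, Matrix.mul_diagonal]
  have h1 : ∀ y, (lapM d M c).map (fun r : ℝ => (r : ℂ)) x y * UU d M y k =
      ∑ i : Fin d, (c : ℂ) * ((if y = x then 2 * chi k y else 0)
        - (if y = x + Pi.single i 1 then chi k y else 0)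
        - (if y = x - Pi.single i 1 then chi k y else 0)) := by
    intro y
    simp only [Matrix.map_apply, lapM, UU, Matrix.of_apply]
    push_cast
    rw [mul_assoc, Finset.sum_mul, Finset.mul_sum]
    apply Finset.sum_congr rfl
    intro i _
    congr 1
    rw [sub_mul, sub_mul]
    congr 1
    · congr 1
      · split_ifs <;> simp
      · split_ifs <;> simp
    · split_ifs <;> simp
  simp only [h1]
  rw [Finset.sum_comm]
  have h2 : ∀ i : Fin d, (∑ y : Tor d M, (c : ℂ) * ((if y = x then 2 * chi k y else 0)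
        - (if y = x + Pi.single i 1 then chi k y else 0)
        - (if y = x - Pi.single i 1 then chi k y else 0))) =
      chi k x * ((c : ℂ) * ((4 * (Real.sin (Real.pi * ((k i).val : ℝ) / M)) ^ 2 : ℝ) : ℂ)) := by
    intro i
    rw [← Finset.mul_sum, Finset.sum_sub_distrib, Finset.sum_sub_distrib]
    simp only [Finset.sum_ite_eq', Finset.mem_univ, if_true]
    rw [← eig M (k i)]
    have h3 : chi k (Pi.single i 1) = ZMod.stdAddChar (k i) := by
      unfold chi
      congr 1
      rw [Finset.sum_eq_single i]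
      · simp
      · intro j _ hj
        simp [Pi.single_eq_of_ne hj]
      · simp
    rw [sub_eq_add_neg x, chi_add, chi_add, chi_neg, h3]
    ring
  simp only [h2]
  rw [← Finset.mul_sum]
  simp only [UU, Matrix.of_apply, lamb]
  congr 1
  push_cast
  apply Finset.sum_congr rfl
  intro i _
  ring

theorem heat_entry (d M : ℕ) [NeZero M] (c : ℝ) (t : ℝ) (x y : Tor d M) :
    ((NormedSpace.exp (-(t • lapM d M c)) x y : ℝ) : ℂ) =
      (∑ k : Tor d M, chi k (x - y) * ((Real.exp (-(t * lamb d M c k)) : ℝ) : ℂ)) / (M : ℂ) ^ d := by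
  classical
  set A : Matrix (Tor d M) (Tor d M) ℝ := -(t • lapM d M c) with hA
  have hinv : (UU d M)⁻¹ = VV d M := Matrix.inv_eq_right_inv (UU_mul_VV d M)
  have hunit : IsUnit (UU d M) := IsUnit.of_mul_eq_one _ (UU_mul_VV d M)
  have h1 : A.map (fun r : ℝ => (r : ℂ)) =
      UU d M * Matrix.diagonal (fun k => ((-(t * lamb d M c k) : ℝ) : ℂ)) * (UU d M)⁻¹ := by
    have h2 : A.map (fun r : ℝ => (r : ℂ)) = -((t : ℂ) • (lapM d M c).map (fun r : ℝ => (r : ℂ))) := by
      ext a b
      simp [hA]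
    have h3 : Matrix.diagonal (fun k : Tor d M => ((-(t * lamb d M c k) : ℝ) : ℂ)) =
        -((t : ℂ) • Matrix.diagonal (fun k => ((lamb d M c k : ℝ) : ℂ))) := by
      ext a b
      by_cases hab : a = b
      · subst hab; simp
      · simp [Matrix.diagonal_apply_ne _ hab]
    rw [h2, h3, Matrix.mul_neg, Matrix.neg_mul, Matrix.mul_smul, Matrix.smul_mul, ← lapM_mul_UU,
      Matrix.mul_assoc, hinv, UU_mul_VV, Matrix.mul_one]
  have h4 : (NormedSpace.exp A).map (fun r : ℝ => (r : ℂ)) =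
      NormedSpace.exp (A.map (fun r : ℝ => (r : ℂ))) := by
    open scoped Matrix.Norms.Operator in
    exact NormedSpace.map_exp (RingHom.mapMatrix (m := Tor d M) Complex.ofRealHom)
      (by
        apply Continuous.matrix_map continuous_id
        exact Complex.continuous_ofReal) A
  have h5 : ((NormedSpace.exp A x y : ℝ) : ℂ) = (NormedSpace.exp A).map (fun r : ℝ => (r : ℂ)) x y := rfl
  rw [h5, h4, h1, Matrix.exp_conj _ _ hunit, Matrix.exp_diagonal, hinv, Matrix.mul_apply]
  have h6 : ∀ k : Tor d M, (UU d M * Matrix.diagonal (NormedSpace.exp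
      (fun k => ((-(t * lamb d M c k) : ℝ) : ℂ)))) x k * VV d M k y =
      chi k (x - y) * ((Real.exp (-(t * lamb d M c k)) : ℝ) : ℂ) / (M : ℂ) ^ d := by
    intro k
    rw [Matrix.mul_diagonal]
    simp only [UU, VV, Matrix.of_apply]
    rw [sub_eq_add_neg, chi_add, Pi.coe_exp, ← Complex.exp_eq_exp_ℂ, Complex.ofReal_exp]
    ring
  simp only [h6]
  rw [Finset.sum_div]

/-- diagonal entries of the heat kernel -/
theorem heat_diag (d M : ℕ) [NeZero M] (c : ℝ) (t : ℝ) (x : Tor d M) :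
    NormedSpace.exp (-(t • lapM d M c)) x x =
      (∑ k : Tor d M, Real.exp (-(t * lamb d M c k))) / (M : ℝ) ^ d := by
  have h := heat_entry d M c t x x
  have h1 : ((NormedSpace.exp (-(t • lapM d M c)) x x : ℝ) : ℂ) =
      (((∑ k : Tor d M, Real.exp (-(t * lamb d M c k))) / (M : ℝ) ^ d : ℝ) : ℂ) := by
    rw [h]
    simp only [sub_self, chi_zero, one_mul]
    push_cast
    rfl
  exact_mod_cast h1

theorem heat_le_avg (d M : ℕ) [NeZero M] (c : ℝ) (t : ℝ) (x y : Tor d M) :
    NormedSpace.exp (-(t • lapM d M c)) x y ≤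
      (∑ k : Tor d M, Real.exp (-(t * lamb d M c k))) / (M : ℝ) ^ d := by
  have hM : (0 : ℝ) < (M : ℝ) ^ d := pow_pos (by exact_mod_cast Nat.pos_of_ne_zero (NeZero.ne M)) _
  have h := heat_entry d M c t x y
  have h1 : ‖((NormedSpace.exp (-(t • lapM d M c)) x y : ℝ) : ℂ)‖ ≤
      (∑ k : Tor d M, Real.exp (-(t * lamb d M c k))) / (M : ℝ) ^ d := by
    rw [h, norm_div, norm_pow, Complex.norm_natCast]
    apply div_le_div_of_nonneg_right _ hM.le
    apply le_trans (norm_sum_le _ _)
    apply Finset.sum_le_sum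
    intro k _
    rw [norm_mul, chi_norm, one_mul, Complex.norm_real, Real.norm_eq_abs, abs_of_pos (Real.exp_pos _)]
  rw [Complex.norm_real] at h1
  exact le_trans (le_abs_self _) h1

theorem avg_eq (d M : ℕ) [NeZero M] (c : ℝ) (t : ℝ) :
    (∑ k : Tor d M, Real.exp (-(t * lamb d M c k))) / (M : ℝ) ^ d =
      ((∑ j : ZMod M, Real.exp (-(4 * (t * c) * (Real.sin (Real.pi * (j.val : ℝ) / M)) ^ 2))) / M) ^ d := by
  rw [div_pow, Fintype.sum_pow]
  congr 1
  apply Finset.sum_congr rfl
  intro k _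
  rw [← Real.exp_sum]
  congr 1
  rw [lamb, Finset.mul_sum, ← Finset.sum_neg_distrib]
  apply Finset.sum_congr rfl
  intro i _
  ring

theorem tele (s : ℝ) (hs : 0 < s) (n : ℕ) :
    ∑ j ∈ Finset.range n, 1 / (1 + (s * (j + 1 : ℕ)) ^ 2) ≤ 2 / s := by
  have h : ∀ n : ℕ, ∑ j ∈ Finset.range n, 1 / (1 + (s * (j + 1 : ℕ)) ^ 2) ≤
      (2 / s) * (s * n / (1 + s * n)) := by
    intro n
    induction n with
    | zero => simp
    | succ n ih =>
      rw [Finset.sum_range_succ]
      have hn : (0 : ℝ) ≤ n := Nat.cast_nonneg n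
      have h1 : (0 : ℝ) < 1 + s * n := by positivity
      have h2 : (0 : ℝ) < 1 + s * (n + 1 : ℕ) := by positivity
      have h3 : (1 : ℝ) / (1 + (s * (n + 1 : ℕ)) ^ 2) ≤
          (2 / s) * (s * (n + 1 : ℕ) / (1 + s * (n + 1 : ℕ))) - (2 / s) * (s * n / (1 + s * n)) := by
        have h4 : (2 / s) * (s * (n + 1 : ℕ) / (1 + s * (n + 1 : ℕ))) - (2 / s) * (s * n / (1 + s * n)) =
            2 / ((1 + s * (n + 1 : ℕ)) * (1 + s * n)) := by
          have h2' := h2.ne'
          have h1' := h1.ne'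
          push_cast at h2' ⊢
          field_simp
          ring
        rw [h4, div_le_div_iff₀ (by positivity) (by positivity)]
        have h5 : (1 + s * (n + 1 : ℕ)) * (1 + s * n) ≤ (1 + s * (n + 1 : ℕ)) ^ 2 := by
          rw [sq]
          apply mul_le_mul_of_nonneg_left _ h2.le
          push_cast
          nlinarith
        have h6 : (1 + s * (n + 1 : ℕ)) ^ 2 ≤ 2 * (1 + (s * (n + 1 : ℕ)) ^ 2) := by
          nlinarith [sq_nonneg (1 - s * (n + 1 : ℕ))]
        linarith
      linarith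
  refine le_trans (h n) ?_
  have h1 : (0 : ℝ) < 1 + s * n := by positivity
  have h2 : s * n / (1 + s * n) ≤ 1 := by
    rw [div_le_one h1]
    linarith
  have h3 : (0 : ℝ) ≤ 2 / s := by positivity
  calc (2 / s) * (s * n / (1 + s * n)) ≤ (2 / s) * 1 := mul_le_mul_of_nonneg_left h2 h3
    _ = 2 / s := mul_one _

theorem oneD (M : ℕ) [NeZero M] (a : ℝ) (ha : 0 < a) :
    (∑ j : ZMod M, Real.exp (-(4 * a * (Real.sin (Real.pi * (j.val : ℝ) / M)) ^ 2))) / M ≤
      1 / (M : ℝ) + 1 / Real.sqrt a := by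
  obtain ⟨m, rfl⟩ : ∃ m, M = m + 1 := ⟨M - 1, by have := Nat.pos_of_ne_zero (NeZero.ne M); omega⟩
  have hM : (0 : ℝ) < ((m + 1 : ℕ) : ℝ) := by positivity
  have hsum : (∑ j : ZMod (m + 1), Real.exp (-(4 * a * (Real.sin (Real.pi * (j.val : ℝ) / (m + 1 : ℕ))) ^ 2))) =
      ∑ j ∈ Finset.range (m + 1), Real.exp (-(4 * a * (Real.sin (Real.pi * (j : ℝ) / (m + 1 : ℕ))) ^ 2)) :=
    Fin.sum_univ_eq_sum_range (fun j => Real.exp (-(4 * a * (Real.sin (Real.pi * (j : ℝ) / (m + 1 : ℕ))) ^ 2))) (m + 1)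
  rw [hsum, Finset.sum_range_succ']
  set s : ℝ := 4 * Real.sqrt a / (m + 1 : ℕ) with hs
  have hspos : 0 < s := by
    have := Real.sqrt_pos.2 ha
    positivity
  have hterm : ∀ j ∈ Finset.range m,
      Real.exp (-(4 * a * (Real.sin (Real.pi * ((j + 1 : ℕ) : ℝ) / (m + 1 : ℕ))) ^ 2)) ≤
        1 / (1 + (s * (j + 1 : ℕ)) ^ 2) + 1 / (1 + (s * (m - 1 - j + 1 : ℕ)) ^ 2) := by
    intro j hj
    have hjm : j < m := Finset.mem_range.1 hj
    have key : ∀ u : ℕ, 1 ≤ u → 2 * u ≤ m + 1 →
        Real.exp (-(4 * a * (Real.sin (Real.pi * (u : ℝ) / (m + 1 : ℕ))) ^ 2)) ≤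
          1 / (1 + (s * u) ^ 2) := by
      intro u hu1 hu2
      have h1 : 2 / Real.pi * (Real.pi * (u : ℝ) / (m + 1 : ℕ)) ≤ Real.sin (Real.pi * (u : ℝ) / (m + 1 : ℕ)) := by
        apply Real.mul_le_sin
        · positivity
        · rw [div_le_div_iff₀ hM (by norm_num)]
          have h2 : (u : ℝ) * 2 ≤ ((m + 1 : ℕ) : ℝ) := by exact_mod_cast (by omega : u * 2 ≤ m + 1)
          nlinarith [Real.pi_pos]
      have h2 : 2 / Real.pi * (Real.pi * (u : ℝ) / (m + 1 : ℕ)) = 2 * u / (m + 1 : ℕ) := by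
        have := Real.pi_ne_zero
        field_simp
      rw [h2] at h1
      have h3 : (2 * (u : ℝ) / (m + 1 : ℕ)) ^ 2 ≤ (Real.sin (Real.pi * (u : ℝ) / (m + 1 : ℕ))) ^ 2 :=
        pow_le_pow_left₀ (by positivity) h1 2
      have h4 : (s * u) ^ 2 ≤ 4 * a * (Real.sin (Real.pi * (u : ℝ) / (m + 1 : ℕ))) ^ 2 := by
        have h5 : (s * u) ^ 2 = 4 * a * (2 * (u : ℝ) / (m + 1 : ℕ)) ^ 2 := by
          rw [hs]
          have := Real.sq_sqrt ha.le
          calc (4 * Real.sqrt a / ((m + 1 : ℕ) : ℝ) * u) ^ 2 =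
                16 * (Real.sqrt a) ^ 2 * u ^ 2 / ((m + 1 : ℕ) : ℝ) ^ 2 := by ring
            _ = 16 * a * u ^ 2 / ((m + 1 : ℕ) : ℝ) ^ 2 := by rw [this]
            _ = _ := by ring
        rw [h5]
        exact mul_le_mul_of_nonneg_left h3 (by positivity)
      rw [Real.exp_neg, ← one_div]
      apply one_div_le_one_div_of_le (by positivity)
      have := Real.add_one_le_exp (4 * a * (Real.sin (Real.pi * (u : ℝ) / (m + 1 : ℕ))) ^ 2)
      linarith
    rcases Nat.lt_or_ge (m + 1) (2 * (j + 1)) with h | h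
    · -- use the reflected index
      have hu : 1 ≤ m - 1 - j + 1 := by omega
      have hu2 : 2 * (m - 1 - j + 1) ≤ m + 1 := by omega
      have h1 := key (m - 1 - j + 1) hu hu2
      have h2 : Real.sin (Real.pi * ((m - 1 - j + 1 : ℕ) : ℝ) / (m + 1 : ℕ)) =
          Real.sin (Real.pi * ((j + 1 : ℕ) : ℝ) / (m + 1 : ℕ)) := by
        rw [← Real.sin_pi_sub]
        congr 1
        have h3 : ((m - 1 - j + 1 : ℕ) : ℝ) = ((m + 1 : ℕ) : ℝ) - ((j + 1 : ℕ) : ℝ) := by
          rw [← Nat.cast_sub (by omega)]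
          congr 1
          omega
        rw [h3]
        field_simp
        ring
      rw [h2] at h1
      have h4 : (0 : ℝ) ≤ 1 / (1 + (s * (j + 1 : ℕ)) ^ 2) := by positivity
      linarith
    · have h1 := key (j + 1) (by omega) h
      have h4 : (0 : ℝ) ≤ 1 / (1 + (s * (m - 1 - j + 1 : ℕ)) ^ 2) := by positivity
      linarith
  have hrefl : ∑ j ∈ Finset.range m, 1 / (1 + (s * (m - 1 - j + 1 : ℕ)) ^ 2) =
      ∑ j ∈ Finset.range m, 1 / (1 + (s * (j + 1 : ℕ)) ^ 2) :=
    Finset.sum_range_reflect (fun j => 1 / (1 + (s * (j + 1 : ℕ)) ^ 2)) m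
  have htot : ∑ j ∈ Finset.range m, Real.exp (-(4 * a * (Real.sin (Real.pi * ((j + 1 : ℕ) : ℝ) / (m + 1 : ℕ))) ^ 2)) ≤
      4 / s := by
    refine le_trans (Finset.sum_le_sum hterm) ?_
    rw [Finset.sum_add_distrib, hrefl]
    have := tele s hspos m
    have h2 : 4 / s = 2 / s + 2 / s := by ring
    rw [h2]
    linarith
  have h4s : 4 / s = (m + 1 : ℕ) / Real.sqrt a := by
    rw [hs]
    have := (Real.sqrt_pos.2 ha).ne'
    field_simp
  have h0 : Real.exp (-(4 * a * (Real.sin (Real.pi * ((0 : ℕ) : ℝ) / (m + 1 : ℕ))) ^ 2)) = 1 := by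
    simp
  rw [h4s] at htot
  rw [h0, div_le_iff₀ hM]
  have h5 : (1 / ((m + 1 : ℕ) : ℝ) + 1 / Real.sqrt a) * ((m + 1 : ℕ) : ℝ) = 1 + (m + 1 : ℕ) / Real.sqrt a := by
    field_simp
  rw [h5]
  linarith

/-- upper bound for all entries -/
theorem heat_le (d M : ℕ) [NeZero M] (c : ℝ) (hc : 0 < c) (t : ℝ) (ht : 0 < t) (x y : Tor d M) :
    NormedSpace.exp (-(t • lapM d M c)) x y ≤ (1 / (M : ℝ) + 1 / Real.sqrt (t * c)) ^ d := by
  refine le_trans (heat_le_avg d M c t x y) ?_
  rw [avg_eq]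
  apply pow_le_pow_left₀
  · apply div_nonneg _ (Nat.cast_nonneg _)
    exact Finset.sum_nonneg fun j _ => (Real.exp_pos _).le
  · exact oneD M (t * c) (mul_pos ht hc)

/-- many small eigenvalues -/
theorem card_small (d M : ℕ) [NeZero M] (hd : 1 ≤ d) (c : ℝ) (hc : 0 < c) (X : ℝ) (hX : 0 < X)
    (hr : Real.sqrt (X / (4 * d * c)) / Real.pi ≤ 1 / 2) :
    (Real.sqrt (X / (4 * d * c)) / Real.pi) ^ d * (M : ℝ) ^ d ≤
      ((Finset.univ.filter (fun k : Tor d M => lamb d M c k ≤ X)).card : ℝ) := by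
  classical
  set ρ := Real.sqrt (X / (4 * d * c)) / Real.pi with hρ
  have hMpos : (0 : ℝ) < M := by exact_mod_cast Nat.pos_of_ne_zero (NeZero.ne M)
  have hdpos : (0 : ℝ) < d := by exact_mod_cast hd
  have hρ0 : 0 ≤ ρ := by positivity
  let A : Finset (ZMod M) := Finset.univ.filter
    (fun j => 4 * c * (Real.sin (Real.pi * (j.val : ℝ) / M)) ^ 2 ≤ X / d)
  have hA : ρ * M ≤ (A.card : ℝ) := by
    set n := ⌊ρ * M⌋₊ with hn
    have hn1 : (n : ℝ) ≤ ρ * M := Nat.floor_le (by positivity)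
    have hn2 : ρ * M < n + 1 := Nat.lt_floor_add_one _
    have hn3 : n < M := by
      have : (n : ℝ) < M := by nlinarith
      exact_mod_cast this
    have hinj : (n + 1) ≤ A.card := by
      have h1 : (Finset.range (n + 1)).image (fun j : ℕ => (j : ZMod M)) ⊆ A := by
        intro z hz
        rw [Finset.mem_image] at hz
        obtain ⟨j, hj, rfl⟩ := hz
        have hj' : j ≤ n := by have := Finset.mem_range.1 hj; omega
        simp only [A, Finset.mem_filter, Finset.mem_univ, true_and]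
        rw [ZMod.val_cast_of_lt (by omega)]
        have h2 : |Real.sin (Real.pi * (j : ℝ) / M)| ≤ Real.pi * ρ := by
          refine le_trans (Real.abs_sin_le_abs) ?_
          rw [abs_of_nonneg (by positivity)]
          rw [div_le_iff₀ hMpos]
          have h3 : (j : ℝ) ≤ ρ * M := le_trans (by exact_mod_cast hj') hn1
          nlinarith [Real.pi_pos]
        have h3 : (Real.sin (Real.pi * (j : ℝ) / M)) ^ 2 ≤ (Real.pi * ρ) ^ 2 := by
          rw [← sq_abs]
          exact pow_le_pow_left₀ (abs_nonneg _) h2 2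
        have h4 : (Real.pi * ρ) ^ 2 = X / (4 * d * c) := by
          rw [hρ, mul_div_cancel₀ _ Real.pi_ne_zero, Real.sq_sqrt (by positivity)]
        rw [h4] at h3
        calc 4 * c * (Real.sin (Real.pi * (j : ℝ) / M)) ^ 2 ≤ 4 * c * (X / (4 * d * c)) :=
              mul_le_mul_of_nonneg_left h3 (by positivity)
          _ = X / d := by field_simp
      have h5 : ((Finset.range (n + 1)).image (fun j : ℕ => (j : ZMod M))).card = n + 1 := by
        rw [Finset.card_image_of_injOn, Finset.card_range]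
        intro a ha b hb hab
        have ha' : a < M := by have := Finset.mem_range.1 ha; omega
        have hb' : b < M := by have := Finset.mem_range.1 hb; omega
        have := congrArg ZMod.val hab
        simpa [ZMod.val_cast_of_lt ha', ZMod.val_cast_of_lt hb'] using this
      rw [← h5]
      exact Finset.card_le_card h1
    have : ((n + 1 : ℕ) : ℝ) ≤ A.card := by exact_mod_cast hinj
    push_cast at this
    linarith
  have hsub : Fintype.piFinset (fun _ : Fin d => A) ⊆
      Finset.univ.filter (fun k : Tor d M => lamb d M c k ≤ X) := by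
    intro k hk
    rw [Fintype.mem_piFinset] at hk
    simp only [Finset.mem_filter, Finset.mem_univ, true_and]
    unfold lamb
    calc ∑ i : Fin d, 4 * c * (Real.sin (Real.pi * ((k i).val : ℝ) / M)) ^ 2 ≤ ∑ i : Fin d, X / d := by
          apply Finset.sum_le_sum
          intro i _
          have := hk i
          simp only [A, Finset.mem_filter, Finset.mem_univ, true_and] at this
          exact this
      _ = X := by
          rw [Finset.sum_const, Finset.card_univ, Fintype.card_fin, nsmul_eq_mul]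
          field_simp
  calc ρ ^ d * (M : ℝ) ^ d = (ρ * M) ^ d := by rw [mul_pow]
    _ ≤ (A.card : ℝ) ^ d := pow_le_pow_left₀ (by positivity) hA d
    _ = ((Fintype.piFinset (fun _ : Fin d => A)).card : ℝ) := by
        rw [Fintype.card_piFinset]
        simp
    _ ≤ _ := by exact_mod_cast Finset.card_le_card hsub

end CE
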