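import Mathlib

open scoped Laplacian

namespace CE

section aux

variable {E : Type*} [NormedAddCommGroup E] [NormedSpace ℝ E]

/-- a uniform estimate for second differences in one direction -/
theorem second_diff (φ : E → ℂ) (hφ : ContDiff ℝ (⊤ : ℕ∞) φ) (e : E) (he : ‖e‖ = 1) (ε' δ : ℝ)
    (hunif : ∀ a b : E, dist a b < δ →
      ‖fderiv ℝ (fun y => fderiv ℝ φ y e) a e - fderiv ℝ (fun y => fderiv ℝ φ y e) b e‖ ≤ ε')
    (h : ℝ) (h0 : 0 < h) (hδ : h < δ) (x : E) :
    ‖(φ (x + h • e) + φ (x - h • e) - 2 * φ x) - ((h : ℂ) ^ 2) * fderiv ℝ (fun y => fderiv ℝ φ y e) x e‖ ≤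
      2 * ε' * h * h := by
  set G : E → ℂ := fun y => fderiv ℝ φ y e with hG
  set g : E → ℂ := fun y => fderiv ℝ G y e with hg
  have hφd : Differentiable ℝ φ := hφ.differentiable (by simp)
  have hGc : ContDiff ℝ (⊤ : ℕ∞) G := by
    have h1 : ContDiff ℝ (⊤ : ℕ∞) (fderiv ℝ φ) := hφ.fderiv_right (by simp)
    exact h1.clm_apply contDiff_const
  have hGd : Differentiable ℝ G := hGc.differentiable (by simp)
  have line : ∀ (c : ℝ) (s : ℝ), HasDerivAt (fun s : ℝ => x + (c * s) • e) (c • e) s := by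
    intro c s
    have h1 : HasDerivAt (fun s : ℝ => c * s) c s := by
      simpa using (hasDerivAt_id s).const_mul c
    exact (h1.smul_const e).const_add x
  have dφ : ∀ (c : ℝ) (s : ℝ), HasDerivAt (fun s : ℝ => φ (x + (c * s) • e)) (c • G (x + (c * s) • e)) s := by
    intro c s
    have h1 := ((hφd (x + (c * s) • e)).hasFDerivAt).comp_hasDerivAt s (line c s)
    rw [map_smul] at h1
    exact h1
  have dG : ∀ (c : ℝ) (s : ℝ), HasDerivAt (fun s : ℝ => G (x + (c * s) • e)) (c • g (x + (c * s) • e)) s := by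
    intro c s
    have h1 := ((hGd (x + (c * s) • e)).hasFDerivAt).comp_hasDerivAt s (line c s)
    rw [map_smul] at h1
    exact h1
  -- the first derivative of the error
  set F1 : ℝ → ℂ := fun s => G (x + (1 * s) • e) - G (x + (-1 * s) • e) - (2 * s : ℝ) • g x with hF1
  set F0 : ℝ → ℂ := fun s => φ (x + (1 * s) • e) + φ (x + (-1 * s) • e) - 2 * φ x - (s ^ 2 : ℝ) • g x with hF0
  have hd0 : ∀ s, HasDerivAt F0 (F1 s) s := by
    intro s
    have h1 := ((dφ 1 s).add (dφ (-1) s)).sub_const (2 * φ x)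
    have h2 : HasDerivAt (fun s : ℝ => (s ^ 2 : ℝ) • g x) ((2 * s : ℝ) • g x) s := by
      have h3 : HasDerivAt (fun s : ℝ => s ^ 2) (2 * s) s := by
        simpa using hasDerivAt_pow 2 s
      exact h3.smul_const (g x)
    refine (h1.sub h2).congr_deriv ?_
    simp only [hF1, one_smul, neg_smul]
    ring
  have hd1 : ∀ s, HasDerivAt F1 (g (x + (1 * s) • e) + g (x + (-1 * s) • e) - (2:ℝ) • g x) s := by
    intro s
    have h1 := (dG 1 s).sub (dG (-1) s)
    have h2 : HasDerivAt (fun s : ℝ => (2 * s : ℝ) • g x) ((2:ℝ) • g x) s := by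
      have h3 : HasDerivAt (fun s : ℝ => 2 * s) 2 s := by
        simpa using (hasDerivAt_id s).const_mul 2
      exact h3.smul_const (g x)
    refine (h1.sub h2).congr_deriv ?_
    simp only [one_smul, neg_smul]
    ring
  have hb1 : ∀ s ∈ Set.Ico 0 h, ‖g (x + (1 * s) • e) + g (x + (-1 * s) • e) - (2:ℝ) • g x‖ ≤ 2 * ε' := by
    intro s hs
    have e1 : g (x + (1 * s) • e) + g (x + (-1 * s) • e) - (2:ℝ) • g x =
        (g (x + (1 * s) • e) - g x) + (g (x + (-1 * s) • e) - g x) := by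
      rw [two_smul]; ring
    rw [e1]
    have hs1 : |s| < δ := by rw [abs_of_nonneg hs.1]; linarith [hs.2]
    have a1 := hunif (x + (1 * s) • e) x (by
      rw [dist_eq_norm, add_sub_cancel_left, norm_smul, he, mul_one, one_mul]
      exact hs1)
    have a2 := hunif (x + (-1 * s) • e) x (by
      rw [dist_eq_norm, add_sub_cancel_left, norm_smul, he, mul_one, neg_one_mul, norm_neg]
      exact hs1)
    calc ‖(g (x + (1 * s) • e) - g x) + (g (x + (-1 * s) • e) - g x)‖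
        ≤ ‖g (x + (1 * s) • e) - g x‖ + ‖g (x + (-1 * s) • e) - g x‖ := norm_add_le _ _
      _ ≤ ε' + ε' := add_le_add a1 a2
      _ = 2 * ε' := by ring
  have hF10 : F1 0 = 0 := by simp [hF1]
  have hF00 : F0 0 = 0 := by simp [hF0]; ring
  have hε0 : 0 ≤ 2 * ε' := (norm_nonneg _).trans (hb1 0 ⟨le_rfl, h0⟩)
  have hb0 : ∀ s ∈ Set.Icc 0 h, ‖F1 s‖ ≤ 2 * ε' * h := by
    intro s hs
    have := norm_image_sub_le_of_norm_deriv_le_segment' (f := F1) (a := 0) (b := h)
      (fun s _ => (hd1 s).hasDerivWithinAt) hb1 s hs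
    rw [hF10, sub_zero, sub_zero] at this
    refine this.trans ?_
    exact mul_le_mul_of_nonneg_left hs.2 hε0
  have hfin := norm_image_sub_le_of_norm_deriv_le_segment' (f := F0) (a := 0) (b := h)
      (fun s _ => (hd0 s).hasDerivWithinAt) (fun s hs => hb0 s (Set.Ico_subset_Icc_self hs)) h
      (Set.right_mem_Icc.2 h0.le)
  rw [hF00, sub_zero, sub_zero] at hfin
  have e2 : F0 h = (φ (x + h • e) + φ (x - h • e) - 2 * φ x) - ((h : ℂ) ^ 2) * g x := by
    simp only [hF0, one_mul, neg_mul, neg_smul, ← sub_eq_add_neg]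
    rw [Complex.real_smul]
    push_cast
    ring
  rw [e2] at hfin
  exact hfin

end aux

theorem lap_unif (d : ℕ) (φ : EuclideanSpace ℝ (Fin d) → ℂ) (hφ : ContDiff ℝ (⊤ : ℕ∞) φ)
    (hc : HasCompactSupport φ) (ε : ℝ) (hε : 0 < ε) :
    ∃ h0 : ℝ, 0 < h0 ∧ ∀ h : ℝ, 0 < h → h < h0 → ∀ x : EuclideanSpace ℝ (Fin d),
      ‖(∑ i : Fin d, (φ (x + h • EuclideanSpace.single i (1 : ℝ))
        + φ (x - h • EuclideanSpace.single i (1 : ℝ)) - 2 * φ x)) / (h : ℂ) ^ 2
        - (Δ φ) x‖ ≤ ε := by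
  classical
  set ε' : ℝ := ε / (2 * (d + 1)) with hε'
  have hε'0 : 0 < ε' := by positivity
  have hnorm : ∀ i : Fin d, ‖EuclideanSpace.single i (1 : ℝ)‖ = 1 := by
    intro i; simp
  have hex : ∀ i : Fin d, ∃ δ : ℝ, 0 < δ ∧ ∀ a b : EuclideanSpace ℝ (Fin d), dist a b < δ →
      ‖fderiv ℝ (fun y => fderiv ℝ φ y (EuclideanSpace.single i (1 : ℝ))) a (EuclideanSpace.single i (1 : ℝ)) -
      fderiv ℝ (fun y => fderiv ℝ φ y (EuclideanSpace.single i (1 : ℝ))) b (EuclideanSpace.single i (1 : ℝ))‖ ≤ ε' := by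
    intro i
    set e := EuclideanSpace.single i (1 : ℝ) with he
    have h1 : HasCompactSupport (fun y => fderiv ℝ φ y e) := hc.fderiv_apply (𝕜 := ℝ) e
    have h2 : HasCompactSupport (fun y => fderiv ℝ (fun y => fderiv ℝ φ y e) y e) :=
      h1.fderiv_apply (𝕜 := ℝ) e
    have hGc : ContDiff ℝ (⊤ : ℕ∞) (fun y => fderiv ℝ φ y e) := by
      have h1 : ContDiff ℝ (⊤ : ℕ∞) (fderiv ℝ φ) := hφ.fderiv_right (by simp)
      exact h1.clm_apply contDiff_const
    have hgc : ContDiff ℝ (⊤ : ℕ∞) (fun y => fderiv ℝ (fun y => fderiv ℝ φ y e) y e) := by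
      have h1 : ContDiff ℝ (⊤ : ℕ∞) (fderiv ℝ (fun y => fderiv ℝ φ y e)) := hGc.fderiv_right (by simp)
      exact h1.clm_apply contDiff_const
    have h3 := h2.uniformContinuous_of_continuous hgc.continuous
    rw [Metric.uniformContinuous_iff] at h3
    obtain ⟨δ, hδ, h4⟩ := h3 ε' hε'0
    refine ⟨δ, hδ, fun a b hab => ?_⟩
    have := h4 hab
    rw [dist_eq_norm] at this
    exact this.le
  choose δ hδ0 hδ using hex
  obtain ⟨h0, hh0, hmin⟩ : ∃ m : ℝ, 0 < m ∧ ∀ i, m ≤ δ i := by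
    rcases isEmpty_or_nonempty (Fin d) with hE | hN
    · exact ⟨1, one_pos, fun i => hE.elim i⟩
    · obtain ⟨i0, hi0⟩ := Finite.exists_min δ
      exact ⟨δ i0, hδ0 i0, hi0⟩
  refine ⟨h0, hh0, fun h hh hlt x => ?_⟩
  have hlap : (Δ φ) x = ∑ i : Fin d, fderiv ℝ (fun y => fderiv ℝ φ y (EuclideanSpace.single i (1 : ℝ))) x
      (EuclideanSpace.single i (1 : ℝ)) := by
    rw [InnerProductSpace.laplacian_eq_iteratedFDeriv_orthonormalBasis φ (EuclideanSpace.basisFun (Fin d) ℝ)]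
    apply Finset.sum_congr rfl
    intro i _
    rw [iteratedFDeriv_two_apply]
    simp only [Matrix.cons_val_zero, Matrix.cons_val_one, EuclideanSpace.basisFun_apply]
    have h1 : ContDiff ℝ (⊤ : ℕ∞) (fderiv ℝ φ) := hφ.fderiv_right (by simp)
    have h2 : DifferentiableAt ℝ (fderiv ℝ φ) x := h1.differentiable (by simp) x
    rw [fderiv_clm_apply h2 (differentiableAt_const _)]
    simp
  have hh2 : ((h : ℂ) ^ 2) ≠ 0 := by
    have : (h : ℂ) ≠ 0 := by exact_mod_cast hh.ne'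
    exact pow_ne_zero 2 this
  have e1 : (∑ i : Fin d, (φ (x + h • EuclideanSpace.single i (1 : ℝ))
        + φ (x - h • EuclideanSpace.single i (1 : ℝ)) - 2 * φ x)) / (h : ℂ) ^ 2 - (Δ φ) x =
      (∑ i : Fin d, ((φ (x + h • EuclideanSpace.single i (1 : ℝ))
        + φ (x - h • EuclideanSpace.single i (1 : ℝ)) - 2 * φ x) - ((h : ℂ) ^ 2) *
        fderiv ℝ (fun y => fderiv ℝ φ y (EuclideanSpace.single i (1 : ℝ))) x
      (EuclideanSpace.single i (1 : ℝ)))) / (h : ℂ) ^ 2 := by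
    conv_rhs => rw [Finset.sum_sub_distrib, ← Finset.mul_sum, ← hlap, sub_div, mul_div_cancel_left₀ _ hh2]
  rw [e1, norm_div]
  have hnh : ‖((h : ℂ) ^ 2)‖ = h * h := by
    rw [norm_pow, Complex.norm_real, Real.norm_of_nonneg hh.le, sq]
  rw [hnh, div_le_iff₀ (by positivity)]
  calc ‖∑ i : Fin d, ((φ (x + h • EuclideanSpace.single i (1 : ℝ))
        + φ (x - h • EuclideanSpace.single i (1 : ℝ)) - 2 * φ x) - ((h : ℂ) ^ 2) *
        fderiv ℝ (fun y => fderiv ℝ φ y (EuclideanSpace.single i (1 : ℝ))) x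
      (EuclideanSpace.single i (1 : ℝ)))‖
      ≤ ∑ i : Fin d, 2 * ε' * h * h := by
        refine (norm_sum_le _ _).trans (Finset.sum_le_sum (fun i _ => ?_))
        exact second_diff φ hφ _ (hnorm i) ε' (δ i) (hδ i) h hh (lt_of_lt_of_le hlt (hmin i)) x
    _ = (d : ℝ) * (2 * ε' * h * h) := by
        rw [Finset.sum_const, Finset.card_univ, Fintype.card_fin, nsmul_eq_mul]
    _ ≤ ε * (h * h) := by
        have h3 : (d : ℝ) * (2 * ε') ≤ ε := by
          rw [hε']
          have hd : (0:ℝ) ≤ d := Nat.cast_nonneg d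
          have : (d:ℝ) * (2 * (ε / (2 * (d + 1)))) = ε * (d / (d + 1)) := by
            field_simp
          rw [this]
          have h4 : (d:ℝ) / (d + 1) ≤ 1 := by
            rw [div_le_one (by positivity)]; linarith
          nlinarith
        have h5 : 0 ≤ h * h := by positivity
        nlinarith

end CE
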