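import Pool.Agent.H631.Block
import Pool.Agent.H631.Comm

open Finset Matrix

namespace CE

noncomputable section

/-- a triangular system of quadratic inequalities with small right-hand side -/
theorem rec_small (N : ℕ) (B : ℝ) (hB : 0 ≤ B) (δ : ℝ) (hδ : 0 < δ) :
    ∃ D₀ : ℝ, 0 < D₀ ∧ ∀ a : Fin N → ℝ, (∀ k, 0 ≤ a k) → ∀ D : ℝ, D ≤ D₀ →
      (∀ k, (a k) ^ 2 / 2 ≤ D + B * ∑ l ∈ Finset.univ.filter (fun l => l < k), a l) →
      ∀ k, a k ≤ δ := by
  have key : ∀ n : ℕ, ∀ δ : ℝ, 0 < δ → ∃ D₀ : ℝ, 0 < D₀ ∧ ∀ a : Fin N → ℝ, (∀ k, 0 ≤ a k) →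
      ∀ D : ℝ, D ≤ D₀ →
      (∀ k, (a k) ^ 2 / 2 ≤ D + B * ∑ l ∈ Finset.univ.filter (fun l => l < k), a l) →
      ∀ k : Fin N, k.val < n → a k ≤ δ := by
    intro n
    induction n with
    | zero => intro δ _; exact ⟨1, one_pos, fun a _ D _ _ k hk => absurd hk (Nat.not_lt_zero _)⟩
    | succ n ih =>
      intro δ hδ
      set δ' : ℝ := min δ (δ ^ 2 / (4 * (B + 1) * (N + 1))) with hδ'
      have hδ'0 : 0 < δ' := lt_min hδ (by positivity)
      obtain ⟨D₁, hD₁, h1⟩ := ih δ' hδ'0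
      refine ⟨min D₁ (δ ^ 2 / 4), lt_min hD₁ (by positivity), ?_⟩
      intro a ha D hD hrec k hk
      have hprev := h1 a ha D (hD.trans (min_le_left _ _)) hrec
      rcases Nat.lt_succ_iff_lt_or_eq.1 hk with h | h
      · exact (hprev k h).trans (min_le_left _ _)
      · have hsum : ∑ l ∈ Finset.univ.filter (fun l => l < k), a l ≤ N * δ' := by
          calc _ ≤ ∑ l ∈ Finset.univ.filter (fun l => l < k), δ' := by
                apply Finset.sum_le_sum
                intro l hl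
                rw [Finset.mem_filter] at hl
                apply hprev
                have : l.val < k.val := hl.2
                omega
            _ = ((Finset.univ.filter (fun l : Fin N => l < k)).card : ℝ) * δ' := by
                rw [Finset.sum_const, nsmul_eq_mul]
            _ ≤ N * δ' := by
                apply mul_le_mul_of_nonneg_right _ hδ'0.le
                have : (Finset.univ.filter (fun l : Fin N => l < k)).card ≤ N := by
                  refine (Finset.card_filter_le _ _).trans ?_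
                  simp
                exact_mod_cast this
        have h2 := hrec k
        have h3 : B * ∑ l ∈ Finset.univ.filter (fun l => l < k), a l ≤ δ ^ 2 / 4 := by
          have h4 : δ' ≤ δ ^ 2 / (4 * (B + 1) * (N + 1)) := min_le_right _ _
          rw [le_div_iff₀ (by positivity)] at h4
          have h5 : B * ∑ l ∈ Finset.univ.filter (fun l => l < k), a l ≤ B * (N * δ') :=
            mul_le_mul_of_nonneg_left hsum hB
          have h6 : B * (N * δ') ≤ (B + 1) * ((N + 1) * δ') := by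
            have hN : (0 : ℝ) ≤ N := Nat.cast_nonneg N
            apply mul_le_mul (by linarith) _ (by positivity) (by linarith)
            apply mul_le_mul_of_nonneg_right (by linarith) hδ'0.le
          nlinarith
        have h7 : D ≤ δ ^ 2 / 4 := hD.trans (min_le_right _ _)
        have h8 : (a k) ^ 2 ≤ δ ^ 2 := by linarith
        exact (pow_le_pow_iff_left₀ (ha k) hδ.le (by norm_num)).1 h8
  obtain ⟨D₀, hD₀, h⟩ := key N δ hδ
  exact ⟨D₀, hD₀, fun a ha D hD hrec k => h a ha D hD hrec k k.2⟩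

/-- cyclic distance to zero of the `i`-th coordinate -/
def cd (d M : ℕ) (i : Fin d) (x : Tor d M) : ℕ := (x i).valMinAbs.natAbs

theorem cd_step (d M : ℕ) [NeZero M] (i j : Fin d) (x : Tor d M) :
    |((cd d M i (x + Pi.single j 1) : ℕ) : ℝ) - cd d M i x| ≤ 1 := by
  unfold cd
  by_cases h : i = j
  · subst h
    have e : (x + Pi.single i 1 : Tor d M) i = x i + 1 := by simp
    rw [e]
    have h1 : ((1 : ZMod M)).valMinAbs.natAbs ≤ 1 := by
      have h2 := ZMod.valMinAbs_natAbs_eq_min (1 : ZMod M)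
      rw [h2]
      refine (min_le_left _ _).trans ?_
      rw [ZMod.val_one_eq_one_mod]; exact Nat.mod_le _ _
    have h3 : (x i + 1).valMinAbs.natAbs ≤ (x i).valMinAbs.natAbs + 1 := by
      refine (ZMod.natAbs_valMinAbs_add_le _ _).trans ?_
      refine (Int.natAbs_add_le _ _).trans ?_
      omega
    have h4 : (x i).valMinAbs.natAbs ≤ (x i + 1).valMinAbs.natAbs + 1 := by
      have h5 : x i = (x i + 1) + (-1) := by ring
      have h6 : ((-1 : ZMod M)).valMinAbs.natAbs ≤ 1 := by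
        rw [ZMod.natAbs_valMinAbs_neg]; exact h1
      have h7 := (ZMod.natAbs_valMinAbs_add_le (x i + 1) (-1)).trans (Int.natAbs_add_le _ _)
      rw [← h5] at h7
      omega
    rw [abs_le]
    constructor
    · have : ((x i).valMinAbs.natAbs : ℝ) ≤ (x i + 1).valMinAbs.natAbs + 1 := by exact_mod_cast h4
      linarith
    · have : ((x i + 1).valMinAbs.natAbs : ℝ) ≤ (x i).valMinAbs.natAbs + 1 := by exact_mod_cast h3
      linarith
  · have e : (x + Pi.single j 1 : Tor d M) i = x i := by simp [h]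
    rw [e]; simp

/-- the cutoff function -/
def cut (d M : ℕ) (m ρ : ℕ) (i : Fin d) (x : Tor d M) : ℝ :=
  min 1 (max 0 (((cd d M i x : ℝ) - m) / (ρ * m)))

theorem cut_nonneg (d M m ρ : ℕ) (i : Fin d) (x : Tor d M) : 0 ≤ cut d M m ρ i x :=
  le_min zero_le_one (le_max_left _ _)

theorem cut_le_one (d M m ρ : ℕ) (i : Fin d) (x : Tor d M) : cut d M m ρ i x ≤ 1 :=
  min_le_left _ _

theorem clamp_lip (s t : ℝ) : |min 1 (max 0 s) - min 1 (max 0 t)| ≤ |s - t| := by
  have h1 : |min 1 (max 0 s) - min 1 (max 0 t)| ≤ |max 0 s - max 0 t| := by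
    have := abs_min_sub_min_le_max 1 (max 0 s) 1 (max 0 t)
    simpa using this
  have h2 : |max 0 s - max 0 t| ≤ |s - t| := by
    have := abs_max_sub_max_le_max 0 s 0 t
    simpa using this
  exact h1.trans h2

theorem cut_lip (d M m ρ : ℕ) [NeZero M] (i j : Fin d) (x : Tor d M) :
    |cut d M m ρ i (x + Pi.single j 1) - cut d M m ρ i x| ≤ 1 / ((ρ : ℝ) * m) := by
  unfold cut
  refine (clamp_lip _ _).trans ?_
  rw [← sub_div, abs_div, abs_of_nonneg (by positivity : (0 : ℝ) ≤ (ρ : ℝ) * m)]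
  apply div_le_div_of_nonneg_right _ (by positivity)
  have := cd_step d M i j x
  have e : ((cd d M i (x + Pi.single j 1) : ℕ) : ℝ) - m - ((cd d M i x : ℝ) - m) =
    ((cd d M i (x + Pi.single j 1) : ℕ) : ℝ) - cd d M i x := by ring
  rw [e]; exact this

theorem cut_cube (d M m ρ : ℕ) [NeZero M] (i : Fin d) (x : Tor d M) (hx : x ∈ cubeQ d M m) :
    cut d M m ρ i x = 0 := by
  unfold cut
  have h1 : cd d M i x < m := by
    unfold cd
    rw [ZMod.valMinAbs_natAbs_eq_min]
    exact lt_of_le_of_lt (min_le_left _ _) (hx i)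
  have h2 : ((cd d M i x : ℝ) - m) / (ρ * m) ≤ 0 := by
    apply div_nonpos_of_nonpos_of_nonneg _ (by positivity)
    have : (cd d M i x : ℝ) < m := by exact_mod_cast h1
    linarith
  rw [max_eq_left h2]; simp

theorem cut_far (d M m ρ : ℕ) (hm : 0 < m) (hρ : 0 < ρ) (i : Fin d) (x : Tor d M)
    (hx : (ρ + 1) * m ≤ cd d M i x) : cut d M m ρ i x = 1 := by
  unfold cut
  have hm' : (0 : ℝ) < m := by exact_mod_cast hm
  have hρ' : (0 : ℝ) < ρ := by exact_mod_cast hρ
  have h2 : 1 ≤ ((cd d M i x : ℝ) - m) / (ρ * m) := by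
    rw [le_div_iff₀ (by positivity)]
    have : (((ρ + 1) * m : ℕ) : ℝ) ≤ cd d M i x := by exact_mod_cast hx
    push_cast at this
    linarith
  rw [max_eq_right (by linarith), min_eq_left h2]

theorem cd_of_int (d L : ℕ) [NeZero (2 * L)] (i : Fin d) (X : Fin d → ℤ) (h1 : -(L : ℤ) ≤ X i)
    (h2 : X i < L) : ((cd d (2 * L) i (fun i => (X i : ZMod (2 * L))) : ℕ) : ℤ) = |X i| := by
  unfold cd
  by_cases h : X i = -(L : ℤ)
  · have hv : ((X i : ZMod (2 * L))).valMinAbs = L := by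
      rw [ZMod.valMinAbs_spec]
      refine ⟨?_, ?_⟩
      · rw [h]
        push_cast
        have : ((2 * L : ℕ) : ZMod (2 * L)) = 0 := ZMod.natCast_self _
        push_cast at this
        linear_combination - this
      · rw [Set.mem_Ioc]; push_cast
        have hL : 0 < 2 * L := Nat.pos_of_ne_zero (NeZero.ne _)
        omega
    rw [hv, h]; simp
  · have hv : ((X i : ZMod (2 * L))).valMinAbs = X i := by
      rw [ZMod.valMinAbs_spec]
      refine ⟨rfl, ?_⟩
      rw [Set.mem_Ioc]; push_cast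
      omega
    rw [hv]; simp

open Classical in
/-- TARGET: the triangular family is concentrated near the cube, uniformly in the mesh -/
theorem tight (d N : ℕ) (B K h δ : ℝ) (hB : 0 ≤ B) (hK : 0 ≤ K) (hh : 0 < h) (hδ : 0 < δ) :
    ∃ ρ₀ : ℕ, 0 < ρ₀ ∧ ∀ (m L : ℕ) [NeZero (2 * L)], 0 < m → m ≤ L →
      ∀ (u : Fin N → Tor d (2 * L) → ℂ) (t : Fin N → Fin N → ℂ),
        (∀ k, ∑ x, ‖u k x‖ ^ 2 ≤ 1) →
        (∀ k, h ^ 2 * (m : ℝ) ^ 2 * en d (2 * L) (u k) ≤ 4 * K) →
        (∀ k l, ‖t l k‖ ≤ B) → (∀ k, 1 / 2 ≤ (t k k).im) →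
        (∀ k x, (∑ y, (lapM d (2 * L) (h ^ 2 * (m : ℝ) ^ 2) x y : ℂ) * u k y)
          + (if x ∈ cubeQ d (2 * L) m then Complex.I else 0) * u k x
            = ∑ l ∈ Finset.univ.filter (fun l => l ≤ k), t l k * u l x) →
        ∀ k, ∑ X ∈ (ibox d L) \ (ibox d (ρ₀ * m)), ‖lft d (2 * L) (u k) X‖ ^ 2 ≤ δ := by
  set δ₁ : ℝ := Real.sqrt (δ / (d + 1)) with hδ₁
  have hδ₁0 : 0 < δ₁ := Real.sqrt_pos.2 (by positivity)
  have hδ₁sq : δ₁ ^ 2 = δ / (d + 1) := Real.sq_sqrt (by positivity)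
  obtain ⟨D₀, hD₀, hrec⟩ := rec_small N B hB δ₁ hδ₁0
  obtain ⟨ρ, hρ⟩ := exists_nat_gt (2 * h * Real.sqrt d * Real.sqrt (4 * K) / D₀)
  have hρ0 : 0 < ρ := by
    have h1 : 0 ≤ 2 * h * Real.sqrt d * Real.sqrt (4 * K) / D₀ := by positivity
    have : (0 : ℝ) < ρ := lt_of_le_of_lt h1 hρ
    exact_mod_cast this
  have hρr : (0 : ℝ) < ρ := by exact_mod_cast hρ0
  refine ⟨ρ + 1, Nat.succ_pos _, ?_⟩
  intro m L _ hm hmL u t hu hen ht htk hrel k
  have hmr : (0 : ℝ) < m := by exact_mod_cast hm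
  set D : ℝ := 2 * h * Real.sqrt d * Real.sqrt (4 * K) / ρ with hD
  have hDle : D ≤ D₀ := by
    rw [hD, div_le_iff₀ hρr]
    rw [div_lt_iff₀ hD₀] at hρ
    linarith
  -- the localized norms
  have hmain : ∀ i : Fin d, ∀ k, Real.sqrt (∑ x, cut d (2 * L) m ρ i x ^ 2 * ‖u k x‖ ^ 2) ≤ δ₁ := by
    intro i
    set χ : Tor d (2 * L) → ℝ := cut d (2 * L) m ρ i with hχ
    set a : Fin N → ℝ := fun k => Real.sqrt (∑ x, χ x ^ 2 * ‖u k x‖ ^ 2) with ha
    have hχ0 : ∀ x, 0 ≤ χ x := fun x => cut_nonneg _ _ _ _ _ _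
    have hχ1 : ∀ x, χ x ≤ 1 := fun x => cut_le_one _ _ _ _ _ _
    have hnn : ∀ k, 0 ≤ ∑ x, χ x ^ 2 * ‖u k x‖ ^ 2 := fun k =>
      Finset.sum_nonneg fun x _ => by positivity
    have ha0 : ∀ k, 0 ≤ a k := fun k => Real.sqrt_nonneg _
    have hasq : ∀ k, a k ^ 2 = ∑ x, χ x ^ 2 * ‖u k x‖ ^ 2 := fun k => Real.sq_sqrt (hnn k)
    have ha1 : ∀ k, a k ≤ 1 := by
      intro k
      rw [← Real.sqrt_one]
      apply Real.sqrt_le_sqrt
      refine le_trans (Finset.sum_le_sum fun x _ => ?_) (hu k)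
      have h1 : χ x ^ 2 ≤ 1 := pow_le_one₀ (hχ0 x) (hχ1 x)
      have h2 : 0 ≤ ‖u k x‖ ^ 2 := by positivity
      nlinarith
    refine hrec a ha0 D hDle ?_
    intro k
    -- commutator estimate
    have hcom := commutator d (2 * L) (h ^ 2 * (m : ℝ) ^ 2) (by positivity) χ (1 / ((ρ : ℝ) * m))
      (by positivity) hχ0 hχ1 (fun x j => cut_lip d (2 * L) m ρ i j x) (u k)
    have hcomD : 2 * (h ^ 2 * (m : ℝ) ^ 2) * (1 / ((ρ : ℝ) * m)) * Real.sqrt d *
        (Real.sqrt (∑ x, ‖u k x‖ ^ 2) * Real.sqrt (en d (2 * L) (u k))) ≤ D := by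
      have h1 : Real.sqrt (∑ x, ‖u k x‖ ^ 2) ≤ 1 := by
        rw [← Real.sqrt_one]; exact Real.sqrt_le_sqrt (hu k)
      have h2 : Real.sqrt (en d (2 * L) (u k)) ≤ Real.sqrt (4 * K) / (h * m) := by
        rw [le_div_iff₀ (by positivity)]
        have : h * m = Real.sqrt ((h * m) ^ 2) := (Real.sqrt_sq (by positivity)).symm
        rw [this, ← Real.sqrt_mul' _ (by positivity)]
        apply Real.sqrt_le_sqrt
        have := hen k
        rw [mul_pow]; linarith
      have h3 : Real.sqrt (∑ x, ‖u k x‖ ^ 2) * Real.sqrt (en d (2 * L) (u k)) ≤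
          1 * (Real.sqrt (4 * K) / (h * m)) :=
        mul_le_mul h1 h2 (Real.sqrt_nonneg _) zero_le_one
      have h4 : 0 ≤ 2 * (h ^ 2 * (m : ℝ) ^ 2) * (1 / ((ρ : ℝ) * m)) * Real.sqrt d := by positivity
      refine (mul_le_mul_of_nonneg_left h3 h4).trans (le_of_eq ?_)
      rw [hD]; field_simp
    -- the identity
    have hid : (∑ x, ((χ x : ℂ) ^ 2 * (starRingEnd ℂ) (u k x)) *
        ∑ y, (lapM d (2 * L) (h ^ 2 * (m : ℝ) ^ 2) x y : ℂ) * u k y) =
        ∑ l ∈ Finset.univ.filter (fun l => l ≤ k),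
          t l k * ∑ x, (χ x : ℂ) ^ 2 * ((starRingEnd ℂ) (u k x) * u l x) := by
      have h1 : ∀ x, ((χ x : ℂ) ^ 2 * (starRingEnd ℂ) (u k x)) *
          ∑ y, (lapM d (2 * L) (h ^ 2 * (m : ℝ) ^ 2) x y : ℂ) * u k y =
          ∑ l ∈ Finset.univ.filter (fun l => l ≤ k),
            t l k * ((χ x : ℂ) ^ 2 * ((starRingEnd ℂ) (u k x) * u l x)) := by
        intro x
        by_cases hx : x ∈ cubeQ d (2 * L) m
        · have h0 : χ x = 0 := cut_cube d (2 * L) m ρ i x hx
          rw [h0]; simp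
        · have h2 := hrel k x
          rw [if_neg hx, zero_mul, add_zero] at h2
          rw [h2, Finset.mul_sum]
          apply Finset.sum_congr rfl
          intro l _
          ring
      rw [Finset.sum_congr rfl (fun x _ => h1 x), Finset.sum_comm]
      apply Finset.sum_congr rfl
      intro l _
      rw [Finset.mul_sum]
    have hsplit : Finset.univ.filter (fun l => l ≤ k) =
        insert k (Finset.univ.filter (fun l => l < k)) := by
      ext l
      simp only [Finset.mem_filter, Finset.mem_univ, true_and, Finset.mem_insert]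
      exact le_iff_eq_or_lt
    rw [hsplit, Finset.sum_insert (by simp)] at hid
    have hdiag : ∑ x, (χ x : ℂ) ^ 2 * ((starRingEnd ℂ) (u k x) * u k x) = ((a k ^ 2 : ℝ) : ℂ) := by
      rw [hasq]
      push_cast
      apply Finset.sum_congr rfl
      intro x _
      rw [← Complex.conj_mul']
    rw [hdiag] at hid
    rw [hid, Complex.add_im, Complex.im_mul_ofReal] at hcom
    have hoff : |(∑ l ∈ Finset.univ.filter (fun l => l < k),
          t l k * ∑ x, (χ x : ℂ) ^ 2 * ((starRingEnd ℂ) (u k x) * u l x)).im| ≤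
        B * ∑ l ∈ Finset.univ.filter (fun l => l < k), a l := by
      refine (Complex.abs_im_le_norm _).trans ?_
      rw [Finset.mul_sum]
      refine (norm_sum_le _ _).trans (Finset.sum_le_sum fun l _ => ?_)
      rw [norm_mul]
      have h1 : ‖∑ x, (χ x : ℂ) ^ 2 * ((starRingEnd ℂ) (u k x) * u l x)‖ ≤ a l := by
        calc ‖∑ x, (χ x : ℂ) ^ 2 * ((starRingEnd ℂ) (u k x) * u l x)‖
            ≤ ∑ x, (χ x * ‖u k x‖) * (χ x * ‖u l x‖) := by
              refine (norm_sum_le _ _).trans (Finset.sum_le_sum fun x _ => le_of_eq ?_)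
              rw [norm_mul, norm_mul, norm_pow, Complex.norm_real, Complex.norm_conj,
                Real.norm_of_nonneg (hχ0 x)]
              ring
          _ ≤ Real.sqrt (∑ x, (χ x * ‖u k x‖) ^ 2) * Real.sqrt (∑ x, (χ x * ‖u l x‖) ^ 2) :=
              Real.sum_mul_le_sqrt_mul_sqrt _ _ _
          _ = a k * a l := by
              simp only [ha, mul_pow]
          _ ≤ 1 * a l := mul_le_mul_of_nonneg_right (ha1 k) (ha0 l)
          _ = a l := one_mul _
      exact mul_le_mul (ht k l) h1 (norm_nonneg _) hB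
    have hdiag2 : a k ^ 2 / 2 ≤ (t k k).im * a k ^ 2 := by
      have := mul_le_mul_of_nonneg_right (htk k) (sq_nonneg (a k))
      linarith
    have h5 := (abs_le.1 (hcom.trans hcomD)).2
    have h6 := (abs_le.1 hoff).1
    linarith
  -- conclusion
  have hfinal : ∑ X ∈ (ibox d L) \ (ibox d ((ρ + 1) * m)), ‖lft d (2 * L) (u k) X‖ ^ 2 ≤
      ∑ X ∈ ibox d L, (fun x : Tor d (2 * L) => ∑ i : Fin d, cut d (2 * L) m ρ i x ^ 2 * ‖u k x‖ ^ 2)
        (fun i => (X i : ZMod (2 * L))) := by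
    refine le_trans (Finset.sum_le_sum ?_)
      (Finset.sum_le_sum_of_subset_of_nonneg Finset.sdiff_subset
      (fun X _ _ => Finset.sum_nonneg fun i _ => by positivity))
    intro X hX
    rw [Finset.mem_sdiff] at hX
    obtain ⟨h1, h2⟩ := hX
    have h1' : ∀ i, -(L : ℤ) ≤ X i ∧ X i < L := by
      intro i
      unfold ibox at h1
      rw [Fintype.mem_piFinset] at h1
      exact Finset.mem_Ico.1 (h1 i)
    have h2' : ∃ i, ¬ (-(((ρ + 1) * m : ℕ) : ℤ) ≤ X i ∧ X i < (((ρ + 1) * m : ℕ) : ℤ)) := by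
      by_contra hcon
      push Not at hcon
      apply h2
      unfold ibox
      rw [Fintype.mem_piFinset]
      intro i
      exact Finset.mem_Ico.2 (hcon i)
    obtain ⟨i, hi⟩ := h2'
    have hcd := cd_of_int d L i X (h1' i).1 (h1' i).2
    have hfar : (ρ + 1) * m ≤ cd d (2 * L) i (fun i => (X i : ZMod (2 * L))) := by
      have h3 : (((ρ + 1) * m : ℕ) : ℤ) ≤ |X i| := by
        rw [le_abs]
        by_contra hcon
        push Not at hcon
        apply hi
        constructor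
        · linarith [hcon.2]
        · exact hcon.1
      rw [← hcd] at h3
      exact_mod_cast h3
    have hcut := cut_far d (2 * L) m ρ hm hρ0 i _ hfar
    have h4 : ‖lft d (2 * L) (u k) X‖ ^ 2 =
        cut d (2 * L) m ρ i (fun i => (X i : ZMod (2 * L))) ^ 2 *
          ‖u k (fun i => (X i : ZMod (2 * L)))‖ ^ 2 := by
      rw [hcut]; unfold lft; ring
    rw [h4]
    exact Finset.single_le_sum (f := fun i => cut d (2 * L) m ρ i (fun i => (X i : ZMod (2 * L))) ^ 2 *
          ‖u k (fun i => (X i : ZMod (2 * L)))‖ ^ 2) (fun i _ => by positivity) (Finset.mem_univ i)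
  refine hfinal.trans ?_
  rw [sum_ibox d L (fun x : Tor d (2 * L) => ∑ i : Fin d, cut d (2 * L) m ρ i x ^ 2 * ‖u k x‖ ^ 2),
    Finset.sum_comm]
  calc ∑ i : Fin d, ∑ x, cut d (2 * L) m ρ i x ^ 2 * ‖u k x‖ ^ 2
      ≤ ∑ i : Fin d, δ₁ ^ 2 := by
        apply Finset.sum_le_sum
        intro i _
        have h1 := hmain i k
        have h2 : 0 ≤ ∑ x, cut d (2 * L) m ρ i x ^ 2 * ‖u k x‖ ^ 2 :=
          Finset.sum_nonneg fun x _ => by positivity
        have h3 := (Real.sqrt_le_left hδ₁0.le).1 h1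
        exact h3
    _ = d * (δ / (d + 1)) := by
        rw [hδ₁sq, Finset.sum_const, Finset.card_univ, Fintype.card_fin, nsmul_eq_mul]
    _ ≤ δ := by
        rw [mul_div_assoc', div_le_iff₀ (by positivity)]
        nlinarith

end

end CE
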