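import Mathlib

open Filter Topology

namespace CE

/-- A bounded family which is asymptotically close to finite-dimensional subspaces converges along
ultrafilters. -/
theorem ultra_compact {E : Type} [NormedAddCommGroup E] [NormedSpace ℂ E] [CompleteSpace E]
    {ι : Type} (U : Ultrafilter ι) (v : ι → E) (C : ℝ) (hv : ∀ i, ‖v i‖ ≤ C)
    (h : ∀ δ : ℝ, 0 < δ → ∃ W : Submodule ℂ E, FiniteDimensional ℂ W ∧
      ∀ᶠ i in (U : Filter ι), ∃ w ∈ W, ‖v i - w‖ ≤ δ) :
    ∃ x : E, Tendsto v (U : Filter ι) (𝓝 x) := by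
  have hc : Cauchy (Filter.map v (U : Filter ι)) := by
    rw [Metric.cauchy_iff]
    refine ⟨inferInstance, fun ε hε => ?_⟩
    obtain ⟨W, hW, hev⟩ := h (ε / 4) (by positivity)
    haveI : ProperSpace W := FiniteDimensional.proper ℂ W
    obtain ⟨t, -, htf, htc⟩ := (isCompact_closedBall (0 : W) (C + ε / 4)).finite_cover_balls
      (e := ε / 4) (by positivity)
    have hmem : (⋃ x ∈ t, {i | ‖v i - (x : E)‖ < 2 * (ε / 4)}) ∈ (U : Filter ι) := by
      filter_upwards [hev] with i hi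
      obtain ⟨w, hwW, hw⟩ := hi
      have hwn : (⟨w, hwW⟩ : W) ∈ Metric.closedBall (0 : W) (C + ε / 4) := by
        rw [mem_closedBall_zero_iff]
        have h1 : ‖w‖ ≤ ‖v i‖ + ‖v i - w‖ := by
          calc ‖w‖ = ‖v i - (v i - w)‖ := by congr 1; abel
            _ ≤ _ := norm_sub_le _ _
        have h2 := hv i
        calc ‖(⟨w, hwW⟩ : W)‖ = ‖w‖ := rfl
          _ ≤ C + ε / 4 := by linarith
      have h3 := htc hwn
      simp only [Set.mem_iUnion] at h3 ⊢
      obtain ⟨x, hx, hxb⟩ := h3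
      refine ⟨x, hx, ?_⟩
      have h4 : ‖w - (x : E)‖ < ε / 4 := by
        have := mem_ball_iff_norm.1 hxb
        exact this
      have h5 : ‖v i - (x : E)‖ ≤ ‖v i - w‖ + ‖w - (x : E)‖ := by
        calc ‖v i - (x : E)‖ = ‖(v i - w) + (w - x)‖ := by congr 1; abel
          _ ≤ _ := norm_add_le _ _
      show ‖v i - (x : E)‖ < 2 * (ε / 4)
      linarith
    obtain ⟨x, -, hx⟩ := (Ultrafilter.finite_biUnion_mem_iff htf).1 hmem
    refine ⟨Metric.ball (x : E) (2 * (ε / 4)), ?_, ?_⟩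
    · rw [Filter.mem_map]
      refine Filter.mem_of_superset hx ?_
      intro i hi
      exact mem_ball_iff_norm.2 hi
    · intro a ha b hb
      have h1 := Metric.mem_ball.1 ha
      have h2 := Metric.mem_ball'.1 hb
      have := dist_triangle a (x : E) b
      linarith
  obtain ⟨x, hx⟩ := CompleteSpace.complete hc
  exact ⟨x, hx⟩

end CE
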