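import Pool.Agent.H631.Weak
import Pool.Agent.H631.LapUnif

open MeasureTheory Filter Topology ENNReal Finset
open scoped Laplacian

namespace CE

noncomputable section

theorem pairing {d : ℕ} (ψ : EE d → ℂ) (hψ : MemLp ψ 2 (volume : Measure (EE d))) :
    ∃ P : L2 d, (∀ v : L2 d, ∫ x, v x * ψ x = inner ℂ P v) ∧
      ‖P‖ = (eLpNorm ψ 2 (volume : Measure (EE d))).toReal := by
  refine ⟨hψ.star.toLp (star ψ), fun v => ?_, ?_⟩
  · rw [MeasureTheory.L2.inner_def]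
    apply integral_congr_ae
    filter_upwards [hψ.star.coeFn_toLp] with x hx
    rw [hx]
    simp [RCLike.inner_apply]
  · rw [Lp.norm_toLp, eLpNorm_star]

theorem pair_integrable {d : ℕ} (ψ : EE d → ℂ) (hψ : MemLp ψ 2 (volume : Measure (EE d)))
    (v : L2 d) : Integrable (fun x => v x * ψ x) :=
  (Lp.memLp v).integrable_mul hψ

/-- bound of the pairing with a bounded function supported in a ball -/
theorem pair_bound {d : ℕ} (R : ℝ) : ∃ K : ℝ, 0 ≤ K ∧ ∀ (D : EE d → ℂ) (C : ℝ), 0 ≤ C →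
    Continuous D → (∀ x, R < ‖x‖ → D x = 0) → (∀ x, ‖D x‖ ≤ C) → ∀ v : L2 d,
      ‖∫ x, v x * D x‖ ≤ K * C * ‖v‖ := by
  refine ⟨((volume (Metric.closedBall (0 : EE d) R)) ^ ((2 : ℝ≥0∞).toReal⁻¹)).toReal,
    ENNReal.toReal_nonneg, ?_⟩
  intro D C hC hD h0 hb v
  have hcs : HasCompactSupport D := by
    apply HasCompactSupport.intro (isCompact_closedBall (0 : EE d) R)
    intro x hx
    apply h0
    rw [mem_closedBall_zero_iff] at hx
    push Not at hx
    exact hx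
  have hm : MemLp D 2 (volume : Measure (EE d)) := hD.memLp_of_hasCompactSupport hcs
  obtain ⟨P, hP, hPn⟩ := pairing D hm
  rw [hP v]
  refine (norm_inner_le_norm P v).trans ?_
  apply mul_le_mul_of_nonneg_right _ (norm_nonneg _)
  rw [hPn]
  have hind : D = (Metric.closedBall (0 : EE d) R).indicator D := by
    funext x
    by_cases hx : x ∈ Metric.closedBall (0 : EE d) R
    · rw [Set.indicator_of_mem hx]
    · rw [Set.indicator_of_notMem hx]
      apply h0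
      rw [mem_closedBall_zero_iff] at hx
      push Not at hx
      exact hx
  have h1 : eLpNorm D 2 (volume : Measure (EE d)) ≤
      (volume (Metric.closedBall (0 : EE d) R)) ^ ((2 : ℝ≥0∞).toReal⁻¹) * ENNReal.ofReal C := by
    rw [hind, eLpNorm_indicator_eq_eLpNorm_restrict Metric.isClosed_closedBall.measurableSet]
    refine (eLpNorm_le_of_ae_bound (C := C) (Filter.Eventually.of_forall hb)).trans ?_
    rw [Measure.restrict_apply_univ]
  have hfin : (volume (Metric.closedBall (0 : EE d) R)) ^ ((2 : ℝ≥0∞).toReal⁻¹) ≠ ⊤ := by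
    apply ENNReal.rpow_ne_top_of_nonneg (by positivity)
    exact (isCompact_closedBall (0 : EE d) R).measure_lt_top.ne
  calc (eLpNorm D 2 (volume : Measure (EE d))).toReal
      ≤ ((volume (Metric.closedBall (0 : EE d) R)) ^ ((2 : ℝ≥0∞).toReal⁻¹) *
          ENNReal.ofReal C).toReal :=
        ENNReal.toReal_mono (ENNReal.mul_ne_top hfin ENNReal.ofReal_ne_top) h1
    _ = _ := by rw [ENNReal.toReal_mul, ENNReal.toReal_ofReal hC]

theorem lap_cont {d : ℕ} (φ : EE d → ℂ) (hφ : ContDiff ℝ (⊤ : ℕ∞) φ) : Continuous (Δ φ) := by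
  rw [InnerProductSpace.laplacian_eq_iteratedFDeriv_stdOrthonormalBasis]
  have h : Continuous (iteratedFDeriv ℝ 2 φ) :=
    hφ.continuous_iteratedFDeriv (m := 2) (WithTop.coe_le_coe.2 le_top)
  apply continuous_finsetSum
  intro i _
  exact h.eval_const _

theorem lap_zero {d : ℕ} (φ : EE d → ℂ) {x : EE d} (hx : x ∉ tsupport φ) : (Δ φ) x = 0 := by
  have h : φ =ᶠ[𝓝 x] (fun _ => (0 : ℂ)) := notMem_tsupport_iff_eventuallyEq.1 hx
  have h2 := (InnerProductSpace.laplacian_congr_nhds h).eq_of_nhds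
  rw [h2, InnerProductSpace.laplacian_const]
  rfl

theorem V_memLp {d : ℕ} (φ : EE d → ℂ) (hφ : MemLp φ 2 (volume : Measure (EE d))) :
    MemLp (fun x => Vpot d x * φ x) 2 (volume : Measure (EE d)) := by
  have hs : MeasurableSet {x : EE d | ∀ i, 0 ≤ x i ∧ x i < 1} := by
    have : {x : EE d | ∀ i, 0 ≤ x i ∧ x i < 1} =
        ⋂ i, ({x : EE d | 0 ≤ x i} ∩ {x : EE d | x i < 1}) := by
      ext x
      simp
    rw [this]
    apply MeasurableSet.iInter
    intro i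
    have hm : Measurable (fun x : EE d => x i) := by fun_prop
    exact (measurableSet_le measurable_const hm).inter (measurableSet_lt hm measurable_const)
  have h1 : (fun x => Vpot d x * φ x) =
      Set.indicator {x : EE d | ∀ i, 0 ≤ x i ∧ x i < 1} (fun x => Complex.I * φ x) := by
    funext x
    unfold Vpot
    by_cases hx : x ∈ {x : EE d | ∀ i, 0 ≤ x i ∧ x i < 1}
    · rw [Set.indicator_of_mem hx, Set.indicator_of_mem hx]
    · rw [Set.indicator_of_notMem hx, Set.indicator_of_notMem hx, zero_mul]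
  rw [h1]
  exact (hφ.const_mul Complex.I).indicator hs

/-- the test function of the continuum equation is in `L²` -/
theorem psi_memLp {d : ℕ} (ħ : ℝ) (φ : EE d → ℂ) (hφ : ContDiff ℝ (⊤ : ℕ∞) φ)
    (hc : HasCompactSupport φ) :
    MemLp φ 2 (volume : Measure (EE d)) ∧
      MemLp (fun x => -((ħ : ℂ) ^ 2) * (Δ φ) x + Vpot d x * φ x) 2 (volume : Measure (EE d)) := by
  have h1 : MemLp φ 2 (volume : Measure (EE d)) := hφ.continuous.memLp_of_hasCompactSupport hc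
  have h2 : MemLp (Δ φ) 2 (volume : Measure (EE d)) := by
    apply (lap_cont φ hφ).memLp_of_hasCompactSupport
    exact HasCompactSupport.intro hc (fun x hx => lap_zero φ hx)
  exact ⟨h1, (h2.const_mul _).add (V_memLp φ h1)⟩

/-- TARGET -/
theorem schr_add {d : ℕ} (ħ : ℝ) (u g u' g' : L2 d) (h : SchrRel ħ (Vpot d) u g)
    (h' : SchrRel ħ (Vpot d) u' g') : SchrRel ħ (Vpot d) (u + u') (g + g') := by
  intro φ hφ hc
  obtain ⟨h1, h2⟩ := psi_memLp ħ φ hφ hc
  obtain ⟨P, hP, -⟩ := pairing _ h1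
  obtain ⟨Q, hQ, -⟩ := pairing _ h2
  have a := h φ hφ hc
  have b := h' φ hφ hc
  rw [hQ, hP] at a b ⊢
  rw [inner_add_right, inner_add_right, a, b]

/-- TARGET -/
theorem schr_smul {d : ℕ} (ħ : ℝ) (c : ℂ) (u g : L2 d) (h : SchrRel ħ (Vpot d) u g) :
    SchrRel ħ (Vpot d) (c • u) (c • g) := by
  intro φ hφ hc
  obtain ⟨h1, h2⟩ := psi_memLp ħ φ hφ hc
  obtain ⟨P, hP, -⟩ := pairing _ h1
  obtain ⟨Q, hQ, -⟩ := pairing _ h2
  have a := h φ hφ hc
  rw [hQ, hP] at a ⊢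
  rw [inner_smul_right, inner_smul_right, a]

/-- TARGET: limits of solutions of the lattice equation solve the continuum equation -/
theorem weak_limit (d : ℕ) (ħ : ℝ) (U : Ultrafilter ℕ) (hU : (U : Filter ℕ) ≤ atTop)
    (m : ℕ → ℕ) (hm : ∀ k, 0 < m k) (hmt : Tendsto m atTop atTop)
    [hz : ∀ k, NeZero (2 * (m k * m k))]
    (u : ∀ k, Tor d (2 * (m k * m k)) → ℂ) (w g : L2 d)
    (hw : Tendsto (fun k => emb d (m k) (m k) (hm k) (lft d (2 * (m k * m k)) (u k)))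
      (U : Filter ℕ) (𝓝 w))
    (hg : Tendsto (fun k => emb d (m k) (m k) (hm k)
      (lft d (2 * (m k * m k)) (Hop d (2 * (m k * m k)) (m k) ħ (u k)))) (U : Filter ℕ) (𝓝 g)) :
    SchrRel ħ (Vpot d) w g := by
  intro φ hφ hc
  obtain ⟨h1, h2⟩ := psi_memLp ħ φ hφ hc
  obtain ⟨P, hP, -⟩ := pairing _ h1
  obtain ⟨Q, hQ, -⟩ := pairing _ h2
  -- support
  obtain ⟨R, hR0, hR⟩ := hc.isCompact.isBounded.subset_closedBall_lt 0 (0 : EE d)
  have hz0 : ∀ x : EE d, R < ‖x‖ → x ∉ tsupport φ := by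
    intro x hx hx2
    have := hR hx2
    rw [mem_closedBall_zero_iff] at this
    linarith
  have hφ0 : ∀ x : EE d, R < ‖x‖ → φ x = 0 := fun x hx =>
    image_eq_zero_of_notMem_tsupport (hz0 x hx)
  obtain ⟨ρ, hρ⟩ := exists_nat_gt R
  have hsupp : ∀ x, φ x ≠ 0 → x ∈ bx d ρ := by
    intro x hx i
    have hxR : ‖x‖ ≤ R := by
      by_contra hcon
      push Not at hcon
      exact hx (hφ0 x hcon)
    have h3 : ‖x i‖ ≤ ‖x‖ := PiLp.norm_apply_le x i
    rw [Real.norm_eq_abs] at h3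
    have h4 := abs_le.1 (h3.trans hxR)
    constructor <;> linarith [h4.1, h4.2]
  -- difference of the test functions
  obtain ⟨D, hD⟩ : ∃ D : ℕ → EE d → ℂ, D = fun (n : ℕ) (x : EE d) => -((ħ : ℂ) ^ 2) * (((n : ℂ) ^ 2 * ∑ i : Fin d,
        (φ (x + (n : ℝ)⁻¹ • EuclideanSpace.single i (1 : ℝ))
          + φ (x - (n : ℝ)⁻¹ • EuclideanSpace.single i (1 : ℝ)) - 2 * φ x)) - (Δ φ) x) := ⟨_, rfl⟩
  have hDc : ∀ n, Continuous (D n) := by
    intro n
    rw [hD]
    have c1 := hφ.continuous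
    have c2 := lap_cont φ hφ
    fun_prop
  have hD0 : ∀ n, 1 ≤ n → ∀ x : EE d, R + 1 < ‖x‖ → D n x = 0 := by
    intro n hn x hx
    have hn' : (1 : ℝ) ≤ n := by exact_mod_cast hn
    have hsm : ∀ i : Fin d, ‖(n : ℝ)⁻¹ • (EuclideanSpace.single i (1 : ℝ) : EE d)‖ ≤ 1 := by
      intro i
      rw [norm_smul, PiLp.norm_single, norm_one, mul_one, norm_inv, Real.norm_natCast]
      exact inv_le_one_of_one_le₀ hn'
    have e0 : φ x = 0 := hφ0 x (by linarith)
    have e1 : ∀ i : Fin d, φ (x + (n : ℝ)⁻¹ • EuclideanSpace.single i (1 : ℝ)) = 0 := by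
      intro i
      apply hφ0
      have := norm_sub_le (x + (n : ℝ)⁻¹ • (EuclideanSpace.single i (1 : ℝ) : EE d))
        ((n : ℝ)⁻¹ • (EuclideanSpace.single i (1 : ℝ) : EE d))
      rw [add_sub_cancel_right] at this
      have := hsm i
      linarith
    have e2 : ∀ i : Fin d, φ (x - (n : ℝ)⁻¹ • EuclideanSpace.single i (1 : ℝ)) = 0 := by
      intro i
      apply hφ0
      have := norm_add_le (x - (n : ℝ)⁻¹ • (EuclideanSpace.single i (1 : ℝ) : EE d))
        ((n : ℝ)⁻¹ • (EuclideanSpace.single i (1 : ℝ) : EE d))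
      rw [sub_add_cancel] at this
      have := hsm i
      linarith
    have e3 : (Δ φ) x = 0 := lap_zero φ (hz0 x (by linarith))
    rw [hD]
    show -((ħ : ℂ) ^ 2) * (((n : ℂ) ^ 2 * ∑ i : Fin d,
        (φ (x + (n : ℝ)⁻¹ • EuclideanSpace.single i (1 : ℝ))
          + φ (x - (n : ℝ)⁻¹ • EuclideanSpace.single i (1 : ℝ)) - 2 * φ x)) - (Δ φ) x) = 0
    simp only [e0, e1, e2, e3]
    simp
  have hDm : ∀ n, 1 ≤ n → MemLp (D n) 2 (volume : Measure (EE d)) := by
    intro n hn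
    apply (hDc n).memLp_of_hasCompactSupport
    apply HasCompactSupport.intro (isCompact_closedBall (0 : EE d) (R + 1))
    intro x hx
    apply hD0 n hn
    rw [mem_closedBall_zero_iff] at hx
    push Not at hx
    exact hx
  obtain ⟨K, hK0, hK⟩ := pair_bound (d := d) (R + 1)
  obtain ⟨W, hWdef⟩ : ∃ W : ℕ → L2 d, W = fun k => emb d (m k) (m k) (hm k)
    (lft d (2 * (m k * m k)) (u k)) := ⟨_, rfl⟩
  obtain ⟨Gk, hGdef⟩ : ∃ G : ℕ → L2 d, G = fun k => emb d (m k) (m k) (hm k)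
      (lft d (2 * (m k * m k)) (Hop d (2 * (m k * m k)) (m k) ħ (u k))) := ⟨_, rfl⟩
  rw [← hWdef] at hw
  rw [← hGdef] at hg
  have hmU : Tendsto m (U : Filter ℕ) atTop := hmt.mono_left hU
  -- the error tends to zero
  have hC : Tendsto (fun k => ∫ x, W k x * D (m k) x) (U : Filter ℕ) (𝓝 0) := by
    rw [Metric.tendsto_nhds]
    intro ε hε
    obtain ⟨δ, hδ0, hδ⟩ : ∃ δ : ℝ, 0 < δ ∧ K * (ħ ^ 2 * δ) * (‖w‖ + 1) < ε := by
      refine ⟨ε / (2 * (K * ħ ^ 2 * (‖w‖ + 1) + 1)), by positivity, ?_⟩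
      have hpos : 0 ≤ K * ħ ^ 2 * (‖w‖ + 1) := by positivity
      have e : K * (ħ ^ 2 * (ε / (2 * (K * ħ ^ 2 * (‖w‖ + 1) + 1)))) * (‖w‖ + 1) =
          (K * ħ ^ 2 * (‖w‖ + 1)) * ε / (2 * (K * ħ ^ 2 * (‖w‖ + 1) + 1)) := by ring
      rw [e, div_lt_iff₀ (by positivity)]
      nlinarith
    obtain ⟨h0, hh0, hlap⟩ := lap_unif d φ hφ hc δ hδ0
    have ev1 : ∀ᶠ k in (U : Filter ℕ), ‖W k‖ < ‖w‖ + 1 :=
      (hw.norm).eventually (gt_mem_nhds (by linarith))
    obtain ⟨N, hN⟩ := exists_nat_gt (1 / h0)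
    have ev2 : ∀ᶠ k in (U : Filter ℕ), N ≤ m k := hmU.eventually_ge_atTop N
    filter_upwards [ev1, ev2] with k hk1 hk2
    have hmk : 1 ≤ m k := hm k
    have hmk' : (0 : ℝ) < m k := by exact_mod_cast hm k
    have hbd : ∀ x, ‖D (m k) x‖ ≤ ħ ^ 2 * δ := by
      intro x
      have hlt : ((m k : ℕ) : ℝ)⁻¹ < h0 := by
        have h5 : (N : ℝ) ≤ m k := by exact_mod_cast hk2
        have h6 : 1 / h0 < m k := lt_of_lt_of_le hN h5
        rw [div_lt_iff₀ hh0] at h6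
        rw [inv_lt_iff_one_lt_mul₀ hmk', mul_comm]
        exact h6
      have hl := hlap ((m k : ℕ) : ℝ)⁻¹ (by positivity) hlt x
      have hcast : ((((m k : ℕ) : ℝ)⁻¹ : ℝ) : ℂ) ^ 2 = (((m k : ℕ) : ℂ) ^ 2)⁻¹ := by
        push_cast
        rw [inv_pow]
      rw [hcast, div_inv_eq_mul, mul_comm _ (((m k : ℕ) : ℂ) ^ 2)] at hl
      rw [hD]
      show ‖-((ħ : ℂ) ^ 2) * (((m k : ℂ) ^ 2 * ∑ i : Fin d,
        (φ (x + (m k : ℝ)⁻¹ • EuclideanSpace.single i (1 : ℝ))
          + φ (x - (m k : ℝ)⁻¹ • EuclideanSpace.single i (1 : ℝ)) - 2 * φ x)) - (Δ φ) x)‖ ≤ ħ ^ 2 * δ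
      rw [norm_mul, norm_neg, norm_pow, Complex.norm_real, Real.norm_eq_abs, sq_abs]
      exact mul_le_mul_of_nonneg_left hl (sq_nonneg ħ)
    have hb := hK (D (m k)) (ħ ^ 2 * δ) (by positivity) (hDc _) (hD0 _ hmk) hbd (W k)
    rw [dist_zero_right]
    calc ‖∫ x, W k x * D (m k) x‖ ≤ K * (ħ ^ 2 * δ) * ‖W k‖ := hb
      _ ≤ K * (ħ ^ 2 * δ) * (‖w‖ + 1) :=
          mul_le_mul_of_nonneg_left hk1.le (by positivity)
      _ < ε := hδ
  -- the limit of the main terms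
  have hA : Tendsto (fun k => ∫ x, W k x * (-((ħ : ℂ) ^ 2) * (Δ φ) x + Vpot d x * φ x))
      (U : Filter ℕ) (𝓝 (∫ x, w x * (-((ħ : ℂ) ^ 2) * (Δ φ) x + Vpot d x * φ x))) := by
    simp only [hQ]
    exact tendsto_const_nhds.inner hw
  have hB : Tendsto (fun k => ∫ x, Gk k x * φ x) (U : Filter ℕ) (𝓝 (∫ x, g x * φ x)) := by
    simp only [hP]
    exact tendsto_const_nhds.inner hg
  -- the exact identity
  have hE : ∀ᶠ k in (U : Filter ℕ), (∫ x, W k x * (-((ħ : ℂ) ^ 2) * (Δ φ) x + Vpot d x * φ x)) +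
      (∫ x, W k x * D (m k) x) = ∫ x, Gk k x * φ x := by
    have ev : ∀ᶠ k in (U : Filter ℕ), ρ + 1 ≤ m k := hmU.eventually_ge_atTop (ρ + 1)
    filter_upwards [ev] with k hk
    have hmk : 1 ≤ m k := hm k
    have hwe := weak_exact d (m k) (m k) ρ (hm k) hk ħ (u k) φ hφ.continuous hc hsupp
    rw [← integral_add (pair_integrable _ h2 (W k)) (pair_integrable _ (hDm _ hmk) (W k))]
    have e1 : ∫ x, Gk k x * φ x = ∫ x, embF d (m k) (m k)
        (lft d (2 * (m k * m k)) (Hop d (2 * (m k * m k)) (m k) ħ (u k))) x * φ x := by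
      apply integral_congr_ae
      rw [hGdef]
      have := (embF_memLp d (m k) (m k) (hm k)
        (lft d (2 * (m k * m k)) (Hop d (2 * (m k * m k)) (m k) ħ (u k)))).coeFn_toLp
      filter_upwards [this] with x hx
      show (emb d (m k) (m k) (hm k) _ : L2 d) x * φ x = _
      unfold emb
      rw [hx]
    rw [e1, ← hwe]
    apply integral_congr_ae
    rw [hWdef]
    have := (embF_memLp d (m k) (m k) (hm k) (lft d (2 * (m k * m k)) (u k))).coeFn_toLp
    filter_upwards [this] with x hx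
    show (emb d (m k) (m k) (hm k) _ : L2 d) x * _ + (emb d (m k) (m k) (hm k) _ : L2 d) x * _ = _
    unfold emb
    rw [hx, hD]
    ring
  have hfin := tendsto_nhds_unique ((hA.add hC).congr' hE) hB
  rw [add_zero] at hfin
  exact hfin

end

end CE
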