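import Pool.Agent.H631.Disc
import Pool.Agent.H631.WLimit
import Pool.Agent.H631.Tight
import Pool.Agent.H631.Ultra

/-! The continuum limit of the discrete data. -/

open Matrix Finset Filter Topology MeasureTheory

namespace CE

variable {d : ℕ}

theorem lft_add (M : ℕ) (u v : Tor d M → ℂ) : lft d M (u + v) = lft d M u + lft d M v := rfl

theorem lft_smul (M : ℕ) (c : ℂ) (u : Tor d M → ℂ) : lft d M (c • u) = c • lft d M u := rfl

/-- bound on the off-diagonal entries -/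
theorem DiscData.t_eq {m N : ℕ} [NeZero (2 * (m * m))] {ħ K : ℝ}
    {u : Fin N → Tor d (2 * (m * m)) → ℂ} {t : Fin N → Fin N → ℂ} (h : DiscData d m N ħ K u t)
    (l k : Fin N) (hlk : l ≤ k) :
    ∑ x, (starRingEnd ℂ) (u l x) * Hop d (2 * (m * m)) m ħ (u k) x = t l k := by
  simp_rw [h.rel k, Finset.mul_sum]
  rw [Finset.sum_comm, Finset.sum_eq_single l]
  · have := h.orth l l
    rw [if_pos rfl] at this
    calc _ = t l k * ∑ x, (starRingEnd ℂ) (u l x) * u l x := by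
          rw [Finset.mul_sum]; exact Finset.sum_congr rfl fun x _ => by ring
      _ = _ := by rw [this, mul_one]
  · intro j _ hj
    have := h.orth l j
    rw [if_neg (Ne.symm hj)] at this
    calc _ = t j k * ∑ x, (starRingEnd ℂ) (u l x) * u j x := by
          rw [Finset.mul_sum]; exact Finset.sum_congr rfl fun x _ => by ring
      _ = _ := by rw [this, mul_zero]
  · intro hl
    exact absurd (Finset.mem_filter.2 ⟨Finset.mem_univ l, hlk⟩) hl

theorem DiscData.norm_one {m N : ℕ} [NeZero (2 * (m * m))] {ħ K : ℝ}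
    {u : Fin N → Tor d (2 * (m * m)) → ℂ} {t : Fin N → Fin N → ℂ} (h : DiscData d m N ħ K u t)
    (k : Fin N) : ∑ x, ‖u k x‖ ^ 2 = 1 := by
  have := h.orth k k
  rw [if_pos rfl] at this
  have h2 : ((∑ x, ‖u k x‖ ^ 2 : ℝ) : ℂ) = 1 := by
    rw [← this]
    push_cast
    exact Finset.sum_congr rfl fun x _ => (Complex.conj_mul' _).symm
  exact_mod_cast h2

theorem DiscData.energy {m N : ℕ} [NeZero (2 * (m * m))] {ħ K : ℝ}
    {u : Fin N → Tor d (2 * (m * m)) → ℂ} {t : Fin N → Fin N → ℂ} (h : DiscData d m N ħ K u t)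
    (k : Fin N) : ħ ^ 2 * (m : ℝ) ^ 2 * en d (2 * (m * m)) (u k) ≤ 4 * K := by
  rw [← Hop_re, h.t_eq k k le_rfl]
  exact h.re1 k

theorem DiscData.t_le {m N : ℕ} [NeZero (2 * (m * m))] {ħ K : ℝ}
    {u : Fin N → Tor d (2 * (m * m)) → ℂ} {t : Fin N → Fin N → ℂ} (h : DiscData d m N ħ K u t)
    (l k : Fin N) (hlk : l ≤ k) : ‖t l k‖ ≤ 4 * K + 1 := by
  classical
  rw [← h.t_eq l k hlk]
  unfold Hop
  simp_rw [mul_add]
  rw [Finset.sum_add_distrib]
  refine (norm_add_le _ _).trans (add_le_add ?_ ?_)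
  · refine (cross_le d _ _ (by positivity) (u l) (u k)).trans ?_
    have h1 := h.energy l
    have h2 := h.energy k
    set c : ℝ := ħ ^ 2 * (m : ℝ) ^ 2
    have hc : 0 ≤ c := by positivity
    have e1 := Real.mul_self_sqrt (en_nonneg' _ (u l))
    have e2 := Real.mul_self_sqrt (en_nonneg' _ (u k))
    set a := Real.sqrt (en d (2 * (m * m)) (u l))
    set b := Real.sqrt (en d (2 * (m * m)) (u k))
    have : a * b ≤ (a * a + b * b) / 2 := by nlinarith [sq_nonneg (a - b)]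
    calc c * (a * b) ≤ c * ((a * a + b * b) / 2) := mul_le_mul_of_nonneg_left this hc
      _ = (c * (a * a) + c * (b * b)) / 2 := by ring
      _ ≤ _ := by rw [e1, e2]; linarith
  · refine (norm_sum_le _ _).trans ?_
    have h1 := h.norm_one l
    have h2 := h.norm_one k
    calc _ ≤ ∑ x, (‖u l x‖ ^ 2 + ‖u k x‖ ^ 2) / 2 := by
          refine Finset.sum_le_sum fun x _ => ?_
          rw [norm_mul, norm_mul, RCLike.norm_conj]
          have h3 : ‖(if x ∈ cubeQ d (2 * (m * m)) m then Complex.I else 0 : ℂ)‖ ≤ 1 := by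
            split_ifs <;> simp
          have h4 : ‖u l x‖ * (‖(if x ∈ cubeQ d (2 * (m * m)) m then Complex.I else 0 : ℂ)‖ * ‖u k x‖)
              ≤ ‖u l x‖ * (1 * ‖u k x‖) :=
            mul_le_mul_of_nonneg_left (mul_le_mul_of_nonneg_right h3 (norm_nonneg _)) (norm_nonneg _)
          nlinarith [sq_nonneg (‖u l x‖ - ‖u k x‖)]
      _ = (∑ x, ‖u l x‖ ^ 2 + ∑ x, ‖u k x‖ ^ 2) / 2 := by
          rw [← Finset.sum_div, Finset.sum_add_distrib]
      _ = 1 := by rw [h1, h2]; norm_num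

theorem DiscData.trunc {m N : ℕ} [NeZero (2 * (m * m))] {ħ K : ℝ}
    {u : Fin N → Tor d (2 * (m * m)) → ℂ} {t : Fin N → Fin N → ℂ} (h : DiscData d m N ħ K u t) :
    DiscData d m N ħ K u (fun l k => if l ≤ k then t l k else 0) where
  orth := h.orth
  rel k x := by
    rw [h.rel k x]
    refine Finset.sum_congr rfl fun l hl => ?_
    rw [if_pos (Finset.mem_filter.1 hl).2]
  re0 k := by simpa using h.re0 k
  re1 k := by simpa using h.re1 k
  im0 k := by simpa using h.im0 k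
  im1 k := by simpa using h.im1 k

instance nz_inst (k : ℕ) : NeZero (2 * (2 ^ k * 2 ^ k)) := ⟨by positivity⟩

/-- the discrete data are uniformly close to finite-dimensional subspaces -/
theorem near (d N : ℕ) (ħ K δ : ℝ) (hħ : 0 < ħ) (hK : 0 ≤ K) (hδ : 0 < δ) :
    ∃ W : Submodule ℂ (L2 d), FiniteDimensional ℂ W ∧ ∃ k₀ : ℕ, ∀ k : ℕ, k₀ ≤ k →
      ∀ (u : Fin N → Tor d (2 * (2 ^ k * 2 ^ k)) → ℂ) (t : Fin N → Fin N → ℂ),
        DiscData d (2 ^ k) N ħ K u t → ∀ i, ∃ w ∈ W,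
          ‖emb d (2 ^ k) (2 ^ k) (by positivity) (lft d (2 * (2 ^ k * 2 ^ k)) (u i)) - w‖ ≤ δ := by
  obtain ⟨ρ, hρ0, hρ⟩ := tight d N (4 * K + 1) K ħ (δ ^ 2 / 2) (by linarith) hK hħ (by positivity)
  -- choice of the block size
  have hlim : Tendsto (fun r : ℕ => (2 : ℝ) ^ d * d * (4 * K / ħ ^ 2) * ((1 / 4 : ℝ)) ^ r) atTop
      (𝓝 ((2 : ℝ) ^ d * d * (4 * K / ħ ^ 2) * 0)) :=
    (tendsto_pow_atTop_nhds_zero_of_lt_one (by norm_num) (by norm_num)).const_mul _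
  rw [mul_zero] at hlim
  obtain ⟨r, hr⟩ := (hlim.eventually_lt_const (show (0:ℝ) < δ ^ 2 / 2 by positivity)).exists
  obtain ⟨W, hWf, hW⟩ := emb_range d (2 ^ r) ρ (by positivity)
  refine ⟨W, hWf, max r ρ, fun k hk u t hD i => ?_⟩
  have hrk : r ≤ k := (le_max_left _ _).trans hk
  have hρk : ρ ≤ 2 ^ k := ((le_max_right _ _).trans hk).trans Nat.lt_two_pow_self.le
  have hm : 0 < 2 ^ k := by positivity
  have hn : 0 < 2 ^ (k - r) := by positivity
  have hmn : 2 ^ k = 2 ^ (k - r) * 2 ^ r := by rw [← pow_add, Nat.sub_add_cancel hrk]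
  have hB : 2 ^ (k - r) * (ρ * 2 ^ r) = ρ * 2 ^ k := by rw [hmn]; ring
  obtain ⟨a, ha⟩ := block_est d (2 ^ k * 2 ^ k) (2 ^ (k - r)) (ρ * 2 ^ r) hn
    (by rw [hB]; exact Nat.mul_le_mul_right _ hρk) (u i)
  rw [hB] at ha
  have hD' := hD.trunc
  have htight := hρ (2 ^ k) (2 ^ k * 2 ^ k) hm (Nat.le_mul_of_pos_left _ hm) u
    (fun l k => if l ≤ k then t l k else 0) (fun k => (hD.norm_one k).le) hD'.energy
    (fun k l => by
      by_cases hlk : l ≤ k
      · exact hD'.t_le l k hlk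
      · simp only [if_neg hlk, norm_zero]; linarith)
    hD'.im0 (fun k x => hD'.rel k x) i
  refine ⟨emb d (2 ^ r) ρ (by positivity)
    (fun A => (((Real.sqrt (((2 ^ (k - r) : ℕ) : ℝ) ^ d)) : ℝ) : ℂ) * a A), hW _, ?_⟩
  rw [emb_refine d (2 ^ (k - r)) (2 ^ r) (2 ^ k) (2 ^ k) ρ hn (by positivity) hm hmn hρk]
  refine le_of_sq_le_sq ?_ hδ.le
  have hsub : ∀ g g' : (Fin d → ℤ) → ℂ, emb d (2 ^ k) (2 ^ k) hm g - emb d (2 ^ k) (2 ^ k) hm g' =
      emb d (2 ^ k) (2 ^ k) hm (g - g') := by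
    intro g g'
    rw [sub_eq_iff_eq_add, ← emb_add, sub_add_cancel]
  rw [hsub, emb_norm_sq]
  have hsubset : ibox d (ρ * 2 ^ k) ⊆ ibox d (2 ^ k * 2 ^ k) := by
    unfold ibox
    refine Fintype.piFinset_subset _ _ fun _ => Finset.Ico_subset_Ico ?_ ?_
    · have : ((ρ * 2 ^ k : ℕ) : ℤ) ≤ ((2 ^ k * 2 ^ k : ℕ) : ℤ) := by
        exact_mod_cast Nat.mul_le_mul_right _ hρk
      linarith
    · exact_mod_cast Nat.mul_le_mul_right _ hρk
  rw [← Finset.sum_sdiff hsubset]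
  have h1 : ∑ X ∈ ibox d (2 ^ k * 2 ^ k) \ ibox d (ρ * 2 ^ k),
      ‖(lft d (2 * (2 ^ k * 2 ^ k)) (u i) - fun X =>
        if X ∈ ibox d (ρ * 2 ^ k) then
        (((Real.sqrt (((2 ^ (k - r) : ℕ) : ℝ) ^ d))⁻¹ : ℝ) : ℂ) *
          ((((Real.sqrt (((2 ^ (k - r) : ℕ) : ℝ) ^ d)) : ℝ) : ℂ) *
            a (fun i => X i / ((2 ^ (k - r) : ℕ) : ℤ))) else 0) X‖ ^ 2 ≤ δ ^ 2 / 2 := by
    refine le_trans (le_of_eq ?_) htight
    refine Finset.sum_congr rfl fun X hX => ?_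
    rw [Pi.sub_apply, if_neg (Finset.mem_sdiff.1 hX).2, sub_zero]
  have h2 : ∑ X ∈ ibox d (ρ * 2 ^ k),
      ‖(lft d (2 * (2 ^ k * 2 ^ k)) (u i) - fun X =>
        if X ∈ ibox d (ρ * 2 ^ k) then
        (((Real.sqrt (((2 ^ (k - r) : ℕ) : ℝ) ^ d))⁻¹ : ℝ) : ℂ) *
          ((((Real.sqrt (((2 ^ (k - r) : ℕ) : ℝ) ^ d)) : ℝ) : ℂ) *
            a (fun i => X i / ((2 ^ (k - r) : ℕ) : ℤ))) else 0) X‖ ^ 2 ≤ δ ^ 2 / 2 := by
    have hq : (((Real.sqrt (((2 ^ (k - r) : ℕ) : ℝ) ^ d))⁻¹ : ℝ) : ℂ) *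
        (((Real.sqrt (((2 ^ (k - r) : ℕ) : ℝ) ^ d)) : ℝ) : ℂ) = 1 := by
      rw [← Complex.ofReal_mul, inv_mul_cancel₀ (by positivity), Complex.ofReal_one]
    have hq' : ∀ z : ℂ, (((Real.sqrt (((2 ^ (k - r) : ℕ) : ℝ) ^ d))⁻¹ : ℝ) : ℂ) *
        ((((Real.sqrt (((2 ^ (k - r) : ℕ) : ℝ) ^ d)) : ℝ) : ℂ) * z) = z := by
      intro z; rw [← mul_assoc, hq, one_mul]
    refine le_trans (le_of_eq ?_) (ha.trans ?_)
    · refine Finset.sum_congr rfl fun X hX => ?_
      rw [Pi.sub_apply, if_pos hX, hq']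
    · have hen := hD.energy i
      push_cast at hen ⊢
      have hkr : ((2 : ℝ) ^ (k - r)) ^ 2 * en d (2 * (2 ^ k * 2 ^ k)) (u i) ≤
          4 * K / ħ ^ 2 * (1 / 4) ^ r := by
        have e1 : ((2 : ℝ) ^ k) ^ 2 = ((2 : ℝ) ^ (k - r)) ^ 2 * 4 ^ r := by
          have : (2 : ℝ) ^ k = 2 ^ (k - r) * 2 ^ r := by rw [← pow_add, Nat.sub_add_cancel hrk]
          rw [this, mul_pow, ← pow_mul, ← pow_mul 2 r 2, mul_comm r 2, pow_mul 2 2 r]
          norm_num
        rw [e1] at hen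
        rw [one_div, inv_pow, ← div_eq_mul_inv, le_div_iff₀ (by positivity), le_div_iff₀ (by positivity)]
        linarith
      have hpos : (0 : ℝ) ≤ 2 ^ d * d := by positivity
      have := mul_le_mul_of_nonneg_left hkr hpos
      nlinarith
  linarith

theorem emb_lft_norm (m : ℕ) (hm : 0 < m) [NeZero (2 * (m * m))] (u : Tor d (2 * (m * m)) → ℂ) :
    ‖emb d m m hm (lft d (2 * (m * m)) u)‖ ^ 2 = ∑ x, ‖u x‖ ^ 2 := by
  rw [emb_norm_sq]
  exact sum_ibox d (m * m) (fun x => ‖u x‖ ^ 2)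

theorem emb_lft_inner (m : ℕ) (hm : 0 < m) [NeZero (2 * (m * m))]
    (u v : Tor d (2 * (m * m)) → ℂ) :
    inner ℂ (emb d m m hm (lft d (2 * (m * m)) u)) (emb d m m hm (lft d (2 * (m * m)) v)) =
      ∑ x, (starRingEnd ℂ) (u x) * v x := by
  rw [emb_inner]
  exact sum_ibox d (m * m) (fun x => (starRingEnd ℂ) (u x) * v x)

theorem emb_sum {ι : Type} (m R : ℕ) (hm : 0 < m) (s : Finset ι) (c : ι → ℂ)
    (g : ι → (Fin d → ℤ) → ℂ) :
    emb d m R hm (fun X => ∑ l ∈ s, c l * g l X) = ∑ l ∈ s, c l • emb d m R hm (g l) := by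
  classical
  induction s using Finset.induction_on with
  | empty =>
    simp only [Finset.sum_empty]
    have := emb_smul d m R hm 0 0
    rw [zero_smul, zero_smul] at this
    exact this
  | insert a s ha ih =>
    rw [Finset.sum_insert ha, ← ih, ← emb_smul, ← emb_add]
    congr 1
    funext X
    simp [Finset.sum_insert ha]

/-- the continuum limit -/
theorem lim_exists (d N : ℕ) (ħ K : ℝ) (hħ : 0 < ħ) (hK : 0 ≤ K)
    (h : ∃ k₀ : ℕ, ∀ k, k₀ ≤ k → ∃ (u : Fin N → Tor d (2 * (2 ^ k * 2 ^ k)) → ℂ)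
      (t : Fin N → Fin N → ℂ), DiscData d (2 ^ k) N ħ K u t) :
    ∃ (v : Fin N → L2 d) (t : Fin N → Fin N → ℂ), Orthonormal ℂ v ∧
      (∀ k, SchrRel ħ (Vpot d) (v k) (∑ l ∈ Finset.univ.filter (fun l => l ≤ k), t l k • v l)) ∧
      ∀ k, 0 ≤ (t k k).re ∧ (t k k).re ≤ 4 * K ∧ 1 / 2 ≤ (t k k).im ∧ (t k k).im ≤ 1 := by
  classical
  obtain ⟨k₀, hk₀⟩ := h
  choose u0 t0 hD0 using fun k : ℕ => hk₀ (k + k₀) (Nat.le_add_left _ _)
  set tt : ∀ k : ℕ, Fin N → Fin N → ℂ := fun k l j => if l ≤ j then t0 k l j else 0 with htt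
  have hD : ∀ k, DiscData d (2 ^ (k + k₀)) N ħ K (u0 k) (tt k) := fun k => (hD0 k).trunc
  set U : Ultrafilter ℕ := hyperfilter ℕ with hU
  have hUle : (U : Filter ℕ) ≤ atTop := by
    rw [hU, ← Nat.cofinite_eq_atTop]; exact hyperfilter_le_cofinite
  set m : ℕ → ℕ := fun k => 2 ^ (k + k₀) with hmdef
  have hm : ∀ k, 0 < m k := fun k => by rw [hmdef]; positivity
  have hmt : Tendsto m atTop atTop := by
    refine (tendsto_pow_atTop_atTop_of_one_lt (by norm_num : 1 < 2)).comp ?_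
    exact tendsto_add_atTop_nat k₀
  set w : Fin N → ℕ → L2 d := fun i k => emb d (m k) (m k) (hm k) (lft d (2 * (m k * m k)) (u0 k i))
    with hw
  have hwn : ∀ i k, ‖w i k‖ ≤ 1 := by
    intro i k
    have h1 : ‖w i k‖ ^ 2 = 1 := (emb_lft_norm (m k) (hm k) (u0 k i)).trans ((hD k).norm_one i)
    nlinarith [norm_nonneg (w i k)]
  -- limits of the vectors
  have hv : ∀ i, ∃ v : L2 d, Tendsto (w i) (U : Filter ℕ) (𝓝 v) := by
    intro i
    refine ultra_compact U (w i) 1 (hwn i) fun δ hδ => ?_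
    obtain ⟨W, hWf, k₁, hk₁⟩ := near d N ħ K δ hħ hK hδ
    refine ⟨W, hWf, hUle ?_⟩
    filter_upwards [eventually_ge_atTop k₁] with k hk
    exact hk₁ (k + k₀) (by omega) (u0 k) (tt k) (hD k) i
  choose v hv using hv
  -- limits of the coefficients
  have ht : ∀ l j, ∃ t : ℂ, Tendsto (fun k => tt k l j) (U : Filter ℕ) (𝓝 t) := by
    intro l j
    refine ultra_compact U (fun k => tt k l j) (4 * K + 1) (fun k => ?_) fun δ hδ =>
      ⟨⊤, inferInstance, Filter.Eventually.of_forall fun k => ⟨_, Submodule.mem_top,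
        by rw [sub_self, norm_zero]; exact hδ.le⟩⟩
    by_cases hlj : l ≤ j
    · exact (hD k).t_le l j hlj
    · simp only [htt, if_neg hlj, norm_zero]; linarith
  choose t ht using ht
  refine ⟨v, t, ?_, ?_, ?_⟩
  · rw [orthonormal_iff_ite]
    intro i j
    have h1 : Tendsto (fun k => (inner ℂ (w i k) (w j k) : ℂ)) (U : Filter ℕ)
        (𝓝 (inner ℂ (v i) (v j))) := (hv i).inner (hv j)
    refine tendsto_nhds_unique h1 ?_
    refine tendsto_const_nhds.congr fun k => ?_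
    have := emb_lft_inner (m k) (hm k) (u0 k i) (u0 k j)
    rw [(hD k).orth i j] at this
    exact this.symm
  · intro j
    refine weak_limit d ħ U hUle m hm hmt (fun k => u0 k j) (v j) _ (hv j) ?_
    have h1 : Tendsto (fun k => ∑ l ∈ Finset.univ.filter (fun l => l ≤ j), tt k l j • w l k)
        (U : Filter ℕ) (𝓝 (∑ l ∈ Finset.univ.filter (fun l => l ≤ j), t l j • v l)) :=
      tendsto_finsetSum _ fun l _ => (ht l j).smul (hv l)
    refine h1.congr fun k => ?_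
    have h2 : lft d (2 * (m k * m k)) (Hop d (2 * (m k * m k)) (m k) ħ (u0 k j)) =
        fun X => ∑ l ∈ Finset.univ.filter (fun l => l ≤ j),
          tt k l j * lft d (2 * (m k * m k)) (u0 k l) X := by
      funext X
      exact (hD k).rel j _
    rw [h2, emb_sum]
  · intro j
    have h1 : Tendsto (fun k => (tt k j j).re) (U : Filter ℕ) (𝓝 (t j j).re) :=
      (Complex.continuous_re.tendsto _).comp (ht j j)
    have h2 : Tendsto (fun k => (tt k j j).im) (U : Filter ℕ) (𝓝 (t j j).im) :=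
      (Complex.continuous_im.tendsto _).comp (ht j j)
    exact ⟨ge_of_tendsto' h1 fun k => (hD k).re0 j, le_of_tendsto' h1 fun k => (hD k).re1 j,
      ge_of_tendsto' h2 fun k => (hD k).im0 j, le_of_tendsto' h2 fun k => (hD k).im1 j⟩

end CE
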