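import Pool.Agent.H631.Stmt

open Finset Module

namespace CE

theorem finrank_sup_le {V : Type} [AddCommGroup V] [Module ℂ V] [FiniteDimensional ℂ V]
    (S : Finset ℂ) (W : ℂ → Submodule ℂ V) :
    finrank ℂ (S.sup W : Submodule ℂ V) ≤ ∑ E ∈ S, finrank ℂ (W E) := by
  classical
  induction S using Finset.induction_on with
  | empty => simp
  | insert a S ha ih =>
    rw [Finset.sup_insert, Finset.sum_insert ha]
    exact (Submodule.finrank_add_le_finrank_add_finrank _ _).trans (Nat.add_le_add_left ih _)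

/-- a triangular invariant subspace gives many generalised eigenvectors -/
theorem mult_sum {X : Type} [AddCommGroup X] [Module ℂ X] (R : X → X → Prop)
    (hadd : ∀ a b a' b', R a b → R a' b' → R (a + a') (b + b'))
    (hsmul : ∀ (c : ℂ) a b, R a b → R (c • a) (c • b))
    (N : ℕ) (v : Fin N → X) (hv : LinearIndependent ℂ v) (t : Fin N → Fin N → ℂ)
    (h : ∀ k, R (v k) (∑ l ∈ Finset.univ.filter (fun l => l ≤ k), t l k • v l)) :
    ∃ S : Finset ℂ, (∀ E ∈ S, ∃ k, E = t k k) ∧
      (N : ℕ∞) ≤ ∑ E ∈ S, Cardinal.toENat (Module.rank ℂ (rootSp R E)) := by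
  classical
  rcases Nat.eq_zero_or_pos N with hN | hN
  · subst hN
    exact ⟨∅, by simp, by simp⟩
  have hR0 : R 0 0 := by
    have h1 := hsmul 0 _ _ (h ⟨0, hN⟩)
    rwa [zero_smul, zero_smul] at h1
  set T : Matrix (Fin N) (Fin N) ℂ := fun l k => if l ≤ k then t l k else 0 with hT
  set B : Module.End ℂ (Fin N → ℂ) := Matrix.toLin' T with hB
  set φ : (Fin N → ℂ) →ₗ[ℂ] X := Fintype.linearCombination ℂ v with hφ
  have hφi : Function.Injective φ := by
    exact linearIndependent_iff_injective_fintypeLinearCombination.1 hv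
  have hφa : ∀ w, φ w = ∑ k, w k • v k := fun w => by
    rw [hφ, Fintype.linearCombination_apply]
  set y : Fin N → X := fun k => ∑ l ∈ Finset.univ.filter (fun l => l ≤ k), t l k • v l with hy
  have hBy : ∀ w, φ (B w) = ∑ k, w k • y k := by
    intro w
    rw [hφa]
    have h1 : ∀ l, B w l = ∑ k, T l k * w k := fun l => by
      rw [hB, Matrix.toLin'_apply]; rfl
    calc ∑ l, B w l • v l = ∑ l, ∑ k, (T l k * w k) • v l := by
          refine Finset.sum_congr rfl fun l _ => ?_
          rw [h1, Finset.sum_smul]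
      _ = ∑ k, ∑ l, (T l k * w k) • v l := Finset.sum_comm
      _ = ∑ k, w k • y k := by
          refine Finset.sum_congr rfl fun k _ => ?_
          rw [hy, Finset.smul_sum, Finset.sum_filter]
          refine Finset.sum_congr rfl fun l _ => ?_
          simp only [hT]
          split_ifs with hlk
          · rw [smul_smul, mul_comm]
          · simp
  have hRB : ∀ w, R (φ w) (φ (B w)) := by
    intro w
    rw [hφa, hBy]
    have : ∀ s : Finset (Fin N), R (∑ k ∈ s, w k • v k) (∑ k ∈ s, w k • y k) := by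
      intro s
      induction s using Finset.induction_on with
      | empty => simpa using hR0
      | insert a s ha ih =>
        rw [Finset.sum_insert ha, Finset.sum_insert ha]
        exact hadd _ _ _ _ (hsmul _ _ _ (h a)) ih
    exact this _
  -- eigenvalues
  have hev : ∀ E, B.HasEigenvalue E → ∃ k, E = t k k := by
    intro E hE
    rw [Module.End.hasEigenvalue_iff_isRoot_charpoly, hB, Matrix.charpoly_toLin',
      Matrix.charpoly_of_isUpperTriangular T (by
        intro i j hij
        simp only [hT]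
        exact if_neg (not_le.2 hij)), Polynomial.IsRoot, Polynomial.eval_prod,
      Finset.prod_eq_zero_iff] at hE
    obtain ⟨k, -, hk⟩ := hE
    refine ⟨k, ?_⟩
    simp only [Polynomial.eval_sub, Polynomial.eval_X, Polynomial.eval_C, hT, le_refl,
      if_true] at hk
    exact sub_eq_zero.1 hk
  set S : Finset ℂ := Finset.univ.image (fun k => t k k) with hS
  refine ⟨S, ?_, ?_⟩
  · intro E hE
    obtain ⟨k, -, hk⟩ := Finset.mem_image.1 hE
    exact ⟨k, hk.symm⟩
  have hbot : ∀ E, E ∉ S → B.maxGenEigenspace E = ⊥ := by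
    intro E hE
    by_contra hne
    have h1 : B.HasUnifEigenvalue E ⊤ := hne
    rw [Module.End.hasUnifEigenvalue_iff_hasUnifEigenvalue_one ENat.top_pos] at h1
    obtain ⟨k, hk⟩ := hev E h1
    exact hE (Finset.mem_image.2 ⟨k, Finset.mem_univ _, hk.symm⟩)
  have hsup : (S.sup B.maxGenEigenspace : Submodule ℂ (Fin N → ℂ)) = ⊤ := by
    rw [eq_top_iff, ← Module.End.iSup_maxGenEigenspace_eq_top B]
    refine iSup_le fun E => ?_
    by_cases hE : E ∈ S
    · exact Finset.le_sup (f := B.maxGenEigenspace) hE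
    · rw [hbot E hE]; exact bot_le
  have hfin : N ≤ ∑ E ∈ S, finrank ℂ (B.maxGenEigenspace E) := by
    have h1 := finrank_sup_le S B.maxGenEigenspace
    rw [hsup, finrank_top, Module.finrank_fin_fun] at h1
    exact h1
  have hmap : ∀ E, Submodule.map φ (B.maxGenEigenspace E) ≤ rootSp R E := by
    rintro E _ ⟨w, hw, rfl⟩
    obtain ⟨n, hn⟩ := (Module.End.mem_maxGenEigenspace _ _ _).1 hw
    apply Submodule.subset_span
    refine ⟨n, fun j => φ (((B - E • 1) ^ j) w), by simp, ?_, ?_⟩
    · simp only
      rw [hn, map_zero]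
    · intro j _
      have h1 := hRB (((B - E • 1) ^ j) w)
      have h2 : φ (B (((B - E • 1) ^ j) w)) =
          E • φ (((B - E • 1) ^ j) w) + φ (((B - E • 1) ^ (j + 1)) w) := by
        rw [← map_smul, ← map_add]
        congr 1
        rw [pow_succ', Module.End.mul_apply]
        simp
      rwa [h2] at h1
  have hrank : ∀ E, (finrank ℂ (B.maxGenEigenspace E) : ℕ∞) ≤
      Cardinal.toENat (Module.rank ℂ (rootSp R E)) := by
    intro E
    have h1 : Module.rank ℂ (Submodule.map φ (B.maxGenEigenspace E)) ≤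
      Module.rank ℂ (rootSp R E) := Submodule.rank_mono (hmap E)
    have h2 : Module.rank ℂ (B.maxGenEigenspace E) =
      Module.rank ℂ (Submodule.map φ (B.maxGenEigenspace E)) :=
      (Submodule.equivMapOfInjective φ hφi _).rank_eq
    rw [← h2] at h1
    have h3 : Cardinal.toENat (Module.rank ℂ (B.maxGenEigenspace E)) ≤
      Cardinal.toENat (Module.rank ℂ (rootSp R E)) := (OrderHomClass.mono Cardinal.toENat) h1
    rw [← Module.finrank_eq_rank ℂ (B.maxGenEigenspace E), map_natCast] at h3
    exact h3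
  calc (N : ℕ∞) ≤ ((∑ E ∈ S, finrank ℂ (B.maxGenEigenspace E) : ℕ) : ℕ∞) := by exact_mod_cast hfin
    _ = ∑ E ∈ S, (finrank ℂ (B.maxGenEigenspace E) : ℕ∞) := by push_cast; rfl
    _ ≤ _ := Finset.sum_le_sum fun E _ => hrank E

end CE
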