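import Pool.Agent.H631.Defs

open Matrix Finset

namespace CE

variable {G : Type} [Fintype G] [DecidableEq G]

section
open scoped Matrix.Norms.Operator
set_option backward.isDefEq.respectTransparency false in
theorem entry_hasSum {𝕂 : Type} [RCLike 𝕂] (X : Matrix G G 𝕂) (x y : G) :
    HasSum (fun n : ℕ => ((n.factorial : 𝕂)⁻¹) * (X ^ n) x y) (NormedSpace.exp X x y) := by
  have h := NormedSpace.exp_series_hasSum_exp' (𝕂 := 𝕂) X
  have h2 := Pi.hasSum.mp (Pi.hasSum.mp h x) y
  exact h2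
end

theorem pow_major (X : Matrix G G ℂ) (Y : Matrix G G ℝ) (h : ∀ x y, ‖X x y‖ ≤ Y x y) (n : ℕ) :
    ∀ x y : G, ‖(X ^ n) x y‖ ≤ (Y ^ n) x y := by
  induction n with
  | zero =>
    intro x y
    rw [pow_zero, pow_zero, Matrix.one_apply, Matrix.one_apply]
    split_ifs <;> simp
  | succ n ih =>
    intro x y
    rw [pow_succ, pow_succ, Matrix.mul_apply, Matrix.mul_apply]
    refine (norm_sum_le _ _).trans (Finset.sum_le_sum fun z _ => ?_)
    rw [norm_mul]
    exact mul_le_mul (ih x z) (h z y) (norm_nonneg _) ((norm_nonneg _).trans (ih x z))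

/-- entrywise majorisation of matrix exponentials -/
theorem exp_major (X : Matrix G G ℂ) (Y : Matrix G G ℝ) (h : ∀ x y, ‖X x y‖ ≤ Y x y) (x y : G) :
    ‖NormedSpace.exp X x y‖ ≤ NormedSpace.exp Y x y := by
  refine (entry_hasSum X x y).norm_le_of_bounded (entry_hasSum Y x y) (fun n => ?_)
  rw [norm_mul]
  have : ‖((n.factorial : ℂ)⁻¹)‖ = ((n.factorial : ℝ)⁻¹) := by
    rw [norm_inv, Complex.norm_natCast]
  rw [this]
  exact mul_le_mul_of_nonneg_left (pow_major X Y h n x y) (by positivity)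

theorem pow_nonneg_entry (B : Matrix G G ℝ) (hB : ∀ x y, 0 ≤ B x y) (n : ℕ) :
    ∀ x y : G, 0 ≤ (B ^ n) x y := by
  induction n with
  | zero =>
    intro x y
    rw [pow_zero, Matrix.one_apply]
    split_ifs <;> norm_num
  | succ n ih =>
    intro x y
    rw [pow_succ, Matrix.mul_apply]
    exact Finset.sum_nonneg fun z _ => mul_nonneg (ih x z) (hB z y)

theorem exp_nonneg_entry (B : Matrix G G ℝ) (hB : ∀ x y, 0 ≤ B x y) (x y : G) :
    0 ≤ NormedSpace.exp B x y :=
  (entry_hasSum B x y).nonneg (fun n => mul_nonneg (by positivity) (pow_nonneg_entry B hB n x y))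

/-- shift by a scalar -/
theorem exp_shift {𝕂 : Type} [RCLike 𝕂] (c : 𝕂) (B : Matrix G G 𝕂) (x y : G) :
    NormedSpace.exp (c • (1 : Matrix G G 𝕂) + B) x y = NormedSpace.exp c * NormedSpace.exp B x y := by
  have hcomm : Commute (c • (1 : Matrix G G 𝕂)) B := (Commute.one_left B).smul_left c
  rw [Matrix.exp_add_of_commute _ _ hcomm]
  have h1 : (c • (1 : Matrix G G 𝕂)) = Matrix.diagonal (fun _ => c) := by
    rw [Matrix.smul_one_eq_diagonal]
  rw [h1, Matrix.exp_diagonal, Matrix.diagonal_mul]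
  congr 1
  exact Pi.coe_exp _ _

theorem heat_nonneg (A : Matrix G G ℝ) (hoff : ∀ x y, x ≠ y → A x y ≤ 0) (t : ℝ) (ht : 0 ≤ t)
    (x y : G) : 0 ≤ NormedSpace.exp (-(t • A)) x y := by
  set κ : ℝ := ∑ z, |A z z| with hκ
  have hle : ∀ z, A z z ≤ κ := fun z =>
    (le_abs_self _).trans (Finset.single_le_sum (f := fun z => |A z z|) (fun _ _ => abs_nonneg _)
      (Finset.mem_univ z))
  have e : -(t • A) = (-(t * κ)) • (1 : Matrix G G ℝ) + t • (κ • (1 : Matrix G G ℝ) - A) := by
    rw [smul_sub, smul_smul, neg_smul]; abel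
  rw [e, exp_shift, ← Real.exp_eq_exp_ℝ]
  apply mul_nonneg (Real.exp_pos _).le
  apply exp_nonneg_entry
  intro a b
  rw [Matrix.smul_apply, Matrix.sub_apply, Matrix.smul_apply, Matrix.one_apply]
  simp only [smul_eq_mul]
  apply mul_nonneg ht
  by_cases hab : a = b
  · subst hab; simp; exact hle a
  · simp [hab]; exact hoff a b hab

theorem heat_row (A : Matrix G G ℝ) (hrow : ∀ x, ∑ y, A x y = 0) (t : ℝ) (x : G) :
    ∑ y, NormedSpace.exp (-(t • A)) x y = 1 := by
  have h := hasSum_sum (s := (Finset.univ : Finset G)) (fun y _ => entry_hasSum (-(t • A)) x y)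
  refine h.unique ?_
  have e : (fun n : ℕ => ∑ y, ((n.factorial : ℝ)⁻¹) * ((-(t • A)) ^ n) x y) =
      fun n => if n = 0 then 1 else 0 := by
    funext n
    rw [← Finset.mul_sum]
    cases n with
    | zero => simp [Matrix.one_apply]
    | succ n =>
      have : ∑ y, ((-(t • A)) ^ (n + 1)) x y = 0 := by
        simp_rw [pow_succ, Matrix.mul_apply]
        rw [Finset.sum_comm]
        apply Finset.sum_eq_zero
        intro z _
        rw [← Finset.mul_sum]
        have : ∑ i, (-(t • A)) z i = 0 := by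
          simp only [Matrix.neg_apply, Matrix.smul_apply, smul_eq_mul, Finset.sum_neg_distrib]
          rw [← Finset.mul_sum, hrow z]; simp
        rw [this, mul_zero]
      rw [this]; simp
  rw [e]
  exact hasSum_ite_eq 0 1

theorem heat_symm (A : Matrix G G ℝ) (hsym : Aᵀ = A) (t : ℝ) (x y : G) :
    NormedSpace.exp (-(t • A)) x y = NormedSpace.exp (-(t • A)) y x := by
  have h : (-(t • A))ᵀ = -(t • A) := by
    rw [Matrix.transpose_neg, Matrix.transpose_smul, hsym]
  conv_rhs => rw [← h, Matrix.exp_transpose]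
  rfl

theorem semi_major (A : Matrix G G ℝ) (hoff : ∀ x y, x ≠ y → A x y ≤ 0) (P : G → ℝ)
    (hP : ∀ x, |P x| ≤ 1) (t : ℝ) (ht : 0 ≤ t) (x y : G) :
    ‖NormedSpace.exp (-(t • Hmat A P)) x y‖ ≤
      Real.exp t * NormedSpace.exp (-(t • A)) x y := by
  set κ : ℝ := ∑ z, |A z z| with hκ
  have hle : ∀ z, A z z ≤ κ := fun z =>
    (le_abs_self _).trans (Finset.single_le_sum (f := fun z => |A z z|) (fun _ _ => abs_nonneg _)
      (Finset.mem_univ z))
  have e1 : -(t • Hmat A P) = ((-(t * κ) : ℝ) : ℂ) • (1 : Matrix G G ℂ) +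
      t • ((κ : ℂ) • (1 : Matrix G G ℂ) - Hmat A P) := by
    ext a b
    simp only [Matrix.neg_apply, Matrix.smul_apply, Matrix.add_apply, Matrix.sub_apply,
      smul_eq_mul, Complex.real_smul]
    push_cast; ring
  have e2 : t • (((κ + 1) : ℝ) • (1 : Matrix G G ℝ) - A) =
      (t * (κ + 1)) • (1 : Matrix G G ℝ) + (-(t • A)) := by
    rw [smul_sub, smul_smul]; abel
  have hmaj : ∀ a b, ‖(t • ((κ : ℂ) • (1 : Matrix G G ℂ) - Hmat A P)) a b‖ ≤
      (t • (((κ + 1) : ℝ) • (1 : Matrix G G ℝ) - A)) a b := by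
    intro a b
    simp only [Matrix.smul_apply, Matrix.sub_apply, smul_eq_mul, Complex.real_smul, norm_mul,
      Complex.norm_real, Real.norm_eq_abs, abs_of_nonneg ht]
    apply mul_le_mul_of_nonneg_left _ ht
    unfold Hmat
    rw [Matrix.add_apply, Matrix.map_apply, Matrix.one_apply, Matrix.one_apply,
      Matrix.diagonal_apply]
    by_cases hab : a = b
    · subst hab
      simp only [if_true, mul_one]
      have h1 : (κ : ℂ) - ((A a a : ℂ) + (P a : ℂ) * Complex.I) =
          ((κ - A a a : ℝ) : ℂ) - (P a : ℂ) * Complex.I := by push_cast; ring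
      rw [h1]
      refine (norm_sub_le _ _).trans ?_
      rw [norm_mul, Complex.norm_I, Complex.norm_real, Complex.norm_real, Real.norm_eq_abs,
        Real.norm_eq_abs, abs_of_nonneg (by linarith [hle a])]
      linarith [hP a]
    · simp only [if_neg hab, mul_zero, add_zero, zero_sub, norm_neg, Complex.norm_real,
        Real.norm_eq_abs]
      rw [abs_of_nonpos (hoff a b hab)]
  have hfin := exp_major _ _ hmaj x y
  rw [e2, exp_shift, ← Real.exp_eq_exp_ℝ] at hfin
  rw [e1, exp_shift, norm_mul]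
  have h3 : ‖NormedSpace.exp (((-(t * κ) : ℝ) : ℂ))‖ = Real.exp (-(t * κ)) := by
    rw [← Complex.exp_eq_exp_ℂ, ← Complex.ofReal_exp, Complex.norm_real, Real.norm_eq_abs,
      abs_of_pos (Real.exp_pos _)]
  rw [h3]
  calc Real.exp (-(t * κ)) * ‖NormedSpace.exp (t • ((κ : ℂ) • (1 : Matrix G G ℂ) - Hmat A P)) x y‖
      ≤ Real.exp (-(t * κ)) * (Real.exp (t * (κ + 1)) * NormedSpace.exp (-(t • A)) x y) :=
        mul_le_mul_of_nonneg_left hfin (Real.exp_pos _).le
    _ = Real.exp t * NormedSpace.exp (-(t • A)) x y := by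
        rw [← mul_assoc, ← Real.exp_add]; congr 2; ring

/-- the exponential of the complexified matrix -/
theorem exp_map_ofReal (A : Matrix G G ℝ) (x y : G) :
    NormedSpace.exp (A.map (fun a => (a : ℂ))) x y = ((NormedSpace.exp A x y : ℝ) : ℂ) := by
  have h1 := entry_hasSum (A.map (fun a => (a : ℂ))) x y
  have h2 := entry_hasSum A x y
  have h3 : HasSum (fun n : ℕ => ((((n.factorial : ℝ)⁻¹) * (A ^ n) x y : ℝ) : ℂ))
      ((NormedSpace.exp A x y : ℝ) : ℂ) := Complex.hasSum_ofReal.mpr h2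
  refine h1.unique ?_
  refine h3.congr_fun ?_ |> fun h => h
  intro n
  have h4 : (A.map (fun a => (a : ℂ))) ^ n = (A ^ n).map (fun a => (a : ℂ)) := by
    have := map_pow (Complex.ofRealHom.mapMatrix) A n
    exact this.symm
  rw [h4, Matrix.map_apply]
  push_cast
  rfl

section
open scoped Matrix.Norms.Operator
set_option backward.isDefEq.respectTransparency false in
theorem duhamel_aux (X Y : Matrix G G ℂ) (t C : ℝ) (ht : 0 ≤ t) (θ : G → G → ℂ)
    (h : ∀ s, 0 ≤ s → s ≤ t → ‖∑ x, ∑ y, θ x y *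
      (NormedSpace.exp (-((t - s) • X)) * (X - Y) * NormedSpace.exp (-(s • Y))) x y‖ ≤ C) :
    ‖∑ x, ∑ y, θ x y * (NormedSpace.exp (-(t • Y)) x y - NormedSpace.exp (-(t • X)) x y)‖
      ≤ C * t := by
  let φl : Matrix G G ℂ →ₗ[ℝ] ℂ :=
    { toFun := fun M => ∑ x, ∑ y, θ x y * M x y
      map_add' := by
        intro M N
        simp only [Matrix.add_apply, mul_add, Finset.sum_add_distrib]
      map_smul' := by
        intro c M
        simp only [Matrix.smul_apply, Complex.real_smul, RingHom.id_apply, Finset.mul_sum]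
        apply Finset.sum_congr rfl; intro x _
        apply Finset.sum_congr rfl; intro y _
        ring }
  let φ : Matrix G G ℂ →L[ℝ] ℂ := LinearMap.toContinuousLinearMap φl
  have hφ : ∀ M, φ M = ∑ x, ∑ y, θ x y * M x y := fun M => rfl
  have hd : ∀ s : ℝ, HasDerivAt (fun s : ℝ =>
      NormedSpace.exp (-((t - s) • X)) * NormedSpace.exp (-(s • Y)))
      (NormedSpace.exp (-((t - s) • X)) * (X - Y) * NormedSpace.exp (-(s • Y))) s := by
    intro s
    have h1 : HasDerivAt (fun s : ℝ => NormedSpace.exp (-((t - s) • X)))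
        (NormedSpace.exp (-((t - s) • X)) * X) s := by
      have h2 := hasDerivAt_exp_smul_const (𝕂 := ℝ) X (s - t)
      have h3 : HasDerivAt (fun s : ℝ => s - t) 1 s := (hasDerivAt_id s).sub_const t
      have h4 := HasDerivAt.scomp s h2 h3
      rw [one_smul] at h4
      have e : ∀ s : ℝ, -((t - s) • X) = (s - t) • X := by
        intro s; rw [← neg_smul]; congr 1; ring
      simp_rw [e]
      exact h4
    have h5 : HasDerivAt (fun s : ℝ => NormedSpace.exp (-(s • Y)))
        (-(Y * NormedSpace.exp (-(s • Y)))) s := by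
      have h2 := hasDerivAt_exp_smul_const' (𝕂 := ℝ) (-Y) s
      have e : ∀ s : ℝ, -(s • Y) = s • (-Y) := by
        intro s; rw [smul_neg]
      simp_rw [e]
      rw [neg_mul] at h2
      exact h2
    have h6 := h1.mul h5
    refine h6.congr_deriv ?_
    rw [mul_sub, sub_mul]
    rw [mul_neg, ← sub_eq_add_neg]
    rw [mul_assoc, mul_assoc]
  have hg : ∀ s : ℝ, HasDerivAt (fun s : ℝ => φ (
      NormedSpace.exp (-((t - s) • X)) * NormedSpace.exp (-(s • Y))))
      (φ (NormedSpace.exp (-((t - s) • X)) * (X - Y) * NormedSpace.exp (-(s • Y)))) s := by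
    intro s
    exact φ.hasFDerivAt.comp_hasDerivAt s (hd s)
  have key := norm_image_sub_le_of_norm_deriv_le_segment' (a := 0) (b := t)
    (f := fun s : ℝ => φ (NormedSpace.exp (-((t - s) • X)) * NormedSpace.exp (-(s • Y))))
    (f' := fun s => φ (NormedSpace.exp (-((t - s) • X)) * (X - Y) * NormedSpace.exp (-(s • Y))))
    (C := C) (fun s _ => (hg s).hasDerivWithinAt)
    (fun s hs => by rw [hφ]; exact h s hs.1 hs.2.le) t ⟨ht, le_refl t⟩
  simp only [sub_self, zero_smul, neg_zero, NormedSpace.exp_zero, one_mul, mul_one, sub_zero] at key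
  rw [← map_sub, hφ] at key
  simpa only [Matrix.sub_apply] using key
end

set_option backward.isDefEq.respectTransparency false in
/-- integrated Duhamel formula, tested against a weight -/
theorem duhamel (X Y : Matrix G G ℂ) (t C : ℝ) (ht : 0 ≤ t) (θ : G → G → ℂ)
    (h : ∀ s, 0 ≤ s → s ≤ t → ‖∑ x, ∑ y, θ x y *
      (NormedSpace.exp (-((t - s) • X)) * (X - Y) * NormedSpace.exp (-(s • Y))) x y‖ ≤ C) :
    ‖∑ x, ∑ y, θ x y * (NormedSpace.exp (-(t • Y)) x y - NormedSpace.exp (-(t • X)) x y)‖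
      ≤ C * t :=
  duhamel_aux X Y t C ht θ h

end CE
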