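import Pool.Agent.H631.Schur
import Pool.Agent.H631.Markov

/-! Trace and Frobenius norm of matrix exponentials through an ordered Schur basis. -/

open Matrix

namespace CE

variable {G : Type} [Fintype G] [DecidableEq G]

theorem tri_pow {α : Type} [LinearOrder α] (M : Matrix G G ℂ) (e : G → α)
    (he : Function.Injective e) (hM : M.BlockTriangular e) (n : ℕ) :
    (M ^ n).BlockTriangular e ∧ ∀ x, (M ^ n) x x = (M x x) ^ n := by
  induction n with
  | zero =>
    refine ⟨by simpa using blockTriangular_one, fun x => by simp⟩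
  | succ n ih =>
    refine ⟨by rw [pow_succ]; exact ih.1.mul hM, fun x => ?_⟩
    rw [pow_succ, Matrix.mul_apply, Finset.sum_eq_single x, ih.2 x, pow_succ]
    · intro z _ hz
      rcases lt_trichotomy (e z) (e x) with h | h | h
      · rw [ih.1 h, zero_mul]
      · exact absurd (he h) hz
      · rw [hM h, mul_zero]
    · intro h; exact absurd (Finset.mem_univ x) h

theorem exp_diag_of_tri {α : Type} [LinearOrder α] (M : Matrix G G ℂ) (e : G → α)
    (he : Function.Injective e) (hM : M.BlockTriangular e) (x : G) :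
    NormedSpace.exp M x x = Complex.exp (M x x) := by
  have h1 := entry_hasSum M x x
  have h2 := NormedSpace.exp_series_hasSum_exp' (𝕂 := ℂ) (M x x)
  rw [← Complex.exp_eq_exp_ℂ] at h2
  refine h1.unique ?_
  simpa [(tri_pow M e he hM _).2 x] using h2

/-- Ordered Schur basis of a square matrix together with the exponential sums. -/
theorem schur_pack (H : Matrix G G ℂ) (p : ℂ → Prop) :
    ∃ (n N : ℕ) (b : Fin n → EuclideanSpace ℂ G), Orthonormal ℂ b ∧ n = Fintype.card G ∧
      (∀ j k, k < j → inner ℂ (b j) (Matrix.toEuclideanLin H (b k)) = 0) ∧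
      (∀ k : Fin n, (k.val < N ↔ p (inner ℂ (b k) (Matrix.toEuclideanLin H (b k))))) ∧
      (∀ t : ℝ, ∑ k, Complex.exp (-(t * inner ℂ (b k) (Matrix.toEuclideanLin H (b k)))) =
        (NormedSpace.exp (-(t • H))).trace) ∧
      (∀ t : ℝ, ∑ k, ‖Complex.exp (-(t * inner ℂ (b k) (Matrix.toEuclideanLin H (b k))))‖ ^ 2 ≤
        ∑ x, ∑ y, ‖NormedSpace.exp (-(t • H)) x y‖ ^ 2) := by
  obtain ⟨b, N, ho, htri, hord, -⟩ := schur_aux p (Fintype.card G) (EuclideanSpace ℂ G)
    (by simp) (Matrix.toEuclideanLin H)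
  refine ⟨Fintype.card G, N, b, ho, rfl, htri, hord, ?_⟩
  let e : G ≃ Fin (Fintype.card G) := Fintype.equivFin G
  let U : Matrix G G ℂ := fun x g => b (e g) x
  have hUU : Uᴴ * U = 1 := by
    ext g g'
    rw [Matrix.mul_apply, Matrix.one_apply]
    have := orthonormal_iff_ite.1 ho (e g) (e g')
    simp only [Equiv.apply_eq_iff_eq] at this
    rw [← this, PiLp.inner_apply]
    exact Finset.sum_congr rfl fun x _ => mul_comm _ _
  have hUU' : U * Uᴴ = 1 := mul_eq_one_comm.1 hUU
  let M : Matrix G G ℂ := Uᴴ * H * U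
  have hM : ∀ g g', M g g' = inner ℂ (b (e g)) (Matrix.toEuclideanLin H (b (e g'))) := by
    intro g g'
    simp only [M, Matrix.mul_apply, PiLp.inner_apply, Matrix.toLpLin_apply]
    simp only [Matrix.mulVec, dotProduct, Finset.sum_mul]
    rw [Finset.sum_comm]
    refine Finset.sum_congr rfl fun x _ => ?_
    show _ = (∑ y, H x y * (b (e g')) y) * (starRingEnd ℂ) (b (e g) x)
    rw [Finset.sum_mul]
    refine Finset.sum_congr rfl fun y _ => ?_
    show (starRingEnd ℂ) (b (e g) x) * H x y * (b (e g') y) = _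
    ring
  have hT : M.BlockTriangular e := by
    intro g g' h
    rw [hM]
    exact htri _ _ h
  have hexp : ∀ t : ℝ, NormedSpace.exp (-(t • M)) = Uᴴ * NormedSpace.exp (-(t • H)) * U := by
    intro t
    have hu : IsUnit U := (Matrix.isUnit_iff_isUnit_det U).2
      (by
        have := congrArg Matrix.det hUU
        rw [Matrix.det_mul, Matrix.det_one] at this
        exact IsUnit.of_mul_eq_one _ (by rw [mul_comm]; exact this))
    have hinv : U⁻¹ = Uᴴ := Matrix.inv_eq_left_inv hUU
    have := Matrix.exp_conj' U (-(t • H)) hu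
    rw [hinv] at this
    rw [← this]
    congr 1
    simp [M, Matrix.mul_smul, Matrix.smul_mul]
  have hTt : ∀ t : ℝ, (-(t • M)).BlockTriangular e := by
    intro t g g' h
    simp [hT h]
  have hdiag : ∀ (t : ℝ) (g : G), NormedSpace.exp (-(t • M)) g g =
      Complex.exp (-(t * inner ℂ (b (e g)) (Matrix.toEuclideanLin H (b (e g))))) := by
    intro t g
    rw [exp_diag_of_tri _ e e.injective (hTt t) g, ← hM]
    simp
  refine ⟨fun t => ?_, fun t => ?_⟩
  · rw [← e.sum_comp]
    simp_rw [← hdiag]
    show (NormedSpace.exp (-(t • M))).trace = _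
    rw [hexp, Matrix.trace_mul_cycle, hUU', Matrix.one_mul]
  · rw [← e.sum_comp]
    simp_rw [← hdiag]
    calc ∑ g, ‖NormedSpace.exp (-(t • M)) g g‖ ^ 2
        ≤ ∑ g, ∑ g', ‖NormedSpace.exp (-(t • M)) g g'‖ ^ 2 :=
          Finset.sum_le_sum fun g _ => Finset.single_le_sum
            (f := fun g' => ‖NormedSpace.exp (-(t • M)) g g'‖ ^ 2)
            (fun _ _ => by positivity) (Finset.mem_univ g)
      _ = ∑ x, ∑ y, ‖NormedSpace.exp (-(t • H)) x y‖ ^ 2 := by
          have hfr : ∀ Z : Matrix G G ℂ, ((∑ x, ∑ y, ‖Z x y‖ ^ 2 : ℝ) : ℂ) = (Zᴴ * Z).trace := by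
            intro Z
            simp only [Matrix.trace, Matrix.diag, Matrix.mul_apply, Matrix.conjTranspose_apply]
            rw [Finset.sum_comm]
            push_cast
            refine Finset.sum_congr rfl fun x _ => Finset.sum_congr rfl fun y _ => ?_
            rw [← Complex.conj_mul']
            rfl
          have h1 := hfr (NormedSpace.exp (-(t • M)))
          have h2 := hfr (NormedSpace.exp (-(t • H)))
          rw [hexp] at h1
          have h3 : ((Uᴴ * NormedSpace.exp (-(t • H)) * U)ᴴ *
              (Uᴴ * NormedSpace.exp (-(t • H)) * U)).trace =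
              ((NormedSpace.exp (-(t • H)))ᴴ * NormedSpace.exp (-(t • H))).trace := by
            rw [Matrix.conjTranspose_mul, Matrix.conjTranspose_mul, Matrix.conjTranspose_conjTranspose]
            rw [show Uᴴ * ((NormedSpace.exp (-(t • H)))ᴴ * U) * (Uᴴ * NormedSpace.exp (-(t • H)) * U)
              = Uᴴ * ((NormedSpace.exp (-(t • H)))ᴴ * (U * Uᴴ) * NormedSpace.exp (-(t • H))) * U by
                simp only [Matrix.mul_assoc]]
            rw [hUU', Matrix.mul_one, Matrix.trace_mul_cycle, hUU', Matrix.one_mul]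
          rw [h3] at h1
          rw [hexp]
          exact_mod_cast h1.trans h2.symm

end CE
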