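import Pool.Agent.H631.Trace2
import Pool.Agent.H631.Heat
import Pool.Agent.H631.Exit

/-! Facts about the lattice generator on the torus used in the counting estimate. -/

open Matrix Finset

namespace CE

variable {d M : ℕ}

theorem lapM_symm (c : ℝ) : (lapM d M c)ᵀ = lapM d M c := by
  ext x y
  rw [Matrix.transpose_apply]
  unfold lapM
  congr 1
  refine Finset.sum_congr rfl fun i _ => ?_
  have h1 : (x = y) = (y = x) := propext eq_comm
  have h2 : (x = y + Pi.single i 1) = (y = x - Pi.single i 1) :=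
    propext ⟨fun h => by rw [h]; simp, fun h => by rw [h]; simp⟩
  have h3 : (x = y - Pi.single i 1) = (y = x + Pi.single i 1) :=
    propext ⟨fun h => by rw [h]; simp, fun h => by rw [h]; simp⟩
  simp only [h1, h2, h3]
  ring

theorem lapM_off (c : ℝ) (hc : 0 ≤ c) (x y : Tor d M) (h : x ≠ y) : lapM d M c x y ≤ 0 := by
  unfold lapM
  refine mul_nonpos_of_nonneg_of_nonpos hc (Finset.sum_nonpos fun i _ => ?_)
  rw [if_neg (Ne.symm h)]
  split_ifs <;> norm_num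

theorem lapM_row (c : ℝ) [NeZero M] (x : Tor d M) : ∑ y, lapM d M c x y = 0 := by
  unfold lapM
  rw [← Finset.mul_sum, Finset.sum_comm]
  simp only [Finset.sum_sub_distrib]
  simp
  right
  ring

theorem flowQ_le (m : ℕ) [NeZero M] (hm : m ≤ M) (c : ℝ) (hc : 0 ≤ c) (s t : ℝ)
    (hs : 0 ≤ s) (hst : s ≤ t) :
    flowQ (lapM d M c) (cubeQ d M m) s ≤ d * (m : ℝ) ^ (d - 1) * Real.sqrt (2 * c * t) := by
  refine (heat_exit d M m hm c hc s hs).trans ?_
  refine mul_le_mul_of_nonneg_left (Real.sqrt_le_sqrt ?_) (by positivity)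
  exact mul_le_mul_of_nonneg_left hst (by positivity)

open Classical in
theorem card_cubeQ (m : ℕ) [NeZero M] (hm : m ≤ M) :
    ((Finset.univ.filter (fun x : Tor d M => x ∈ cubeQ d M m)).card) = m ^ d := by
  have h1 : (Finset.univ.filter (fun x : Tor d M => x ∈ cubeQ d M m)) =
      Fintype.piFinset (fun _ : Fin d => Finset.univ.filter (fun a : ZMod M => a.val < m)) := by
    ext x
    simp only [Finset.mem_filter, Finset.mem_univ, true_and, Fintype.mem_piFinset]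
    exact Iff.rfl
  have h2 : (Finset.univ.filter (fun a : ZMod M => a.val < m)).card = m := by
    rw [← Finset.card_range m]
    refine Finset.card_bij (fun a _ => a.val) (fun a ha => ?_) (fun a _ b _ h => ZMod.val_injective M h)
      (fun b hb => ?_)
    · simpa using ha
    · have hb' := Finset.mem_range.1 hb
      exact ⟨(b : ZMod M), by simp [ZMod.val_natCast, Nat.mod_eq_of_lt (hb'.trans_le hm), hb'],
        by simp [ZMod.val_natCast, Nat.mod_eq_of_lt (hb'.trans_le hm)]⟩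
  rw [h1, Fintype.card_piFinset]
  simp [h2]

open Classical in
theorem W_eq (m : ℕ) [NeZero M] (hm : m ≤ M) (c t : ℝ) :
    ∑ x : Tor d M, (if x ∈ cubeQ d M m then NormedSpace.exp (-(t • lapM d M c)) x x else 0) =
      (m : ℝ) ^ d / (M : ℝ) ^ d * ∑ k : Tor d M, Real.exp (-(t * lamb d M c k)) := by
  simp_rw [heat_diag]
  rw [← Finset.sum_filter, Finset.sum_const, card_cubeQ m hm, nsmul_eq_mul]
  push_cast
  ring

theorem sm_bound (m : ℕ) (hm : 1 ≤ m) (ħ t : ℝ) (hħ : 0 < ħ) (ht : 0 < t) (hle : ħ ^ 2 * t ≤ 1)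
    [NeZero (2 * (m * m))] (s : ℝ) (hs : t / 2 ≤ s) (x y : Tor d (2 * (m * m))) :
    NormedSpace.exp (-(s • lapM d (2 * (m * m)) (ħ ^ 2 * (m : ℝ) ^ 2))) x y ≤
      (2 / Real.sqrt (t / 2)) ^ d * ((ħ⁻¹) ^ d * ((m : ℝ)⁻¹) ^ d) := by
  have hm' : (1 : ℝ) ≤ m := by exact_mod_cast hm
  have hs0 : 0 < s := by linarith
  refine (heat_le d _ _ (by positivity) s hs0 x y).trans ?_
  rw [show (2 / Real.sqrt (t / 2)) ^ d * ((ħ⁻¹) ^ d * ((m : ℝ)⁻¹) ^ d) =
    (2 / Real.sqrt (t / 2) * (ħ⁻¹ * (m : ℝ)⁻¹)) ^ d by rw [mul_pow, mul_pow]]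
  have hq : 0 < Real.sqrt (t / 2) := Real.sqrt_pos.2 (by linarith)
  have h1 : Real.sqrt (t / 2) * (ħ * m) ≤ Real.sqrt (s * (ħ ^ 2 * (m : ℝ) ^ 2)) := by
    rw [show s * (ħ ^ 2 * (m : ℝ) ^ 2) = s * (ħ * m) ^ 2 by ring,
      Real.sqrt_mul hs0.le, Real.sqrt_sq (by positivity)]
    exact mul_le_mul_of_nonneg_right (Real.sqrt_le_sqrt hs) (by positivity)
  have h2 : 1 / Real.sqrt (s * (ħ ^ 2 * (m : ℝ) ^ 2)) ≤ 1 / (Real.sqrt (t / 2) * (ħ * m)) :=
    one_div_le_one_div_of_le (by positivity) h1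
  have h4 : Real.sqrt (t / 2) * ħ ≤ 1 := by
    have : Real.sqrt (t / 2) * ħ = Real.sqrt (t / 2 * ħ ^ 2) := by
      rw [Real.sqrt_mul (by linarith), Real.sqrt_sq hħ.le]
    rw [this]
    exact Real.sqrt_le_one.2 (by nlinarith [sq_nonneg ħ])
  have h3 : 1 / ((2 * (m * m) : ℕ) : ℝ) ≤ 1 / (Real.sqrt (t / 2) * (ħ * m)) := by
    refine one_div_le_one_div_of_le (by positivity) ?_
    push_cast
    calc Real.sqrt (t / 2) * (ħ * m) = (Real.sqrt (t / 2) * ħ) * (m : ℝ) := by ring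
      _ ≤ (1 : ℝ) * (m : ℝ) := mul_le_mul_of_nonneg_right h4 (by linarith)
      _ ≤ 2 * ((m : ℝ) * (m : ℝ)) := by nlinarith
  have h5 : 0 ≤ 1 / ((2 * (m * m) : ℕ) : ℝ) + 1 / Real.sqrt (s * (ħ ^ 2 * (m : ℝ) ^ 2)) := by
    positivity
  refine pow_le_pow_left₀ h5 ?_ d
  calc _ ≤ 1 / (Real.sqrt (t / 2) * (ħ * m)) + 1 / (Real.sqrt (t / 2) * (ħ * m)) := add_le_add h3 h2
    _ = _ := by field_simp; ring

theorem em_bound (hd : 1 ≤ d) (m : ℕ) (hm : 1 ≤ m) (ħ t : ℝ) (hħ : 0 < ħ)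
    [NeZero (2 * (m * m))] (s : ℝ) (hs : 0 ≤ s) (hst : s ≤ t) :
    flowQ (lapM d (2 * (m * m)) (ħ ^ 2 * (m : ℝ) ^ 2)) (cubeQ d (2 * (m * m)) m) s ≤
      d * Real.sqrt (2 * t) * ((m : ℝ) ^ d * ħ) := by
  refine (flowQ_le m (by nlinarith) _ (by positivity) s t hs hst).trans (le_of_eq ?_)
  rw [show 2 * (ħ ^ 2 * (m : ℝ) ^ 2) * t = (2 * t) * (ħ * m) ^ 2 by ring,
    Real.sqrt_mul (by linarith), Real.sqrt_sq (by positivity)]
  obtain ⟨e, rfl⟩ : ∃ e, d = e + 1 := ⟨d - 1, by omega⟩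
  rw [Nat.add_sub_cancel, pow_succ]
  ring

end CE
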