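import Pool.Agent.H631.Markov

/-! Trace estimates for `exp (-t (A + i 1_Q))`. -/

open Matrix Finset

namespace CE

variable {G : Type} [Fintype G] [DecidableEq G]

theorem Hmat_sub (A : Matrix G G ℝ) (R P : G → ℝ) :
    Hmat A R - Hmat A P = Matrix.diagonal (fun z => ((R z - P z : ℝ) : ℂ) * Complex.I) := by
  unfold Hmat
  rw [add_sub_add_left_eq_sub, Matrix.diagonal_sub]
  congr 1
  funext z
  push_cast
  ring

theorem duh_bound (A : Matrix G G ℝ) (hoff : ∀ x y, x ≠ y → A x y ≤ 0) (P R : G → ℝ)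
    (hP : ∀ x, |P x| ≤ 1) (hR : ∀ x, |R x| ≤ 1) (κ : G → G → ℝ) (hκ : ∀ x y, 0 ≤ κ x y)
    (t C : ℝ) (ht : 0 ≤ t)
    (h : ∀ s, 0 ≤ s → s ≤ t → ∑ x, ∑ y, κ x y * ∑ z, |R z - P z| *
      (NormedSpace.exp (-((t - s) • A)) x z * NormedSpace.exp (-(s • A)) z y) ≤ C) :
    ∑ x, ∑ y, κ x y * ‖NormedSpace.exp (-(t • Hmat A P)) x y -
      NormedSpace.exp (-(t • Hmat A R)) x y‖ ≤ Real.exp t * C * t := by
  set D : G → G → ℂ := fun x y => NormedSpace.exp (-(t • Hmat A P)) x y -
      NormedSpace.exp (-(t • Hmat A R)) x y with hD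
  set θ : G → G → ℂ := fun x y => (κ x y : ℂ) * ((starRingEnd ℂ) (D x y) / (‖D x y‖ : ℂ)) with hθ
  have hθn : ∀ x y, ‖θ x y‖ ≤ κ x y := by
    intro x y
    rw [hθ]
    simp only [norm_mul, norm_div, RCLike.norm_conj, Complex.norm_real, norm_norm,
      Real.norm_of_nonneg (hκ x y)]
    exact mul_le_of_le_one_right (hκ x y) (div_self_le_one _)
  have hθD : ∀ x y, θ x y * D x y = ((κ x y * ‖D x y‖ : ℝ) : ℂ) := by
    intro x y
    rw [hθ]
    by_cases h0 : D x y = 0
    · simp [h0]
    · have hn : (‖D x y‖ : ℂ) ≠ 0 := by exact_mod_cast norm_ne_zero_iff.2 h0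
      simp only
      rw [mul_assoc, div_mul_eq_mul_div, Complex.conj_mul', sq, mul_div_assoc, div_self hn]
      push_cast; ring
  have key := duhamel (Hmat A R) (Hmat A P) t (Real.exp t * C) ht θ ?_
  · have e1 : ∑ x, ∑ y, θ x y * (NormedSpace.exp (-(t • Hmat A P)) x y -
        NormedSpace.exp (-(t • Hmat A R)) x y) = ((∑ x, ∑ y, κ x y * ‖D x y‖ : ℝ) : ℂ) := by
      push_cast
      refine Finset.sum_congr rfl fun x _ => Finset.sum_congr rfl fun y _ => ?_
      have := hθD x y
      push_cast at this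
      exact this
    rw [e1, Complex.norm_real] at key
    exact (le_abs_self _).trans key
  · intro s hs0 hst
    calc ‖∑ x, ∑ y, θ x y * (NormedSpace.exp (-((t - s) • Hmat A R)) * (Hmat A R - Hmat A P) *
            NormedSpace.exp (-(s • Hmat A P))) x y‖
        ≤ ∑ x, ∑ y, κ x y * ∑ z, Real.exp t * (|R z - P z| *
          (NormedSpace.exp (-((t - s) • A)) x z * NormedSpace.exp (-(s • A)) z y)) := by
          refine (norm_sum_le _ _).trans (Finset.sum_le_sum fun x _ => ?_)
          refine (norm_sum_le _ _).trans (Finset.sum_le_sum fun y _ => ?_)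
          rw [norm_mul]
          refine mul_le_mul (hθn x y) ?_ (norm_nonneg _) (hκ x y)
          rw [Hmat_sub, Matrix.mul_apply]
          refine (norm_sum_le _ _).trans (Finset.sum_le_sum fun z _ => ?_)
          rw [Matrix.mul_diagonal, norm_mul, norm_mul, norm_mul, Complex.norm_I, mul_one,
            Complex.norm_real, Real.norm_eq_abs]
          have h1 := semi_major A hoff R hR (t - s) (by linarith) x z
          have h2 := semi_major A hoff P hP s hs0 z y
          have h3 := heat_nonneg A hoff (t - s) (by linarith) x z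
          have h4 := heat_nonneg A hoff s hs0 z y
          calc _ ≤ (Real.exp (t - s) * NormedSpace.exp (-((t - s) • A)) x z) * |R z - P z| *
                (Real.exp s * NormedSpace.exp (-(s • A)) z y) := by
                gcongr
            _ = (Real.exp (t - s) * Real.exp s) * (|R z - P z| *
                (NormedSpace.exp (-((t - s) • A)) x z * NormedSpace.exp (-(s • A)) z y)) := by ring
            _ = _ := by rw [← Real.exp_add, sub_add_cancel]
      _ = Real.exp t * ∑ x, ∑ y, κ x y * ∑ z, (|R z - P z| *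
          (NormedSpace.exp (-((t - s) • A)) x z * NormedSpace.exp (-(s • A)) z y)) := by
          simp_rw [← Finset.mul_sum]
          rw [Finset.mul_sum]
          refine Finset.sum_congr rfl fun x _ => ?_
          rw [Finset.mul_sum]
          refine Finset.sum_congr rfl fun y _ => by ring
      _ ≤ Real.exp t * C := mul_le_mul_of_nonneg_left (h s hs0 hst) (Real.exp_pos t).le

theorem exp_Hmat_const (A : Matrix G G ℝ) (r t : ℝ) (x y : G) :
    NormedSpace.exp (-(t • Hmat A (fun _ => r))) x y =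
      Complex.exp (-(t * r * Complex.I)) * (NormedSpace.exp (-(t • A)) x y : ℝ) := by
  have e : -(t • Hmat A (fun _ => r)) = (-(t * r * Complex.I)) • (1 : Matrix G G ℂ) +
      (-(t • A)).map (fun a => (a : ℂ)) := by
    ext i j
    simp only [Hmat, Matrix.neg_apply, Matrix.smul_apply, Matrix.add_apply, Matrix.map_apply,
      Matrix.diagonal_apply, Matrix.one_apply, Complex.real_smul]
    split_ifs <;> simp <;> ring
  rw [e, exp_shift, exp_map_ofReal, ← Complex.exp_eq_exp_ℂ]

open Classical in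
/-- the indicator potential -/
noncomputable def indP (Q : Set G) : G → ℝ := fun x => if x ∈ Q then 1 else 0

theorem indP_abs (Q : Set G) (x : G) : |indP Q x| ≤ 1 := by
  unfold indP; split_ifs <;> simp

open Classical in
/-- the flow between `Q` and its complement -/
noncomputable def flowQ (A : Matrix G G ℝ) (Q : Set G) (s : ℝ) : ℝ :=
  ∑ x : G, ∑ z : G, if x ∈ Q ∧ z ∉ Q then NormedSpace.exp (-(s • A)) x z else 0

open Classical in
theorem flowQ_symm (A : Matrix G G ℝ) (hsym : Aᵀ = A) (Q : Set G) (s : ℝ) :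
    ∑ x : G, ∑ z : G, (if x ∉ Q ∧ z ∈ Q then NormedSpace.exp (-(s • A)) x z else 0)
      = flowQ A Q s := by
  unfold flowQ
  rw [Finset.sum_comm]
  refine Finset.sum_congr rfl fun x _ => Finset.sum_congr rfl fun z _ => ?_
  rw [heat_symm A hsym s z x]
  congr 1
  exact propext and_comm

open Classical in
/-- off-diagonal differences, `x ∈ Q` -/
theorem diff_in (A : Matrix G G ℝ) (hoff : ∀ x y, x ≠ y → A x y ≤ 0)
    (hrow : ∀ x, ∑ y, A x y = 0) (Q : Set G) (t Em : ℝ) (ht : 0 ≤ t)
    (hE : ∀ s, 0 ≤ s → s ≤ t → flowQ A Q s ≤ Em) :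
    ∑ x, ∑ y, (if x ∈ Q then 1 else 0) * ‖NormedSpace.exp (-(t • Hmat A (indP Q))) x y -
      NormedSpace.exp (-(t • Hmat A (fun _ => 1))) x y‖ ≤ Real.exp t * Em * t := by
  refine duh_bound A hoff (indP Q) (fun _ => 1) (indP_abs Q) (fun _ => by simp)
    (fun x _ => if x ∈ Q then 1 else 0) (fun x y => by split_ifs <;> norm_num) t Em ht ?_
  intro s hs0 hst
  refine le_trans (le_of_eq ?_) (hE (t - s) (by linarith) (by linarith))
  unfold flowQ
  refine Finset.sum_congr rfl fun x _ => ?_
  rw [← Finset.mul_sum, Finset.sum_comm]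
  simp_rw [← Finset.mul_sum]
  rw [Finset.mul_sum]
  refine Finset.sum_congr rfl fun z _ => ?_
  rw [heat_row A hrow s z, mul_one]
  unfold indP
  by_cases hx : x ∈ Q <;> by_cases hz : z ∈ Q <;> simp [hx, hz]

open Classical in
/-- off-diagonal differences, `x ∉ Q` -/
theorem diff_out (A : Matrix G G ℝ) (hsym : Aᵀ = A) (hoff : ∀ x y, x ≠ y → A x y ≤ 0)
    (hrow : ∀ x, ∑ y, A x y = 0) (Q : Set G) (t Em : ℝ) (ht : 0 ≤ t)
    (hE : ∀ s, 0 ≤ s → s ≤ t → flowQ A Q s ≤ Em) :
    ∑ x, ∑ y, (if x ∉ Q then 1 else 0) * ‖NormedSpace.exp (-(t • Hmat A (indP Q))) x y -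
      NormedSpace.exp (-(t • Hmat A (fun _ => 0))) x y‖ ≤ Real.exp t * Em * t := by
  refine duh_bound A hoff (indP Q) (fun _ => 0) (indP_abs Q) (fun _ => by simp)
    (fun x _ => if x ∉ Q then 1 else 0) (fun x y => by split_ifs <;> norm_num) t Em ht ?_
  intro s hs0 hst
  refine le_trans (le_of_eq ?_) (hE (t - s) (by linarith) (by linarith))
  rw [← flowQ_symm A hsym]
  refine Finset.sum_congr rfl fun x _ => ?_
  rw [← Finset.mul_sum, Finset.sum_comm]
  simp_rw [← Finset.mul_sum]
  rw [Finset.mul_sum]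
  refine Finset.sum_congr rfl fun z _ => ?_
  rw [heat_row A hrow s z, mul_one]
  unfold indP
  by_cases hx : x ∈ Q <;> by_cases hz : z ∈ Q <;> simp [hx, hz]

open Classical in
/-- diagonal differences, `x ∈ Q` -/
theorem diag_in (A : Matrix G G ℝ) (hsym : Aᵀ = A) (hoff : ∀ x y, x ≠ y → A x y ≤ 0)
    (Q : Set G) (t Em Sm : ℝ) (ht : 0 ≤ t) (hSm : 0 ≤ Sm)
    (hE : ∀ s, 0 ≤ s → s ≤ t → flowQ A Q s ≤ Em)
    (hS : ∀ s, t / 2 ≤ s → s ≤ t → ∀ x y, NormedSpace.exp (-(s • A)) x y ≤ Sm) :
    ∑ x, (if x ∈ Q then 1 else 0) * ‖NormedSpace.exp (-(t • Hmat A (indP Q))) x x -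
      NormedSpace.exp (-(t • Hmat A (fun _ => 1))) x x‖ ≤ Real.exp t * (Sm * Em) * t := by
  have key := duh_bound A hoff (indP Q) (fun _ => 1) (indP_abs Q) (fun _ => by simp)
    (fun x y => if x ∈ Q ∧ y = x then 1 else 0) (fun x y => by split_ifs <;> norm_num) t (Sm * Em) ht ?_
  · refine le_trans (le_of_eq ?_) key
    refine Finset.sum_congr rfl fun x _ => ?_
    rw [Finset.sum_eq_single x]
    · simp
    · intro y _ hy; simp [hy]
    · intro h; exact absurd (Finset.mem_univ x) h
  · intro s hs0 hst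
    have e : ∀ x : G, ∑ y, (if x ∈ Q ∧ y = x then (1:ℝ) else 0) * ∑ z, |1 - indP Q z| *
        (NormedSpace.exp (-((t - s) • A)) x z * NormedSpace.exp (-(s • A)) z y) =
        ∑ z, if x ∈ Q ∧ z ∉ Q then
          (NormedSpace.exp (-((t - s) • A)) x z * NormedSpace.exp (-(s • A)) z x) else 0 := by
      intro x
      rw [Finset.sum_eq_single x]
      · rw [Finset.mul_sum]
        refine Finset.sum_congr rfl fun z _ => ?_
        unfold indP
        by_cases hx : x ∈ Q <;> by_cases hz : z ∈ Q <;> simp [hx, hz]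
      · intro y _ hy; simp [hy]
      · intro h; exact absurd (Finset.mem_univ x) h
    simp_rw [e]
    rcases le_total (t / 2) s with h | h
    · refine le_trans ?_ (mul_le_mul_of_nonneg_left (hE (t - s) (by linarith) (by linarith)) hSm)
      unfold flowQ
      rw [Finset.mul_sum]
      refine Finset.sum_le_sum fun x _ => ?_
      rw [Finset.mul_sum]
      refine Finset.sum_le_sum fun z _ => ?_
      split_ifs with hc
      · rw [mul_comm]
        exact mul_le_mul_of_nonneg_right (hS s h hst z x) (heat_nonneg A hoff _ (by linarith) x z)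
      · simp
    · refine le_trans ?_ (mul_le_mul_of_nonneg_left (hE s hs0 hst) hSm)
      unfold flowQ
      rw [Finset.mul_sum]
      refine Finset.sum_le_sum fun x _ => ?_
      rw [Finset.mul_sum]
      refine Finset.sum_le_sum fun z _ => ?_
      split_ifs with hc
      · rw [heat_symm A hsym s z x]
        exact mul_le_mul_of_nonneg_right (hS (t - s) (by linarith) (by linarith) x z)
          (heat_nonneg A hoff _ hs0 x z)
      · simp

open Classical in
/-- diagonal differences, `x ∉ Q` -/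
theorem diag_out (A : Matrix G G ℝ) (hsym : Aᵀ = A) (hoff : ∀ x y, x ≠ y → A x y ≤ 0)
    (Q : Set G) (t Em Sm : ℝ) (ht : 0 ≤ t) (hSm : 0 ≤ Sm)
    (hE : ∀ s, 0 ≤ s → s ≤ t → flowQ A Q s ≤ Em)
    (hS : ∀ s, t / 2 ≤ s → s ≤ t → ∀ x y, NormedSpace.exp (-(s • A)) x y ≤ Sm) :
    ∑ x, (if x ∉ Q then 1 else 0) * ‖NormedSpace.exp (-(t • Hmat A (indP Q))) x x -
      NormedSpace.exp (-(t • Hmat A (fun _ => 0))) x x‖ ≤ Real.exp t * (Sm * Em) * t := by
  have key := duh_bound A hoff (indP Q) (fun _ => 0) (indP_abs Q) (fun _ => by simp)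
    (fun x y => if x ∉ Q ∧ y = x then 1 else 0) (fun x y => by split_ifs <;> norm_num) t (Sm * Em) ht ?_
  · refine le_trans (le_of_eq ?_) key
    refine Finset.sum_congr rfl fun x _ => ?_
    rw [Finset.sum_eq_single x]
    · simp
    · intro y _ hy; simp [hy]
    · intro h; exact absurd (Finset.mem_univ x) h
  · intro s hs0 hst
    have e : ∀ x : G, ∑ y, (if x ∉ Q ∧ y = x then (1:ℝ) else 0) * ∑ z, |0 - indP Q z| *
        (NormedSpace.exp (-((t - s) • A)) x z * NormedSpace.exp (-(s • A)) z y) =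
        ∑ z, if x ∉ Q ∧ z ∈ Q then
          (NormedSpace.exp (-((t - s) • A)) x z * NormedSpace.exp (-(s • A)) z x) else 0 := by
      intro x
      rw [Finset.sum_eq_single x]
      · rw [Finset.mul_sum]
        refine Finset.sum_congr rfl fun z _ => ?_
        unfold indP
        by_cases hx : x ∈ Q <;> by_cases hz : z ∈ Q <;> simp [hx, hz]
      · intro y _ hy; simp [hy]
      · intro h; exact absurd (Finset.mem_univ x) h
    simp_rw [e]
    rcases le_total (t / 2) s with h | h
    · refine le_trans ?_ (mul_le_mul_of_nonneg_left (hE (t - s) (by linarith) (by linarith)) hSm)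
      rw [← flowQ_symm A hsym, Finset.mul_sum]
      refine Finset.sum_le_sum fun x _ => ?_
      rw [Finset.mul_sum]
      refine Finset.sum_le_sum fun z _ => ?_
      split_ifs with hc
      · rw [mul_comm]
        exact mul_le_mul_of_nonneg_right (hS s h hst z x) (heat_nonneg A hoff _ (by linarith) x z)
      · simp
    · refine le_trans ?_ (mul_le_mul_of_nonneg_left (hE s hs0 hst) hSm)
      rw [← flowQ_symm A hsym, Finset.mul_sum]
      refine Finset.sum_le_sum fun x _ => ?_
      rw [Finset.mul_sum]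
      refine Finset.sum_le_sum fun z _ => ?_
      split_ifs with hc
      · rw [heat_symm A hsym s z x]
        exact mul_le_mul_of_nonneg_right (hS (t - s) (by linarith) (by linarith) x z)
          (heat_nonneg A hoff _ hs0 x z)
      · simp

/-- the total size of the imaginary part at time `π` -/
theorem im_sum_le (A : Matrix G G ℝ) (hsym : Aᵀ = A) (hoff : ∀ x y, x ≠ y → A x y ≤ 0)
    (hrow : ∀ x, ∑ y, A x y = 0) (Q : Set G) (Em : ℝ)
    (hE : ∀ s, 0 ≤ s → s ≤ Real.pi → flowQ A Q s ≤ Em) :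
    ∑ x, ∑ y, |(NormedSpace.exp (-(Real.pi • Hmat A (indP Q))) x y).im| ≤
      2 * (Real.exp Real.pi * Em * Real.pi) := by
  classical
  have h1 := diff_in A hoff hrow Q Real.pi Em Real.pi_pos.le hE
  have h2 := diff_out A hsym hoff hrow Q Real.pi Em Real.pi_pos.le hE
  refine le_trans ?_ (le_of_le_of_eq (add_le_add h1 h2) (two_mul _).symm)
  rw [← Finset.sum_add_distrib]
  refine Finset.sum_le_sum fun x _ => ?_
  rw [← Finset.sum_add_distrib]
  refine Finset.sum_le_sum fun y _ => ?_
  by_cases hx : x ∈ Q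
  · have e : (NormedSpace.exp (-(Real.pi • Hmat A (fun _ => 1))) x y).im = 0 := by
      rw [exp_Hmat_const]
      simp [Complex.exp_neg]
    have := Complex.abs_im_le_norm (NormedSpace.exp (-(Real.pi • Hmat A (indP Q))) x y -
      NormedSpace.exp (-(Real.pi • Hmat A (fun _ => 1))) x y)
    rw [Complex.sub_im, e, sub_zero] at this
    simpa [hx] using this
  · have e : (NormedSpace.exp (-(Real.pi • Hmat A (fun _ => 0))) x y).im = 0 := by
      rw [exp_Hmat_const]
      simp
    have := Complex.abs_im_le_norm (NormedSpace.exp (-(Real.pi • Hmat A (indP Q))) x y -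
      NormedSpace.exp (-(Real.pi • Hmat A (fun _ => 0))) x y)
    rw [Complex.sub_im, e, sub_zero] at this
    simpa [hx] using this

open Classical in
/-- the imaginary part of the trace -/
theorem im_trace (A : Matrix G G ℝ) (hsym : Aᵀ = A) (hoff : ∀ x y, x ≠ y → A x y ≤ 0)
    (Q : Set G) (t Em Sm : ℝ) (ht : 0 ≤ t) (hSm : 0 ≤ Sm)
    (hE : ∀ s, 0 ≤ s → s ≤ t → flowQ A Q s ≤ Em)
    (hS : ∀ s, t / 2 ≤ s → s ≤ t → ∀ x y, NormedSpace.exp (-(s • A)) x y ≤ Sm) :
    |((NormedSpace.exp (-(t • Hmat A (indP Q)))).trace).im + Real.sin t *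
      ∑ x, (if x ∈ Q then NormedSpace.exp (-(t • A)) x x else 0)| ≤
      2 * (Real.exp t * (Sm * Em) * t) := by
  have h1 := diag_in A hsym hoff Q t Em Sm ht hSm hE hS
  have h2 := diag_out A hsym hoff Q t Em Sm ht hSm hE hS
  refine le_trans ?_ (le_of_le_of_eq (add_le_add h1 h2) (two_mul _).symm)
  rw [← Finset.sum_add_distrib]
  simp only [Matrix.trace, Matrix.diag, Complex.im_sum]
  rw [Finset.mul_sum, ← Finset.sum_add_distrib]
  refine (Finset.abs_sum_le_sum_abs _ _).trans (Finset.sum_le_sum fun x _ => ?_)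
  by_cases hx : x ∈ Q
  · have e : (NormedSpace.exp (-(t • Hmat A (fun _ => 1))) x x).im =
        - (Real.sin t * NormedSpace.exp (-(t • A)) x x) := by
      rw [exp_Hmat_const]
      rw [show -((t:ℂ) * ((1:ℝ):ℂ) * Complex.I) = ((-t : ℝ) : ℂ) * Complex.I by push_cast; ring]
      rw [Complex.im_mul_ofReal, Complex.exp_ofReal_mul_I_im, Real.sin_neg]
      ring
    have := Complex.abs_im_le_norm (NormedSpace.exp (-(t • Hmat A (indP Q))) x x -
      NormedSpace.exp (-(t • Hmat A (fun _ => 1))) x x)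
    rw [Complex.sub_im, e, sub_neg_eq_add] at this
    simpa [hx] using this
  · have e : (NormedSpace.exp (-(t • Hmat A (fun _ => 0))) x x).im = 0 := by
      rw [exp_Hmat_const]
      simp
    have := Complex.abs_im_le_norm (NormedSpace.exp (-(t • Hmat A (indP Q))) x x -
      NormedSpace.exp (-(t • Hmat A (fun _ => 0))) x x)
    rw [Complex.sub_im, e, sub_zero] at this
    simpa [hx] using this

end CE
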