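import Pool.Agent.H631.Trace
import Pool.Agent.H631.SchurMat

/-! The exponential sums over a spectral family. -/

open Matrix Finset

namespace CE

variable {G : Type} [Fintype G] [DecidableEq G]

theorem Hmat_transpose (A : Matrix G G ℝ) (hsym : Aᵀ = A) (P : G → ℝ) :
    (Hmat A P)ᵀ = Hmat A P := by
  unfold Hmat
  rw [Matrix.transpose_add, Matrix.diagonal_transpose, ← Matrix.transpose_map, hsym]

theorem exp_Hmat_symm (A : Matrix G G ℝ) (hsym : Aᵀ = A) (P : G → ℝ) (t : ℝ) (x y : G) :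
    NormedSpace.exp (-(t • Hmat A P)) x y = NormedSpace.exp (-(t • Hmat A P)) y x := by
  have h : (-(t • Hmat A P))ᵀ = -(t • Hmat A P) := by
    rw [Matrix.transpose_neg, Matrix.transpose_smul, Hmat_transpose A hsym]
  have := Matrix.exp_transpose (-(t • Hmat A P))
  rw [h] at this
  exact congrFun (congrFun this x) y

theorem exp_double (H : Matrix G G ℂ) (t : ℝ) :
    NormedSpace.exp (-((2 * t) • H)) = NormedSpace.exp (-(t • H)) * NormedSpace.exp (-(t • H)) := by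
  rw [← Matrix.exp_add_of_commute _ _ (Commute.refl _)]
  congr 1
  rw [two_mul, add_smul]
  abel

/-- a family of complex numbers with the exponential sums of a matrix -/
structure SpecFam (H : Matrix G G ℂ) {ι : Type} [Fintype ι] (E : ι → ℂ) : Prop where
  tr : ∀ t : ℝ, ∑ k, Complex.exp (-(t * E k)) = (NormedSpace.exp (-(t • H))).trace
  fro : ∀ t : ℝ, ∑ k, ‖Complex.exp (-(t * E k))‖ ^ 2 ≤ ∑ x, ∑ y, ‖NormedSpace.exp (-(t • H)) x y‖ ^ 2

theorem re_exp_neg (t : ℝ) (E : ℂ) : (Complex.exp (-(t * E))).re =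
    Real.exp (-(t * E.re)) * Real.cos (t * E.im) := by
  rw [Complex.exp_re]
  simp [Real.cos_neg]

theorem im_exp_neg (t : ℝ) (E : ℂ) : (Complex.exp (-(t * E))).im =
    -(Real.exp (-(t * E.re)) * Real.sin (t * E.im)) := by
  rw [Complex.exp_im]
  simp [Real.sin_neg]

theorem SpecFam.im_tr {H : Matrix G G ℂ} {ι : Type} [Fintype ι] {E : ι → ℂ}
    (h : SpecFam H E) (t : ℝ) : ((NormedSpace.exp (-(t • H))).trace).im =
      -∑ k, Real.exp (-(t * (E k).re)) * Real.sin (t * (E k).im) := by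
  rw [← h.tr t, Complex.im_sum, ← Finset.sum_neg_distrib]
  exact Finset.sum_congr rfl fun k _ => im_exp_neg t (E k)

/-- the main positivity estimate -/
theorem SpecFam.T_le [Nonempty G] {A : Matrix G G ℝ} (hsym : Aᵀ = A) (hoff : ∀ x y, x ≠ y → A x y ≤ 0)
    (hrow : ∀ x, ∑ y, A x y = 0) (Q : Set G) (Em Sm : ℝ)
    (hE : ∀ s, 0 ≤ s → s ≤ Real.pi → flowQ A Q s ≤ Em)
    (hS : ∀ x y, NormedSpace.exp (-(Real.pi • A)) x y ≤ Sm)
    {ι : Type} [Fintype ι] {E : ι → ℂ} (h : SpecFam (Hmat A (indP Q)) E) :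
    ∑ k, Real.exp (-(2 * Real.pi * (E k).re)) * (1 - Real.cos (2 * Real.pi * (E k).im)) ≤
      4 * Real.pi * Real.exp Real.pi ^ 2 * (Sm * Em) := by
  set H := Hmat A (indP Q) with hH
  set a := NormedSpace.exp (-(Real.pi • H)) with ha
  have h1 : ∑ k, Real.exp (-(2 * Real.pi * (E k).re)) * (1 - Real.cos (2 * Real.pi * (E k).im)) =
      ∑ k, ‖Complex.exp (-(Real.pi * E k))‖ ^ 2 - ((NormedSpace.exp (-((2 * Real.pi) • H))).trace).re := by
    rw [← h.tr (2 * Real.pi), Complex.re_sum, ← Finset.sum_sub_distrib]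
    refine Finset.sum_congr rfl fun k _ => ?_
    rw [re_exp_neg, Complex.norm_exp, ← Real.exp_nat_mul, mul_sub, mul_one]
    congr 2
    simp; ring
  have h2 : ((NormedSpace.exp (-((2 * Real.pi) • H))).trace).re =
      ∑ x, ∑ y, ((a x y).re ^ 2 - (a x y).im ^ 2) := by
    rw [exp_double, Matrix.trace, Complex.re_sum]
    refine Finset.sum_congr rfl fun x _ => ?_
    rw [Matrix.diag_apply, Matrix.mul_apply, Complex.re_sum]
    refine Finset.sum_congr rfl fun y _ => ?_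
    rw [exp_Hmat_symm A hsym _ _ y x, Complex.mul_re, sq, sq]
  have h3 := h.fro Real.pi
  have h4 : ∑ x, ∑ y, ‖a x y‖ ^ 2 - ∑ x, ∑ y, ((a x y).re ^ 2 - (a x y).im ^ 2) =
      ∑ x, ∑ y, 2 * (a x y).im ^ 2 := by
    rw [← Finset.sum_sub_distrib]
    refine Finset.sum_congr rfl fun x _ => ?_
    rw [← Finset.sum_sub_distrib]
    refine Finset.sum_congr rfl fun y _ => ?_
    rw [← Complex.normSq_eq_norm_sq, Complex.normSq_apply]
    ring
  have h5 : ∑ x, ∑ y, 2 * (a x y).im ^ 2 ≤ ∑ x, ∑ y, 2 * (Real.exp Real.pi * Sm) * |(a x y).im| := by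
    refine Finset.sum_le_sum fun x _ => Finset.sum_le_sum fun y _ => ?_
    have e1 : |(a x y).im| ≤ Real.exp Real.pi * Sm :=
      (Complex.abs_im_le_norm _).trans ((semi_major A hoff (indP Q) (indP_abs Q) Real.pi
        Real.pi_pos.le x y).trans (mul_le_mul_of_nonneg_left (hS x y) (Real.exp_pos _).le))
    rw [← sq_abs, sq, ← mul_assoc]
    exact mul_le_mul_of_nonneg_right (mul_le_mul_of_nonneg_left e1 (by norm_num)) (abs_nonneg _)
  have h6 := im_sum_le A hsym hoff hrow Q Em hE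
  have hSm : 0 ≤ Sm := by
    obtain ⟨x⟩ := ‹Nonempty G›
    exact (heat_nonneg A hoff Real.pi Real.pi_pos.le x x).trans (hS x x)
  rw [h1, h2]
  calc _ ≤ ∑ x, ∑ y, ‖a x y‖ ^ 2 - ∑ x, ∑ y, ((a x y).re ^ 2 - (a x y).im ^ 2) := by
          exact sub_le_sub_right h3 _
      _ = ∑ x, ∑ y, 2 * (a x y).im ^ 2 := h4
      _ ≤ ∑ x, ∑ y, 2 * (Real.exp Real.pi * Sm) * |(a x y).im| := h5
      _ = 2 * (Real.exp Real.pi * Sm) * ∑ x, ∑ y, |(a x y).im| := by
          simp_rw [← Finset.mul_sum]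
      _ ≤ 2 * (Real.exp Real.pi * Sm) * (2 * (Real.exp Real.pi * Em * Real.pi)) := by
          exact mul_le_mul_of_nonneg_left h6 (by positivity)
      _ = _ := by ring

end CE
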