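import Pool.Agent.H631.Embed
import Pool.Agent.H631.Comm

open MeasureTheory Finset

namespace CE

noncomputable section

theorem fl_addJ (d m : ℕ) (hm : 0 < m) (x : EE d) (i : Fin d) :
    fl d m (x + (m : ℝ)⁻¹ • EuclideanSpace.single i (1 : ℝ)) = fl d m x + Pi.single i 1 := by
  have hm' : (m : ℝ) ≠ 0 := by positivity
  funext j
  simp only [fl, PiLp.add_apply, PiLp.smul_apply, smul_eq_mul, Pi.add_apply]
  by_cases h : j = i
  · subst h
    simp only [EuclideanSpace.single_apply, if_true, mul_one, Pi.single_eq_same]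
    rw [mul_add, mul_inv_cancel₀ hm', Int.floor_add_one]
  · simp [EuclideanSpace.single_apply, h, Pi.single_eq_of_ne h]

theorem fl_subJ (d m : ℕ) (hm : 0 < m) (x : EE d) (i : Fin d) :
    fl d m (x - (m : ℝ)⁻¹ • EuclideanSpace.single i (1 : ℝ)) = fl d m x - Pi.single i 1 := by
  have := fl_addJ d m hm (x - (m : ℝ)⁻¹ • EuclideanSpace.single i (1 : ℝ)) i
  rw [sub_add_cancel] at this
  rw [this]; simp

/-- periodic step function -/
def PJ (d m M : ℕ) (u : Tor d M → ℂ) (x : EE d) : ℂ :=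
  ((Real.sqrt ((m : ℝ) ^ d) : ℝ) : ℂ) * lft d M u (fl d m x)

theorem PJ_add (d m M : ℕ) (hm : 0 < m) (u : Tor d M → ℂ) (x : EE d) (i : Fin d) :
    PJ d m M u (x + (m : ℝ)⁻¹ • EuclideanSpace.single i (1 : ℝ)) =
      PJ d m M (fun t => u (t + Pi.single i 1)) x := by
  unfold PJ lft
  rw [fl_addJ d m hm]
  congr 2
  funext j
  by_cases h : j = i
  · subst h; simp
  · simp [Pi.single_eq_of_ne h]

theorem PJ_sub (d m M : ℕ) (hm : 0 < m) (u : Tor d M → ℂ) (x : EE d) (i : Fin d) :
    PJ d m M u (x - (m : ℝ)⁻¹ • EuclideanSpace.single i (1 : ℝ)) =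
      PJ d m M (fun t => u (t - Pi.single i 1)) x := by
  unfold PJ lft
  rw [fl_subJ d m hm]
  congr 2
  funext j
  by_cases h : j = i
  · subst h; simp
  · simp [Pi.single_eq_of_ne h]

theorem measurable_flJ (d m : ℕ) : Measurable (fl d m) := by
  rw [measurable_pi_iff]
  intro i
  unfold fl
  apply Int.measurable_floor.comp
  fun_prop

theorem measurable_PJ (d m M : ℕ) (u : Tor d M → ℂ) : Measurable (PJ d m M u) := by
  unfold PJ
  refine Measurable.const_mul ?_ _
  have : Measurable (lft d M u) := measurable_of_countable _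
  exact this.comp (measurable_flJ d m)

theorem bdd_PJ (d m M : ℕ) [NeZero M] (u : Tor d M → ℂ) : ∃ C : ℝ, ∀ x, ‖PJ d m M u x‖ ≤ C := by
  refine ⟨‖((Real.sqrt ((m : ℝ) ^ d) : ℝ) : ℂ)‖ * ∑ t, ‖u t‖, fun x => ?_⟩
  unfold PJ
  rw [norm_mul]
  refine mul_le_mul_of_nonneg_left ?_ (norm_nonneg _)
  exact Finset.single_le_sum (f := fun t => ‖u t‖) (fun _ _ => norm_nonneg _) (Finset.mem_univ _)

theorem integrable_PJ (d m M : ℕ) [NeZero M] (u : Tor d M → ℂ) (ψ : EE d → ℂ)
    (hψ : Integrable ψ) : Integrable (fun x => PJ d m M u x * ψ x) := by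
  obtain ⟨C, hC⟩ := bdd_PJ d m M u
  exact hψ.bdd_mul (c := C) (measurable_PJ d m M u).aestronglyMeasurable
    (Filter.Eventually.of_forall hC)

theorem shiftJ (d m M : ℕ) (hm : 0 < m) [NeZero M] (u : Tor d M → ℂ) (φ : EE d → ℂ) (i : Fin d) :
    ∫ x, PJ d m M u x * φ (x + (m : ℝ)⁻¹ • EuclideanSpace.single i (1 : ℝ)) =
      ∫ x, PJ d m M (fun t => u (t - Pi.single i 1)) x * φ x := by
  refine Eq.trans ?_ (integral_add_right_eq_self (μ := volume)
    (fun x : EE d => PJ d m M (fun t => u (t - Pi.single i 1)) x * φ x)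
    ((m : ℝ)⁻¹ • EuclideanSpace.single i (1 : ℝ)))
  congr 1
  funext x
  rw [← PJ_sub d m M hm, add_sub_cancel_right]

theorem shiftJ' (d m M : ℕ) (hm : 0 < m) [NeZero M] (u : Tor d M → ℂ) (φ : EE d → ℂ) (i : Fin d) :
    ∫ x, PJ d m M u x * φ (x - (m : ℝ)⁻¹ • EuclideanSpace.single i (1 : ℝ)) =
      ∫ x, PJ d m M (fun t => u (t + Pi.single i 1)) x * φ x := by
  refine Eq.trans ?_ (integral_sub_right_eq_self (μ := volume)
    (fun x : EE d => PJ d m M (fun t => u (t + Pi.single i 1)) x * φ x)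
    ((m : ℝ)⁻¹ • EuclideanSpace.single i (1 : ℝ)))
  congr 1
  funext x
  rw [← PJ_add d m M hm, sub_add_cancel]

theorem measurableSet_cubeJ (d : ℕ) : MeasurableSet {x : EE d | ∀ i, 0 ≤ x i ∧ x i < 1} := by
  have : {x : EE d | ∀ i, 0 ≤ x i ∧ x i < 1} = ⋂ i, ({x : EE d | 0 ≤ x i} ∩ {x | x i < 1}) := by
    ext x; simp
  rw [this]
  refine MeasurableSet.iInter fun i => ?_
  refine MeasurableSet.inter ?_ ?_
  · exact measurableSet_le measurable_const (by fun_prop)
  · exact measurableSet_lt (by fun_prop) measurable_const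

theorem cube_iffJ (d m R : ℕ) [NeZero (2 * (R * m))] (hm : 0 < m) (hR : 1 ≤ R) (x : EE d)
    (hx : x ∈ bx d R) :
    (fun i => ((fl d m x i : ℤ) : ZMod (2 * (R * m)))) ∈ cubeQ d (2 * (R * m)) m ↔
      ∀ i, 0 ≤ x i ∧ x i < 1 := by
  have hm' : (0 : ℝ) < m := by exact_mod_cast hm
  unfold cubeQ
  rw [Set.mem_ofPred_eq]
  refine forall_congr' fun i => ?_
  obtain ⟨h1, h2⟩ := hx i
  have h3 : -((R : ℤ) * m) ≤ fl d m x i := by
    unfold fl
    rw [Int.le_floor]
    push_cast
    nlinarith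
  have h4 : fl d m x i < (R : ℤ) * m := by
    unfold fl
    rw [Int.floor_lt]
    push_cast
    nlinarith
  have h5 : (((fl d m x i : ℤ) : ZMod (2 * (R * m))).val : ℤ) =
      fl d m x i % ((2 * (R * m) : ℕ) : ℤ) := ZMod.val_intCast _
  have h6 : (((fl d m x i : ℤ) : ZMod (2 * (R * m))).val < m) ↔
      (0 ≤ fl d m x i ∧ fl d m x i < m) := by
    rw [← Nat.cast_lt (α := ℤ), h5]
    push_cast
    have hRm : (m : ℤ) ≤ R * m := by
      have : (1:ℤ) ≤ R := by exact_mod_cast hR
      nlinarith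
    constructor
    · intro h
      rcases lt_or_ge (fl d m x i) 0 with h0 | h0
      · exfalso
        have : fl d m x i % (2 * ((R:ℤ) * m)) = fl d m x i + 2 * ((R:ℤ) * m) := by
          rw [← Int.add_emod_right, Int.emod_eq_of_lt (by linarith) (by linarith)]
        rw [this] at h
        linarith
      · rw [Int.emod_eq_of_lt h0 (by linarith)] at h
        exact ⟨h0, h⟩
    · rintro ⟨h7, h8⟩
      rw [Int.emod_eq_of_lt h7 (by linarith)]
      exact h8
  rw [h6]
  unfold fl
  rw [Int.floor_nonneg, Int.floor_lt]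
  push_cast
  constructor
  · rintro ⟨h7, h8⟩
    constructor
    · by_contra hc
      push Not at hc
      nlinarith
    · by_contra hc
      push Not at hc
      nlinarith
  · rintro ⟨h7, h8⟩
    constructor
    · positivity
    · nlinarith

theorem int3J {d : ℕ} (f g h : EE d → ℂ) (hf : Integrable f) (hg : Integrable g)
    (hh : Integrable h) : ∫ x, (f x + g x - h x) = (∫ x, f x) + (∫ x, g x) - ∫ x, h x := by
  have h1 : Integrable (fun x => f x + g x) := hf.add hg
  rw [integral_sub h1 hh, integral_add hf hg]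

/-- TARGET: discrete summation by parts for the step function -/
theorem weak_exact (d m R ρ : ℕ) [NeZero (2 * (R * m))] (hm : 0 < m) (hρ : ρ + 1 ≤ R) (ħ : ℝ)
    (u : Tor d (2 * (R * m)) → ℂ) (φ : EE d → ℂ) (hφ : Continuous φ) (hc : HasCompactSupport φ)
    (hsupp : ∀ x, φ x ≠ 0 → x ∈ bx d ρ) :
    ∫ x, embF d m R (lft d (2 * (R * m)) u) x *
      (-((ħ : ℂ) ^ 2) * ((m : ℂ) ^ 2 * ∑ i : Fin d,
        (φ (x + (m : ℝ)⁻¹ • EuclideanSpace.single i (1 : ℝ))
          + φ (x - (m : ℝ)⁻¹ • EuclideanSpace.single i (1 : ℝ)) - 2 * φ x)) + Vpot d x * φ x)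
      = ∫ x, embF d m R (lft d (2 * (R * m)) (Hop d (2 * (R * m)) m ħ u)) x * φ x := by
  classical
  have hm' : (0 : ℝ) < m := by exact_mod_cast hm
  have hm1 : (m : ℝ)⁻¹ ≤ 1 := inv_le_one_of_one_le₀ (by exact_mod_cast hm)
  have hm0 : 0 < (m : ℝ)⁻¹ := by positivity
  have hρR : (ρ : ℝ) + 1 ≤ R := by exact_mod_cast hρ
  have hR1 : 1 ≤ R := by omega
  have hz : ∀ x, x ∉ bx d R → φ x = 0 := by
    intro x hx
    by_contra h
    apply hx
    intro i
    have := hsupp x h i
    constructor <;> linarith [this.1, this.2]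
  have hzp : ∀ x (i : Fin d), x ∉ bx d R →
      φ (x + (m : ℝ)⁻¹ • EuclideanSpace.single i (1 : ℝ)) = 0 := by
    intro x i hx
    by_contra h
    apply hx
    intro j
    have := hsupp _ h j
    simp only [PiLp.add_apply, PiLp.smul_apply, smul_eq_mul, EuclideanSpace.single_apply] at this
    by_cases hj : j = i
    · rw [if_pos hj] at this
      constructor <;> linarith [this.1, this.2]
    · rw [if_neg hj] at this
      constructor <;> linarith [this.1, this.2]
  have hzm : ∀ x (i : Fin d), x ∉ bx d R →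
      φ (x - (m : ℝ)⁻¹ • EuclideanSpace.single i (1 : ℝ)) = 0 := by
    intro x i hx
    by_contra h
    apply hx
    intro j
    have := hsupp _ h j
    simp only [PiLp.sub_apply, PiLp.smul_apply, smul_eq_mul, EuclideanSpace.single_apply] at this
    by_cases hj : j = i
    · rw [if_pos hj] at this
      constructor <;> linarith [this.1, this.2]
    · rw [if_neg hj] at this
      constructor <;> linarith [this.1, this.2]
  have hint : Integrable φ := hφ.integrable_of_hasCompactSupport hc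
  have hintp : ∀ i : Fin d, Integrable (fun x => φ (x + (m : ℝ)⁻¹ • EuclideanSpace.single i (1 : ℝ))) :=
    fun i => hint.comp_add_right _
  have hintm : ∀ i : Fin d, Integrable (fun x => φ (x - (m : ℝ)⁻¹ • EuclideanSpace.single i (1 : ℝ))) :=
    fun i => hint.comp_sub_right _
  have hVm : Measurable (Vpot d) := measurable_const.indicator (measurableSet_cubeJ d)
  have hVb : ∀ x, ‖Vpot d x‖ ≤ 1 := by
    intro x
    unfold Vpot
    by_cases h : x ∈ {x : EE d | ∀ i, 0 ≤ x i ∧ x i < 1}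
    · rw [Set.indicator_of_mem h]; simp
    · rw [Set.indicator_of_notMem h]; simp
  have hVint : Integrable (fun x => Vpot d x * φ x) :=
    hint.bdd_mul (c := 1) hVm.aestronglyMeasurable (Filter.Eventually.of_forall hVb)
  -- rewrite left integrand
  have hL : ∀ x, embF d m R (lft d (2 * (R * m)) u) x *
      (-((ħ : ℂ) ^ 2) * ((m : ℂ) ^ 2 * ∑ i : Fin d,
        (φ (x + (m : ℝ)⁻¹ • EuclideanSpace.single i (1 : ℝ))
          + φ (x - (m : ℝ)⁻¹ • EuclideanSpace.single i (1 : ℝ)) - 2 * φ x)) + Vpot d x * φ x) =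
      (∑ i : Fin d, (-((ħ : ℂ) ^ 2 * (m : ℂ) ^ 2)) *
        (PJ d m (2 * (R * m)) u x * φ (x + (m : ℝ)⁻¹ • EuclideanSpace.single i (1 : ℝ))
          + PJ d m (2 * (R * m)) u x * φ (x - (m : ℝ)⁻¹ • EuclideanSpace.single i (1 : ℝ))
          - 2 * (PJ d m (2 * (R * m)) u x * φ x))) + PJ d m (2 * (R * m)) u x * (Vpot d x * φ x) := by
    intro x
    by_cases hx : x ∈ bx d R
    · have : embF d m R (lft d (2 * (R * m)) u) x = PJ d m (2 * (R * m)) u x := by
        unfold embF; rw [Set.indicator_of_mem hx]; rfl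
      rw [this, mul_add]
      congr 1
      rw [Finset.mul_sum, Finset.mul_sum, Finset.mul_sum]
      refine Finset.sum_congr rfl fun i _ => ?_
      ring
    · have : embF d m R (lft d (2 * (R * m)) u) x = 0 := by
        unfold embF; rw [Set.indicator_of_notMem hx]
      rw [this, hz x hx, zero_mul]
      simp [hzp x _ hx, hzm x _ hx]
  have hRt : ∀ x, embF d m R (lft d (2 * (R * m)) (Hop d (2 * (R * m)) m ħ u)) x * φ x =
      (∑ i : Fin d, (-((ħ : ℂ) ^ 2 * (m : ℂ) ^ 2)) *
        (PJ d m (2 * (R * m)) (fun t => u (t - Pi.single i 1)) x * φ x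
          + PJ d m (2 * (R * m)) (fun t => u (t + Pi.single i 1)) x * φ x
          - 2 * (PJ d m (2 * (R * m)) u x * φ x))) + PJ d m (2 * (R * m)) u x * (Vpot d x * φ x) := by
    intro x
    by_cases hx : x ∈ bx d R
    · have h1 : embF d m R (lft d (2 * (R * m)) (Hop d (2 * (R * m)) m ħ u)) x = PJ d m (2 * (R * m)) (Hop d (2 * (R * m)) m ħ u) x := by
        unfold embF; rw [Set.indicator_of_mem hx]; rfl
      rw [h1]
      unfold PJ lft Hop
      rw [lap_apply]
      have h2 := cube_iffJ d m R hm hR1 x hx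
      have h3 : Vpot d x = (if (fun i => ((fl d m x i : ℤ) : ZMod (2 * (R * m)))) ∈ cubeQ d (2 * (R * m)) m
          then Complex.I else 0) := by
        unfold Vpot
        by_cases h : ∀ i, 0 ≤ x i ∧ x i < 1
        · rw [if_pos (h2.mpr h), Set.indicator_of_mem]
          exact h
        · rw [if_neg (fun hh => h (h2.mp hh)), Set.indicator_of_notMem]
          exact h
      rw [← h3, mul_add, add_mul, Finset.mul_sum, Finset.mul_sum, Finset.sum_mul]
      congr 1
      · refine Finset.sum_congr rfl fun i _ => ?_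
        push_cast
        ring
      · ring
    · have h1 : embF d m R (lft d (2 * (R * m)) (Hop d (2 * (R * m)) m ħ u)) x = 0 := by
        unfold embF; rw [Set.indicator_of_notMem hx]
      rw [h1, hz x hx]
      simp
  refine (integral_congr_ae (Filter.Eventually.of_forall hL)).trans ?_
  refine Eq.trans ?_ (integral_congr_ae (Filter.Eventually.of_forall hRt)).symm
  have i1 : ∀ i : Fin d, Integrable (fun x => PJ d m (2 * (R * m)) u x *
      φ (x + (m : ℝ)⁻¹ • EuclideanSpace.single i (1 : ℝ))) := fun i =>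
    integrable_PJ d m (2 * (R * m)) u _ (hintp i)
  have i2 : ∀ i : Fin d, Integrable (fun x => PJ d m (2 * (R * m)) u x *
      φ (x - (m : ℝ)⁻¹ • EuclideanSpace.single i (1 : ℝ))) := fun i =>
    integrable_PJ d m (2 * (R * m)) u _ (hintm i)
  have i3 : ∀ v : Tor d (2 * (R * m)) → ℂ, Integrable (fun x => PJ d m (2 * (R * m)) v x * φ x) := fun v =>
    integrable_PJ d m (2 * (R * m)) v _ hint
  have i4 : Integrable (fun x => PJ d m (2 * (R * m)) u x * (Vpot d x * φ x)) :=
    integrable_PJ d m (2 * (R * m)) u _ hVint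
  have j1 : ∀ i : Fin d, Integrable (fun x => (-((ħ : ℂ) ^ 2 * (m : ℂ) ^ 2)) *
        (PJ d m (2 * (R * m)) u x * φ (x + (m : ℝ)⁻¹ • EuclideanSpace.single i (1 : ℝ))
          + PJ d m (2 * (R * m)) u x * φ (x - (m : ℝ)⁻¹ • EuclideanSpace.single i (1 : ℝ))
          - 2 * (PJ d m (2 * (R * m)) u x * φ x))) := fun i =>
    (((i1 i).add (i2 i)).sub ((i3 u).const_mul 2)).const_mul _
  have j2 : ∀ i : Fin d, Integrable (fun x => (-((ħ : ℂ) ^ 2 * (m : ℂ) ^ 2)) *
        (PJ d m (2 * (R * m)) (fun t => u (t - Pi.single i 1)) x * φ x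
          + PJ d m (2 * (R * m)) (fun t => u (t + Pi.single i 1)) x * φ x
          - 2 * (PJ d m (2 * (R * m)) u x * φ x))) := fun i =>
    (((i3 _).add (i3 _)).sub ((i3 u).const_mul 2)).const_mul _
  rw [integral_add (integrable_finsetSum _ fun i _ => j1 i) i4,
    integral_add (integrable_finsetSum _ fun i _ => j2 i) i4,
    integral_finsetSum _ (fun i _ => j1 i), integral_finsetSum _ (fun i _ => j2 i)]
  congr 1
  refine Finset.sum_congr rfl fun i _ => ?_
  rw [integral_const_mul, integral_const_mul]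
  congr 1
  have k1 : ∫ x, (PJ d m (2 * (R * m)) u x * φ (x + (m : ℝ)⁻¹ • EuclideanSpace.single i (1 : ℝ))
          + PJ d m (2 * (R * m)) u x * φ (x - (m : ℝ)⁻¹ • EuclideanSpace.single i (1 : ℝ))
          - 2 * (PJ d m (2 * (R * m)) u x * φ x)) =
      (∫ x, PJ d m (2 * (R * m)) u x * φ (x + (m : ℝ)⁻¹ • EuclideanSpace.single i (1 : ℝ))) +
      (∫ x, PJ d m (2 * (R * m)) u x * φ (x - (m : ℝ)⁻¹ • EuclideanSpace.single i (1 : ℝ))) -
      ∫ x, 2 * (PJ d m (2 * (R * m)) u x * φ x) := by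
    exact int3J _ _ _ (i1 i) (i2 i) ((i3 u).const_mul 2)
  have k2 : ∫ x, (PJ d m (2 * (R * m)) (fun t => u (t - Pi.single i 1)) x * φ x
          + PJ d m (2 * (R * m)) (fun t => u (t + Pi.single i 1)) x * φ x
          - 2 * (PJ d m (2 * (R * m)) u x * φ x)) =
      (∫ x, PJ d m (2 * (R * m)) (fun t => u (t - Pi.single i 1)) x * φ x) +
      (∫ x, PJ d m (2 * (R * m)) (fun t => u (t + Pi.single i 1)) x * φ x) -
      ∫ x, 2 * (PJ d m (2 * (R * m)) u x * φ x) := by
    exact int3J _ _ _ (i3 _) (i3 _) ((i3 u).const_mul 2)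
  rw [k1, k2, shiftJ d m (2 * (R * m)) hm, shiftJ' d m (2 * (R * m)) hm]

end

end CE
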